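import Pool.Agent.Lib_helper24.TN.C

/-!
# Tate normal form, generic points, translation by the point `(0,0)`
-/

set_option autoImplicit false
set_option linter.unusedSectionVars false

namespace Pool.Agent.TN

open Polynomial WeierstrassCurve.Affine WithZero

section General

variable {k : Type*} [Field k] {W : WeierstrassCurve.Affine k}

/-- the elements of `⟨1, x, y, x², x y, x³, x² y⟩` -/
noncomputable def N7 (n₀ n₂ n₃ n₄ n₅ n₆ n₇ : k) : K W :=
  cK n₀ + cK n₂ * xK + cK n₃ * yK + cK n₄ * xK ^ 2 + cK n₅ * (xK * yK) + cK n₆ * xK ^ 3 +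
    cK n₇ * (xK ^ 2 * yK)

lemma N7_basis (n₀ n₂ n₃ n₄ n₅ n₆ n₇ : k) : (N7 n₀ n₂ n₃ n₄ n₅ n₆ n₇ : K W) =
    inc ((C n₆ * X ^ 3 + C n₄ * X ^ 2 + C n₂ * X + C n₀ : k[X]) • (1 : W.CoordinateRing) +
      (C n₇ * X ^ 2 + C n₅ * X + C n₃ : k[X]) • CoordinateRing.mk W X) := by
  rw [inc_basis]
  simp only [eval₂_add, eval₂_mul, eval₂_C, eval₂_X, eval₂_pow]
  unfold N7
  ring

lemma v_even {p q : k[X]} {d : ℕ} (hp : p.degree = d) (hq : 2 • q.degree + 3 ≤ (2 * d : ℕ)) :
    v (W := W) (inc (p • (1 : W.CoordinateRing) + q • CoordinateRing.mk W X)) =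
      exp ((2 * d : ℕ) : ℤ) := by
  apply v_basis
  rw [hp]
  have : (2 • (d : WithBot ℕ)) = ((2 * d : ℕ) : WithBot ℕ) := by
    rw [two_nsmul]; norm_cast; rw [two_mul]
  rw [this]
  exact max_eq_left hq

lemma v_odd {p q : k[X]} {d : ℕ} (hq : q.degree = d) (hp : 2 • p.degree ≤ (2 * d + 3 : ℕ)) :
    v (W := W) (inc (p • (1 : W.CoordinateRing) + q • CoordinateRing.mk W X)) =
      exp ((2 * d + 3 : ℕ) : ℤ) := by
  apply v_basis
  rw [hq]
  have : (2 • (d : WithBot ℕ)) + 3 = ((2 * d + 3 : ℕ) : WithBot ℕ) := by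
    rw [two_nsmul]; norm_cast; rw [two_mul]
  rw [this]
  exact max_eq_right hp

lemma v7 {n₀ n₂ n₃ n₄ n₅ n₆ n₇ : k} (h : n₇ ≠ 0) :
    v (W := W) (N7 n₀ n₂ n₃ n₄ n₅ n₆ n₇) = exp 7 := by
  rw [N7_basis]
  refine v_odd (d := 2) (degree_quadratic h) ?_
  refine (nsmul_le_nsmul_right degree_cubic_le 2).trans ?_
  norm_num

lemma v6 {n₀ n₂ n₃ n₄ n₅ n₆ : k} (h : n₆ ≠ 0) :
    v (W := W) (N7 n₀ n₂ n₃ n₄ n₅ n₆ 0) = exp 6 := by
  rw [N7_basis]
  simp only [C_0, zero_mul, zero_add]
  refine v_even (d := 3) (degree_cubic h) ?_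
  refine (add_le_add_left (nsmul_le_nsmul_right degree_linear_le 2) 3).trans ?_
  norm_num

lemma v5 {n₀ n₂ n₃ n₄ n₅ : k} (h : n₅ ≠ 0) :
    v (W := W) (N7 n₀ n₂ n₃ n₄ n₅ 0 0) = exp 5 := by
  rw [N7_basis]
  simp only [C_0, zero_mul, zero_add]
  refine v_odd (d := 1) (degree_linear h) ?_
  refine (nsmul_le_nsmul_right degree_quadratic_le 2).trans ?_
  norm_num

lemma v4 {n₀ n₂ n₃ n₄ : k} (h : n₄ ≠ 0) :
    v (W := W) (N7 n₀ n₂ n₃ n₄ 0 0 0) = exp 4 := by
  rw [N7_basis]
  simp only [C_0, zero_mul, zero_add]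
  refine v_even (d := 2) (degree_quadratic h) ?_
  refine (add_le_add_left (nsmul_le_nsmul_right degree_C_le 2) 3).trans ?_
  norm_num

lemma v3 {n₀ n₂ n₃ : k} (h : n₃ ≠ 0) :
    v (W := W) (N7 n₀ n₂ n₃ 0 0 0 0) = exp 3 := by
  rw [N7_basis]
  simp only [C_0, zero_mul, zero_add]
  refine v_odd (d := 0) (degree_C h) ?_
  refine (nsmul_le_nsmul_right degree_linear_le 2).trans ?_
  norm_num

lemma v2 {n₀ n₂ : k} (h : n₂ ≠ 0) :
    v (W := W) (N7 n₀ n₂ 0 0 0 0 0) = exp 2 := by
  rw [N7_basis]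
  simp only [C_0, zero_mul, zero_add]
  refine v_even (d := 1) (degree_linear h) ?_
  rw [degree_zero]
  exact bot_le

lemma N7_sub (n₀ n₂ n₃ n₄ n₅ n₆ n₇ m₀ m₂ m₃ m₄ m₅ m₆ m₇ : k) :
    (N7 n₀ n₂ n₃ n₄ n₅ n₆ n₇ - N7 m₀ m₂ m₃ m₄ m₅ m₆ m₇ : K W) =
      N7 (n₀ - m₀) (n₂ - m₂) (n₃ - m₃) (n₄ - m₄) (n₅ - m₅) (n₆ - m₆) (n₇ - m₇) := by
  unfold N7
  simp only [map_sub]
  ring

end General

/-! ### generic points -/

section Gen

variable {k : Type*} [Field k] {F : Type*} [Field F] [Algebra k F]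

/-- `x` is transcendental over `k` -/
def Tr (k : Type*) [Field k] {F : Type*} [Field F] [Algebra k F] (x : F) : Prop :=
  ∀ p : k[X], p.eval₂ (algebraMap k F) x = 0 → p = 0

lemma Tr_iff (z : F) : Tr k z ↔ Transcendental k z := by
  constructor
  · intro hz ⟨p, hp, h0⟩
    exact hp (hz p h0)
  · intro hz p hp
    by_contra hne
    exact hz ⟨p, hne, hp⟩

/-- the Tate normal form -/
def Wt (b c : k) : WeierstrassCurve.Affine k := ⟨1 - c, -b, -b, 0, 0⟩

/-- a generic point of the curve -/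
structure Gen (b c : k) (x y : F) : Prop where
  eq : y ^ 2 + (1 - algebraMap k F c) * x * y - algebraMap k F b * y =
    x ^ 3 - algebraMap k F b * x ^ 2
  tr : Tr k x

variable {b c : k} {x y : F}

lemma Gen.eqn (h : Gen b c x y) : Eqn (Wt b c) (algebraMap k F) x y := by
  unfold Eqn Wt
  simp only [map_sub, map_neg, map_one, map_zero]
  linear_combination h.eq

/-- the embedding of the function field given by a generic point -/
noncomputable def io (h : Gen b c x y) : K (Wt b c) →+* F :=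
  IsLocalization.lift (M := nonZeroDivisors (Wt b c).CoordinateRing)
    (g := homR (algebraMap k F) x y h.eqn) (by
    intro r
    rw [isUnit_iff_ne_zero]
    intro h0
    exact nonZeroDivisors.coe_ne_zero r
      (homR_injective (algebraMap k F) x y h.eqn h.tr (by rw [h0, map_zero])))

lemma io_inc (h : Gen b c x y) (r : (Wt b c).CoordinateRing) :
    io h (inc r) = homR (algebraMap k F) x y h.eqn r :=
  IsLocalization.lift_eq _ _

lemma io_x (h : Gen b c x y) : io h xK = x := (io_inc h _).trans (homR_x _ _ _ _)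

lemma io_y (h : Gen b c x y) : io h yK = y := (io_inc h _).trans (homR_y _ _ _ _)

lemma io_c (h : Gen b c x y) (a : k) : io h (cK a) = algebraMap k F a :=
  (io_inc h _).trans (homR_c _ _ _ _ _)

lemma io_inj (h : Gen b c x y) : Function.Injective (io h) := (io h).injective

lemma eqW : (yK : K (Wt b c)) ^ 2 + (1 - cK c) * xK * yK - cK b * yK = xK ^ 3 - cK b * xK ^ 2 := by
  have h : (yK : K (Wt b c)) ^ 2 + cK (1 - c) * xK * yK + cK (-b) * yK =
      xK ^ 3 + cK (-b) * xK ^ 2 + cK 0 * xK + cK 0 := eqK (W := Wt b c)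
  rw [map_sub, map_neg, map_one, map_zero] at h
  linear_combination h

lemma Gen.x_ne (h : Gen b c x y) : x ≠ 0 := by
  rw [← io_x h]; exact (_root_.map_ne_zero _).mpr (ne_of_v v_x)

lemma Gen.xc_ne (h : Gen b c x y) (a : k) : x - algebraMap k F a ≠ 0 := by
  have : x - algebraMap k F a = io h (xK - cK a) := by rw [map_sub, io_x, io_c]
  rw [this]; exact (_root_.map_ne_zero _).mpr (ne_of_v (v_xc a))

lemma Gen.yab_ne (h : Gen b c x y) (a a' : k) :
    y + algebraMap k F a * x + algebraMap k F a' ≠ 0 := by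
  have : y + algebraMap k F a * x + algebraMap k F a' = io h (yK + cK a * xK + cK a') := by
    rw [map_add, map_add, map_mul, io_x, io_y, io_c, io_c]
  rw [this]; exact (_root_.map_ne_zero _).mpr (ne_of_v (v_yab a a'))

lemma Gen.y_ne (h : Gen b c x y) : y ≠ 0 := by
  have := h.yab_ne 0 0
  rwa [map_zero, zero_mul, add_zero, add_zero] at this

/-- elements of `F` which are quadratic over algebraic ones -/
lemma alg_of_quad [CharZero k] {u A B C : F} (hA : IsAlgebraic k A) (hB : IsAlgebraic k B)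
    (hC : IsAlgebraic k C) (hA0 : A ≠ 0) (h : A * u ^ 2 + B * u + C = 0) : IsAlgebraic k u := by
  have : CharZero F := charZero_of_injective_algebraMap (algebraMap k F).injective
  have h2 : (2 : F) ≠ 0 := two_ne_zero
  have hc : ∀ c : k, IsAlgebraic k (algebraMap k F c) := fun c => isAlgebraic_algebraMap c
  have h4 : IsAlgebraic k (2 * A * u + B) := by
    apply IsAlgebraic.of_pow (n := 2) (by norm_num)
    have e : (2 * A * u + B) ^ 2 = B ^ 2 - algebraMap k F 4 * (A * C) := by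
      rw [map_ofNat]
      linear_combination (4 * A) * h
    rw [e]
    exact (hB.pow 2).sub ((hc 4).mul (hA.mul hC))
  have h5 : IsAlgebraic k (2 * A * u) := by
    have e : 2 * A * u = (2 * A * u + B) - B := by ring
    rw [e]
    exact h4.sub hB
  have h6 : IsAlgebraic k (algebraMap k F 2 * A) := (hc 2).mul hA
  rw [map_ofNat] at h6
  have e : u = (2 * A)⁻¹ * (2 * A * u) := by
    field_simp
  rw [e]
  exact h6.inv.mul h5

/-- translation by `(0,0)` -/
theorem Gen.next [CharZero k] (hb : b ≠ 0) (h : Gen b c x y) :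
    Gen b c (algebraMap k F b * y / x ^ 2) (algebraMap k F b ^ 2 * (x ^ 2 - y) / x ^ 3) := by
  have hx := h.x_ne
  have hy := h.y_ne
  have he := h.eq
  have hB : algebraMap k F b ≠ 0 := (_root_.map_ne_zero _).mpr hb
  constructor
  · field_simp
    linear_combination (x ^ 2 - y) * he
  · rw [Tr_iff]
    have htr := (Tr_iff x).mp h.tr
    intro halg
    apply htr
    set z := algebraMap k F b * y / x ^ 2 with hz
    set B := algebraMap k F b with hBd
    have hy' : B * y = z * x ^ 2 := by rw [hz]; field_simp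
    have hz0 : z ≠ 0 := by
      rw [hz]; exact div_ne_zero (mul_ne_zero hB hy) (pow_ne_zero 2 hx)
    clear_value z
    have hc : ∀ c : k, IsAlgebraic k (algebraMap k F c) := fun c => isAlgebraic_algebraMap c
    have h1 : IsAlgebraic k (1 : F) := by
      have := hc 1
      rwa [map_one] at this
    refine alg_of_quad (A := z ^ 2) (B := B * (1 - algebraMap k F c) * z - B ^ 2)
      (C := B ^ 3 - B ^ 2 * z) (halg.pow 2)
      ((((hc b).mul (h1.sub (hc c))).mul halg).sub ((hc b).pow 2))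
      (((hc b).pow 3).sub (((hc b).pow 2).mul halg)) (pow_ne_zero 2 hz0) ?_
    apply mul_left_cancel₀ (pow_ne_zero 2 hx)
    linear_combination (B ^ 2) * he - (z * x ^ 2 + B * y + (1 - algebraMap k F c) * B * x - B ^ 2) * hy'

end Gen

end Pool.Agent.TN
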