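import Pool.Agent.Lib_helper24.TN.A

/-!
# Weierstrass curves: homomorphisms out of the coordinate ring, the valuation at infinity
-/

set_option autoImplicit false
set_option linter.unusedSectionVars false

namespace Pool.Agent.TN

open Polynomial WeierstrassCurve.Affine WithZero

variable {k : Type*} [Field k] {W : WeierstrassCurve.Affine k}

/-- the function `x` -/
noncomputable def xR : W.CoordinateRing := CoordinateRing.mk W (C X)

/-- the function `y` -/
noncomputable def yR : W.CoordinateRing := CoordinateRing.mk W X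

/-- the constants -/
noncomputable def cR : k →+* W.CoordinateRing := (CoordinateRing.mk W).comp (C.comp C)

/-- the equation of the curve after `i₀` -/
def Eqn (W : WeierstrassCurve.Affine k) {S : Type*} [CommRing S] (i₀ : k →+* S) (x y : S) : Prop :=
  y ^ 2 + i₀ W.a₁ * x * y + i₀ W.a₃ * y = x ^ 3 + i₀ W.a₂ * x ^ 2 + i₀ W.a₄ * x + i₀ W.a₆

lemma poly_W : W.polynomial = X ^ 2 + (C (C W.a₁) * C X + C (C W.a₃)) * X -
    (C X ^ 3 + C (C W.a₂) * C X ^ 2 + C (C W.a₄) * C X + C (C W.a₆)) := by
  unfold WeierstrassCurve.Affine.polynomial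
  simp only [map_add, map_mul, map_pow]

lemma eqR : Eqn W cR (xR : W.CoordinateRing) yR := by
  have h1 : CoordinateRing.mk W W.polynomial = 0 := AdjoinRoot.mk_self
  have h := (congrArg (CoordinateRing.mk W) (poly_W (W := W))).symm.trans h1
  simp only [map_sub, map_add, map_mul, map_pow] at h
  unfold Eqn cR xR yR
  simp only [RingHom.coe_comp, Function.comp_apply]
  linear_combination h

/-- homomorphisms out of the coordinate ring -/
noncomputable def homR {S : Type*} [CommRing S] (i₀ : k →+* S) (x y : S)
    (h : Eqn W i₀ x y) : W.CoordinateRing →+* S :=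
  AdjoinRoot.lift (eval₂RingHom i₀ x) y (by
    rw [show W.polynomial = _ from poly_W]
    simp only [eval₂_sub, eval₂_add, eval₂_pow, eval₂_mul, eval₂_X, eval₂_C, coe_eval₂RingHom]
    unfold Eqn at h
    linear_combination h)

section homR

variable {S : Type*} [CommRing S] (i₀ : k →+* S) (x y : S) (h : Eqn W i₀ x y)

lemma homR_C (p : k[X]) : homR i₀ x y h (CoordinateRing.mk W (C p)) = p.eval₂ i₀ x := by
  unfold homR
  exact AdjoinRoot.lift_of _

lemma homR_x : homR i₀ x y h xR = x := by
  unfold xR; rw [homR_C, eval₂_X]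

lemma homR_y : homR i₀ x y h yR = y := by
  unfold homR yR
  exact AdjoinRoot.lift_root _

lemma homR_c (c : k) : homR i₀ x y h (cR c) = i₀ c := by
  unfold cR
  show homR i₀ x y h (CoordinateRing.mk W (C (C c))) = _
  rw [homR_C, eval₂_C]

lemma basis_eq (p q : k[X]) : p • (1 : W.CoordinateRing) + q • CoordinateRing.mk W X =
    CoordinateRing.mk W (C p) + CoordinateRing.mk W (C q) * yR := by
  rw [CoordinateRing.smul, CoordinateRing.smul, mul_one]
  rfl

lemma homR_basis (p q : k[X]) :
    homR i₀ x y h (p • (1 : W.CoordinateRing) + q • CoordinateRing.mk W X) =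
    p.eval₂ i₀ x + q.eval₂ i₀ x * y := by
  rw [basis_eq, map_add, map_mul, homR_C, homR_C, homR_y]

lemma hom_ext {S : Type*} [CommRing S] {φ ψ : W.CoordinateRing →+* S}
    (hc : ∀ c, φ (cR c) = ψ (cR c))
    (hx : φ xR = ψ xR) (hy : φ yR = ψ yR) : φ = ψ := by
  have h1 : ∀ p : k[X], φ (CoordinateRing.mk W (C p)) = ψ (CoordinateRing.mk W (C p)) := by
    intro p
    have : (φ.comp (CoordinateRing.mk W)).comp C = (ψ.comp (CoordinateRing.mk W)).comp C := by
      apply Polynomial.ringHom_ext
      · intro a; exact hc a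
      · exact hx
    exact congrArg (fun f : k[X] →+* S => f p) this
  refine RingHom.ext fun r => ?_
  obtain ⟨p, q, rfl⟩ := CoordinateRing.exists_smul_basis_eq r
  rw [basis_eq, map_add, map_add, map_mul, map_mul, h1, h1, hy]

/-- injectivity: only the transcendence of `x` is needed -/
lemma homR_injective {F : Type*} [Field F] (i₀ : k →+* F) (x y : F)
    (h : Eqn W i₀ x y) (hx : ∀ p : k[X], p.eval₂ i₀ x = 0 → p = 0) :
    Function.Injective (homR i₀ x y h) := by
  rw [injective_iff_map_eq_zero]
  intro r hr
  obtain ⟨p, q, rfl⟩ := CoordinateRing.exists_smul_basis_eq r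
  rw [homR_basis] at hr
  have h1 : Algebra.norm k[X] (p • (1 : W.CoordinateRing) + q • CoordinateRing.mk W X) = 0 := by
    rw [CoordinateRing.norm_smul_basis]
    apply hx
    simp only [eval₂_sub, eval₂_add, eval₂_mul, eval₂_pow, eval₂_X, eval₂_C]
    unfold Eqn at h
    linear_combination (p.eval₂ i₀ x - q.eval₂ i₀ x * y - q.eval₂ i₀ x * (i₀ W.a₁ * x + i₀ W.a₃)) *
      hr + (q.eval₂ i₀ x) ^ 2 * h
  have h2 : D (p • (1 : W.CoordinateRing) + q • CoordinateRing.mk W X) = ⊥ := by
    unfold D; rw [h1, degree_zero]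
  exact D_eq_bot.mp h2

end homR

/-! ### the function field -/

variable (W) in
/-- the function field -/
abbrev K : Type _ := W.FunctionField

/-- the inclusion -/
noncomputable abbrev inc : W.CoordinateRing →+* K W := algebraMap W.CoordinateRing (K W)

lemma inc_injective : Function.Injective (inc (W := W)) := IsFractionRing.injective _ _

lemma supp_le : nonZeroDivisors W.CoordinateRing ≤ (vR (W := W)).supp.primeCompl := by
  intro r hr
  rw [Ideal.mem_primeCompl_iff, Valuation.mem_supp_iff]
  have hr0 : r ≠ 0 := nonZeroDivisors.ne_zero hr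
  show ¬ (if r = 0 then 0 else exp (((D r).unbotD 0 : ℕ) : ℤ)) = 0
  rw [if_neg hr0]
  exact exp_ne_zero

/-- the absolute value at infinity -/
noncomputable def v : Valuation (K W) (WithZero (Multiplicative ℤ)) :=
  (vR (W := W)).extendToLocalization (supp_le (W := W)) (K W)

lemma v_inc (r : W.CoordinateRing) : v (W := W) (inc r) = vR r :=
  Valuation.extendToLocalization_apply_map_apply vR supp_le (K W) r

lemma v_basis (p q : k[X]) {n : ℕ} (h : max (2 • p.degree) (2 • q.degree + 3) = n) :
    v (W := W) (inc (p • (1 : W.CoordinateRing) + q • CoordinateRing.mk W X)) = exp (n : ℤ) := by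
  rw [v_inc, vR_of_D (n := n)]
  rw [D_basis, h]

end Pool.Agent.TN
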