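import Pool.Agent.Lib_helper24.TN.N4

/-!
# The solutions of the unit equation for a point of order four
-/

set_option autoImplicit false
set_option linter.unusedSectionVars false

namespace Pool.Agent.TN

/-- `f` is one of `u`, `1 - u`, `1/u`, `1 - 1/u`, `1/(1-u)`, `u/(u-1)` -/
def Orb {F : Type*} [Field F] (u f : F) : Prop :=
  f = u ∨ f = 1 - u ∨ f = 1 / u ∨ f = 1 - 1 / u ∨ f = 1 / (1 - u) ∨ f = u / (u - 1)

section Ind

variable {k : Type*} [Field k] {F : Type*} [Field F] [Algebra k F] {b c : k} {x y : F}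

/-- linear independence of `1, x, y, x², x y, x³, x² y` over `k` -/
theorem Gen.ind (h : Gen b c x y) {n₀ n₂ n₃ n₄ n₅ n₆ n₇ : k}
    (h0 : algebraMap k F n₀ + algebraMap k F n₂ * x + algebraMap k F n₃ * y +
      algebraMap k F n₄ * x ^ 2 + algebraMap k F n₅ * (x * y) + algebraMap k F n₆ * x ^ 3 +
      algebraMap k F n₇ * (x ^ 2 * y) = 0) :
    n₀ = 0 ∧ n₂ = 0 ∧ n₃ = 0 ∧ n₄ = 0 ∧ n₅ = 0 ∧ n₆ = 0 ∧ n₇ = 0 := by
  have h1 : (N7 n₀ n₂ n₃ n₄ n₅ n₆ n₇ : K (Wt b c)) = 0 := by
    apply io_inj h
    rw [map_zero]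
    unfold N7
    simp only [map_add, map_mul, map_pow, io_c, io_x, io_y]
    exact h0
  have g7 : n₇ = 0 := by
    by_contra hne
    exact ne_of_v (v7 hne) h1
  subst g7
  have g6 : n₆ = 0 := by
    by_contra hne
    exact ne_of_v (v6 hne) h1
  subst g6
  have g5 : n₅ = 0 := by
    by_contra hne
    exact ne_of_v (v5 hne) h1
  subst g5
  have g4 : n₄ = 0 := by
    by_contra hne
    exact ne_of_v (v4 hne) h1
  subst g4
  have g3 : n₃ = 0 := by
    by_contra hne
    exact ne_of_v (v3 hne) h1
  subst g3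
  have g2 : n₂ = 0 := by
    by_contra hne
    exact ne_of_v (v2 hne) h1
  subst g2
  have g0 : n₀ = 0 := by
    simp only [map_zero, zero_mul, add_zero] at h0
    exact (algebraMap k F).injective (by rw [h0, map_zero])
  exact ⟨g0, rfl, rfl, rfl, rfl, rfl, rfl⟩

end Ind

namespace N4

/-- the seven alternatives -/
def val : Fin 7 → ℤ × ℤ := ![(0, 0), (1, 0), (2, 0), (0, 1), (0, 2), (-1, -1), (-2, -2)]

lemma alt_val {m m' : ℤ} (h : Alt m m') : ∃ i, m = (val i).1 ∧ m' = (val i).2 := by
  rcases h with h | h | h | h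
  · exact ⟨0, h.1, h.2⟩
  · obtain h1 | h1 : m = 1 ∨ m = 2 := by omega
    · exact ⟨1, h1, h.2.2⟩
    · exact ⟨2, h1, h.2.2⟩
  · obtain h1 | h1 : m' = 1 ∨ m' = 2 := by omega
    · exact ⟨3, h.1, h1⟩
    · exact ⟨4, h.1, h1⟩
  · obtain h1 | h1 : m = -1 ∨ m = -2 := by omega
    · exact ⟨5, h1, by rw [← h.1]; exact h1⟩
    · exact ⟨6, h1, by rw [← h.1]; exact h1⟩

/-- the list of exponents of `x`, `x - t`, `y` in `f` and in `1 - f` -/
def lst : List (ℤ × ℤ × ℤ × ℤ × ℤ × ℤ) :=
  [(1, 0, 0, 0, 1, 0), (0, 1, 0, 1, 0, 0), (-1, 0, 0, -1, 1, 0), (-1, 1, 0, -1, 0, 0),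
   (0, -1, 0, 1, -1, 0), (1, -1, 0, 0, -1, 0),
   (-2, 0, 1, -2, -1, 2), (-2, -1, 2, -2, 0, 1), (2, 0, -1, 0, -1, 1), (0, -1, 1, 2, 0, -1),
   (2, 1, -2, 0, 1, -1), (0, 1, -1, 2, 1, -2)]

set_option maxRecDepth 100000 in
lemma fin_all : ∀ i j l q : Fin 7,
    (val i).1 + (val j).1 + (val l).1 + (val q).1 = 0 →
    (val i).2 + (val j).2 + (val l).2 + (val q).2 = 0 →
    ((val j).1 + 2 * (val l).1 + 3 * (val q).1) % 4 = 0 →
    ((val j).2 + 2 * (val l).2 + 3 * (val q).2) % 4 = 0 →
    ((val j).1 = 0 ∧ (val l).1 = 0 ∧ (val q).1 = 0) ∨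
    ((val q).1, (2 * (val l).1 - ((val j).1 - (val q).1)) / 4, ((val j).1 - (val q).1) / 2,
      (val q).2, (2 * (val l).2 - ((val j).2 - (val q).2)) / 4, ((val j).2 - (val q).2) / 2) ∈ lst
    := by
  decide +kernel

/-- the exponents of the solutions -/
theorem exps {a b c a' b' c' : ℤ} (h0 : ¬ (a = 0 ∧ b = 0 ∧ c = 0))
    (h : Alt (-(2 * a + 2 * b + 3 * c)) (-(2 * a' + 2 * b' + 3 * c')) ∧
      Alt (a + 2 * c) (a' + 2 * c') ∧ Alt (2 * b + c) (2 * b' + c') ∧ Alt a a') :
    (a, b, c, a', b', c') ∈ lst := by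
  obtain ⟨ho, h1, h2, h3⟩ := h
  obtain ⟨i, i1, i2⟩ := alt_val ho
  obtain ⟨j, j1, j2⟩ := alt_val h1
  obtain ⟨l, l1, l2⟩ := alt_val h2
  obtain ⟨q, q1, q2⟩ := alt_val h3
  rcases fin_all i j l q (by rw [← i1, ← j1, ← l1, ← q1]; ring)
    (by rw [← i2, ← j2, ← l2, ← q2]; ring) (by rw [← j1, ← l1, ← q1]; omega)
    (by rw [← j2, ← l2, ← q2]; omega) with h4 | h4
  · rw [← j1, ← l1, ← q1] at h4
    exact absurd ⟨h4.2.2, by omega, by omega⟩ h0
  · rw [← j1, ← l1, ← q1, ← j2, ← l2, ← q2] at h4
    rw [show (2 * (2 * b + c) - (a + 2 * c - a)) / 4 = b by omega,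
      show (a + 2 * c - a) / 2 = c by omega,
      show (2 * (2 * b' + c') - (a' + 2 * c' - a')) / 4 = b' by omega,
      show (a' + 2 * c' - a') / 2 = c' by omega] at h4
    exact h4

section F

variable {k : Type*} [Field k] {F : Type*} [Field F] [Algebra k F] {t : k} {x y : F}

/-- **the unit equation for a point of order four** -/
theorem unit_eq [CharZero k] (ht : t ≠ 0) (h : Gen t 0 x y) {c₀ c₁ : k} (h0 : c₀ ≠ 0)
    (h1 : c₁ ≠ 0) {a b c a' b' c' : ℤ}
    (hu : algebraMap k F c₀ * M t x y a b c + algebraMap k F c₁ * M t x y a' b' c' = 1) :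
    (a = 0 ∧ b = 0 ∧ c = 0) ∨ Orb (x / algebraMap k F t) (algebraMap k F c₀ * M t x y a b c) ∨
      Orb (y / x ^ 2) (algebraMap k F c₀ * M t x y a b c) := by
  by_cases hz : a = 0 ∧ b = 0 ∧ c = 0
  · exact Or.inl hz
  right
  have hl := exps hz ((bound_all ht h h0 h1 hu).resolve_left hz)
  have hx := h.x_ne
  have hy := h.y_ne
  have hx1 := h.xc_ne t
  have he := h.eq
  rw [map_zero] at he
  have hB : algebraMap k F t ≠ 0 := (_root_.map_ne_zero _).mpr ht
  have e1 : y ^ 2 / (x - algebraMap k F t) = x ^ 2 - y := by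
    rw [div_eq_iff hx1]; linear_combination he
  have e1' : x ^ 2 - y ≠ 0 := by
    rw [← e1]; exact div_ne_zero (pow_ne_zero 2 hy) hx1
  have hxt : algebraMap k F t - x ≠ 0 := by
    intro h'; apply hx1; linear_combination -h'
  -- independence
  have ind2 : ∀ {p q : k}, algebraMap k F p + algebraMap k F q * x = 0 → p = 0 ∧ q = 0 := by
    intro p q hpq
    have := h.ind (n₀ := p) (n₂ := q) (n₃ := 0) (n₄ := 0) (n₅ := 0) (n₆ := 0) (n₇ := 0) (by
      rw [map_zero]; linear_combination hpq)
    exact ⟨this.1, this.2.1⟩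
  have ind3 : ∀ {p q : k}, algebraMap k F p * y + algebraMap k F q * x ^ 2 = 0 →
      p = 0 ∧ q = 0 := by
    intro p q hpq
    have := h.ind (n₀ := 0) (n₂ := 0) (n₃ := p) (n₄ := q) (n₅ := 0) (n₆ := 0) (n₇ := 0) (by
      rw [map_zero]; linear_combination hpq)
    exact ⟨this.2.2.1, this.2.2.2.1⟩
  simp only [lst, List.mem_cons, Prod.mk.injEq, List.not_mem_nil, or_false] at hl
  unfold Orb
  unfold M at hu ⊢
  have m1 : algebraMap k F 1 = 1 := map_one _
  rcases hl with hl | hl | hl | hl | hl | hl | hl | hl | hl | hl | hl | hl <;>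
    obtain ⟨rfl, rfl, rfl, rfl, rfl, rfl⟩ := hl <;>
    simp only [zpow_neg, zpow_ofNat, zpow_zero, zpow_one, pow_one, one_mul, mul_one] at hu ⊢
  -- `x/t`
  · obtain ⟨p1, p2⟩ := ind2 (p := -c₁ * t - 1) (q := c₀ + c₁) (by
      rw [map_sub, map_mul, map_neg, map_add, map_one]; linear_combination hu)
    have hc : algebraMap k F c₀ * algebraMap k F t = 1 := by
      rw [← map_mul, ← m1]; congr 1; linear_combination p1 + t * p2
    left; left
    rw [eq_div_iff hB]; linear_combination x * hc
  · obtain ⟨p1, p2⟩ := ind2 (p := -c₀ * t - 1) (q := c₀ + c₁) (by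
      rw [map_sub, map_mul, map_neg, map_add, map_one]; linear_combination hu)
    have hc : algebraMap k F c₀ * algebraMap k F t = -1 := by
      rw [← map_mul, ← m1, ← map_neg]; congr 1; linear_combination -p1
    left; right; left
    field_simp
    linear_combination (x - algebraMap k F t) * hc
  · field_simp at hu
    obtain ⟨p1, p2⟩ := ind2 (p := c₀ - c₁ * t) (q := c₁ - 1) (by
      rw [map_sub, map_mul, map_sub, map_one]; linear_combination hu)
    have hc : algebraMap k F c₀ = algebraMap k F t := by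
      congr 1; linear_combination p1 + t * p2
    left; right; right; left
    rw [hc]
    field_simp
  · field_simp at hu
    obtain ⟨p1, p2⟩ := ind2 (p := c₁ - c₀ * t) (q := c₀ - 1) (by
      rw [map_sub, map_mul, map_sub, map_one]; linear_combination hu)
    have hc : algebraMap k F c₀ = 1 := by
      rw [← m1]; congr 1; linear_combination p2
    left; right; right; right; left
    rw [hc]
    field_simp
  · field_simp at hu
    obtain ⟨p1, p2⟩ := ind2 (p := c₀ + t) (q := c₁ - 1) (by
      rw [map_sub, map_add, map_one]; linear_combination hu)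
    have hc : algebraMap k F c₀ = - algebraMap k F t := by
      rw [← map_neg]; congr 1; linear_combination p1
    left; right; right; right; right; left
    rw [hc]
    rw [show (1 : F) - x / algebraMap k F t = (algebraMap k F t - x) / algebraMap k F t by
      field_simp]
    field_simp
    ring
  · field_simp at hu
    obtain ⟨p1, p2⟩ := ind2 (p := c₁ + t) (q := c₀ - 1) (by
      rw [map_sub, map_add, map_one]; linear_combination hu)
    have hc : algebraMap k F c₀ = 1 := by
      rw [← m1]; congr 1; linear_combination p2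
    left; right; right; right; right; right
    rw [hc]
    rw [show x / algebraMap k F t - 1 = (x - algebraMap k F t) / algebraMap k F t by
      field_simp]
    field_simp
  -- `y/x²`
  · have e2 : algebraMap k F c₀ * y + algebraMap k F c₁ * (x ^ 2 - y) = x ^ 2 := by
      rw [← e1]; field_simp; field_simp at hu; linear_combination hu
    obtain ⟨p1, p2⟩ := ind3 (p := c₀ - c₁) (q := c₁ - 1) (by
      rw [map_sub, map_sub, map_one]; linear_combination e2)
    have hc : algebraMap k F c₀ = 1 := by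
      rw [← m1]; congr 1; linear_combination p1 + p2
    right; left
    rw [hc]
    field_simp
  · have e2 : algebraMap k F c₁ * y + algebraMap k F c₀ * (x ^ 2 - y) = x ^ 2 := by
      rw [← e1]; field_simp; field_simp at hu; linear_combination hu
    obtain ⟨p1, p2⟩ := ind3 (p := c₁ - c₀) (q := c₀ - 1) (by
      rw [map_sub, map_sub, map_one]; linear_combination e2)
    have hc : algebraMap k F c₀ = 1 := by
      rw [← m1]; congr 1; linear_combination p2
    right; right; left
    rw [hc]
    rw [show (1 : F) - y / x ^ 2 = (x ^ 2 - y) / x ^ 2 by field_simp, ← e1]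
    field_simp
  · have e2 : algebraMap k F c₀ * x ^ 2 + algebraMap k F c₁ * (x ^ 2 - y) = y := by
      rw [← e1]; field_simp; field_simp at hu; linear_combination hu
    obtain ⟨p1, p2⟩ := ind3 (p := -c₁ - 1) (q := c₀ + c₁) (by
      rw [map_sub, map_neg, map_add, map_one]; linear_combination e2)
    have hc : algebraMap k F c₀ = 1 := by
      rw [← m1]; congr 1; linear_combination p1 + p2
    right; right; right; left
    rw [hc]
    field_simp
  · have e2 : algebraMap k F c₁ * x ^ 2 + algebraMap k F c₀ * (x ^ 2 - y) = y := by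
      rw [← e1]; field_simp; field_simp at hu; linear_combination hu
    obtain ⟨p1, p2⟩ := ind3 (p := -c₀ - 1) (q := c₀ + c₁) (by
      rw [map_sub, map_neg, map_add, map_one]; linear_combination e2)
    have hc : algebraMap k F c₀ = -1 := by
      rw [← m1, ← map_neg]; congr 1; linear_combination -p1
    right; right; right; right; left
    rw [hc]
    rw [show (1 : F) - 1 / (y / x ^ 2) = -(x ^ 2 - y) / y by field_simp; ring, ← e1]
    field_simp
  · have e2 : algebraMap k F c₀ * x ^ 2 + algebraMap k F c₁ * y = x ^ 2 - y := by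
      rw [← e1]; field_simp; field_simp at hu; linear_combination hu
    obtain ⟨p1, p2⟩ := ind3 (p := c₁ + 1) (q := c₀ - 1) (by
      rw [map_sub, map_add, map_one]; linear_combination e2)
    have hc : algebraMap k F c₀ = 1 := by
      rw [← m1]; congr 1; linear_combination p2
    right; right; right; right; right; left
    rw [hc]
    rw [show (1 : F) - y / x ^ 2 = (x ^ 2 - y) / x ^ 2 by field_simp, ← e1]
    field_simp
  · have e2 : algebraMap k F c₁ * x ^ 2 + algebraMap k F c₀ * y = x ^ 2 - y := by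
      rw [← e1]; field_simp; field_simp at hu; linear_combination hu
    obtain ⟨p1, p2⟩ := ind3 (p := c₀ + 1) (q := c₁ - 1) (by
      rw [map_sub, map_add, map_one]; linear_combination e2)
    have hc : algebraMap k F c₀ = -1 := by
      rw [← m1, ← map_neg]; congr 1; linear_combination p1
    right; right; right; right; right; right
    rw [hc]
    rw [show y / x ^ 2 - 1 = -(x ^ 2 - y) / x ^ 2 by field_simp; ring, ← e1]
    field_simp

end F

end N4

end Pool.Agent.TN
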