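import Pool.Agent.Lib_helper2.K4.Bridge
import Pool.Agent.Lib_helper24.TN.N4U

/-!
# Tools for the weight three complex: classes of functions, constants, contractions
-/

set_option autoImplicit false
set_option linter.unusedSectionVars false

open scoped TensorProduct

namespace Pool.Agent.TN

open MK4

/-! ### classes of functions -/

section Logs

variable {F : Type*} [Field F]

lemma lgz : lg (0 : F) = 0 := K4M.lg_zero
lemma lg1 : lg (1 : F) = 0 := K4M.lg_one
lemma lgmul {r s : F} (hr : r ≠ 0) (hs : s ≠ 0) : lg (r * s) = lg r + lg s := K4M.lg_mul hr hs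
lemma lgdiv {r s : F} (hr : r ≠ 0) (hs : s ≠ 0) : lg (r / s) = lg r - lg s := K4M.lg_div hr hs
lemma lginv (r : F) : lg r⁻¹ = - lg r := K4M.lg_inv r
lemma lgneg (r : F) : lg (-r) = lg r := K4M.lg_neg r
lemma lgpow {r : F} (hr : r ≠ 0) (n : ℕ) : lg (r ^ n) = (n : ℚ) • lg r := K4M.lg_pow hr n

lemma lgzpow {r : F} (hr : r ≠ 0) (n : ℤ) : lg (r ^ n) = (n : ℚ) • lg r := by
  obtain ⟨m, rfl | rfl⟩ := Int.eq_nat_or_neg n
  · rw [zpow_natCast, lgpow hr]; push_cast; rfl
  · rw [zpow_neg, lginv, zpow_natCast, lgpow hr]; push_cast; rw [neg_smul]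

lemma syinv [CharZero F] (w : F) : sy w⁻¹ = - sy w := K4M.sy_inv w
lemma sycompl [CharZero F] (w : F) : sy (1 - w) = - sy w := K4M.sy_compl w
lemma sy0 : sy (0 : F) = 0 := K4M.sy_zero
lemma sy1 : sy (1 : F) = 0 := K4M.sy_one

/-- the symbols of an orbit -/
lemma sy_orb [CharZero F] {u f : F} (hu : u ≠ 1) (h : Orb u f) : sy f = sy u ∨ sy f = - sy u := by
  have hu' : 1 - u ≠ 0 := sub_ne_zero.mpr (Ne.symm hu)
  rcases h with rfl | rfl | rfl | rfl | rfl | rfl
  · exact Or.inl rfl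
  · exact Or.inr (sycompl u)
  · rw [one_div]; exact Or.inr (syinv u)
  · rw [one_div, sycompl, syinv, neg_neg]; exact Or.inl rfl
  · rw [one_div, syinv, sycompl, neg_neg]; exact Or.inl rfl
  · right
    have hu1 : u - 1 ≠ 0 := sub_ne_zero.mpr hu
    have e : u / (u - 1) = 1 - (1 - u)⁻¹ := by
      field_simp
      ring
    rw [e, sycompl, syinv, sycompl, neg_neg]

lemma hk_add_left (a b : B2 F) (u : FT F) : hk (a + b) u = hk a u + hk b u := by
  unfold hk; rw [TensorProduct.add_tmul]; rfl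
lemma hk_add_right (a : B2 F) (u v : FT F) : hk a (u + v) = hk a u + hk a v := by
  unfold hk; rw [TensorProduct.tmul_add]; rfl
lemma hk_smul_left (q : ℚ) (a : B2 F) (u : FT F) : hk (q • a) u = q • hk a u := by
  exact (congrArg (Submodule.Quotient.mk (p := Submodule.span ℚ (rel3 F)))
    (TensorProduct.smul_tmul' q a u).symm).trans rfl
lemma hk_smul_right (q : ℚ) (a : B2 F) (u : FT F) : hk a (q • u) = q • hk a u := by
  unfold hk; rw [TensorProduct.tmul_smul]; rfl
lemma hk_neg_left (a : B2 F) (u : FT F) : hk (-a) u = - hk a u := by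
  have := hk_smul_left (-1) a u; rwa [neg_one_smul, neg_one_smul] at this
lemma hk_neg_right (a : B2 F) (u : FT F) : hk a (-u) = - hk a u := by
  have := hk_smul_right (-1) a u; rwa [neg_one_smul, neg_one_smul] at this
lemma hk_zero_left (u : FT F) : hk (0 : B2 F) u = 0 := by
  have := hk_smul_left 0 (0 : B2 F) u; rwa [zero_smul, zero_smul] at this
lemma hk_zero_right (a : B2 F) : hk a (0 : FT F) = 0 := by
  have := hk_smul_right 0 a (0 : FT F); rwa [zero_smul, zero_smul] at this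
lemma hk_sub_right (a : B2 F) (u v : FT F) : hk a (u - v) = hk a u - hk a v := by
  rw [sub_eq_add_neg, hk_add_right, hk_neg_right, ← sub_eq_add_neg]

/-- `{f} ⊗ f = 0` -/
lemma hk_self {f : F} (h0 : f ≠ 0) (h1 : f ≠ 1) : hk (sy f) (lg f) = 0 := by
  unfold hk
  exact (Submodule.Quotient.mk_eq_zero _).mpr (Submodule.subset_span ⟨f, h0, h1, rfl⟩)

/-- `{f} ⊗ (1-f) = 0` -/
lemma hk_compl [CharZero F] {f : F} (h0 : f ≠ 0) (h1 : f ≠ 1) : hk (sy f) (lg (1 - f)) = 0 := by
  have h : hk (sy (1 - f)) (lg (1 - f)) = 0 := by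
    apply hk_self
    · exact sub_ne_zero.mpr h1.symm
    · intro h; apply h0; linear_combination -h
  rw [sycompl, hk_neg_left, neg_eq_zero] at h
  exact h

/-- the kernel of `F^* → F^* ⊗ ℚ` consists of the roots of unity -/
lemma pow_eq_one_of_lg {r : F} (hr : r ≠ 0) (h : lg r = 0) : ∃ n : ℕ, 0 < n ∧ r ^ n = 1 := by
  have h0 : K4M.lg r = 0 := h
  rw [K4M.lg_of_ne hr] at h0
  have h1 : TensorProduct.mk ℤ ℚ (Additive Fˣ) 1 (Additive.ofMul (Units.mk0 r hr)) = 0 := h0
  rw [IsLocalizedModule.eq_zero_iff (nonZeroDivisors ℤ)] at h1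
  obtain ⟨⟨m, hm⟩, h2⟩ := h1
  have hm0 : m ≠ 0 := nonZeroDivisors.ne_zero hm
  have h3 : (Units.mk0 r hr) ^ m = 1 := by
    have h4 : m • Additive.ofMul (Units.mk0 r hr) = 0 := h2
    rw [← ofMul_zpow] at h4
    exact h4
  have h5 : r ^ m = 1 := by
    have := congrArg (Units.val) h3
    rw [Units.val_zpow_eq_zpow_val] at this
    exact this
  refine ⟨m.natAbs, Int.natAbs_pos.mpr hm0, ?_⟩
  rcases Int.natAbs_eq m with h6 | h6
  · rw [h6, zpow_natCast] at h5; exact h5
  · rw [h6, zpow_neg, zpow_natCast, inv_eq_one] at h5; exact h5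

end Logs

/-! ### constants -/

section Const

variable (k : Type*) [Field k] (F : Type*) [Field F] [Algebra k F]

/-- the span of the classes of the constants -/
noncomputable def V0 : Submodule ℚ (FT F) := Submodule.span ℚ {z | ∃ c : k, z = lg (algebraMap k F c)}

/-- the span of the `{c} ⊗ u`, `c` constant -/
noncomputable def KC : Submodule ℚ (HK F) :=
  Submodule.span ℚ {z | ∃ (c : k) (u : FT F), z = hk (sy (algebraMap k F c)) u}

variable {k F}

lemma lg_mem_V0 (c : k) : lg (algebraMap k F c) ∈ V0 k F := Submodule.subset_span ⟨c, rfl⟩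

/-- the elements of the span of the constants -/
lemma span_const {w : FT F} (hw : w ∈ V0 k F) :
    ∃ (N : ℕ) (c : k), 0 < N ∧ c ≠ 0 ∧ (N : ℚ) • w = lg (algebraMap k F c) := by
  have ne : ∀ {c : k}, c ≠ 0 → algebraMap k F c ≠ 0 := fun hc => (_root_.map_ne_zero _).mpr hc
  induction hw using Submodule.span_induction with
  | mem w hw =>
    obtain ⟨c, rfl⟩ := hw
    rcases eq_or_ne c 0 with rfl | hc
    · refine ⟨1, 1, one_pos, one_ne_zero, ?_⟩
      rw [map_zero, map_one, lgz, lg1, smul_zero]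
    · exact ⟨1, c, one_pos, hc, by rw [Nat.cast_one, one_smul]⟩
  | zero => exact ⟨1, 1, one_pos, one_ne_zero, by rw [smul_zero, map_one, lg1]⟩
  | add u v _ _ hu hv =>
    obtain ⟨N, c, hN, hc, h⟩ := hu
    obtain ⟨M, d, hM, hd, h'⟩ := hv
    refine ⟨N * M, c ^ M * d ^ N, Nat.mul_pos hN hM,
      mul_ne_zero (pow_ne_zero _ hc) (pow_ne_zero _ hd), ?_⟩
    rw [map_mul, map_pow, map_pow, lgmul (pow_ne_zero _ (ne hc)) (pow_ne_zero _ (ne hd)),
      lgpow (ne hc), lgpow (ne hd), ← h, ← h']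
    push_cast
    module
  | smul q u _ hu =>
    obtain ⟨N, c, hN, hc, h⟩ := hu
    refine ⟨N * q.den, c ^ q.num, Nat.mul_pos hN q.den_pos, zpow_ne_zero _ hc, ?_⟩
    rw [map_zpow₀, lgzpow (ne hc), ← h, smul_smul, smul_smul]
    congr 1
    have := Rat.mul_den_eq_num q
    push_cast
    rw [← this]
    ring

/-- units which are independent modulo constants in `F^*` are so in `F^* ⊗ ℚ` -/
theorem indep_lg {n : ℕ} (X : Fin n → F) (hX : ∀ i, X i ≠ 0)
    (hc : ∀ (e : Fin n → ℤ) (c : k), c ≠ 0 → ∏ i, X i ^ e i = algebraMap k F c → e = 0)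
    (q : Fin n → ℚ) (h : ∑ i, q i • lg (X i) ∈ V0 k F) : q = 0 := by
  have ne : ∀ {c : k}, c ≠ 0 → algebraMap k F c ≠ 0 := fun hc => (_root_.map_ne_zero _).mpr hc
  obtain ⟨N, c, hN, hc0, h1⟩ := span_const h
  obtain ⟨D, hD, m, hm⟩ : ∃ D : ℕ, 0 < D ∧ ∃ m : Fin n → ℤ, ∀ i, (D : ℚ) * q i = m i := by
    refine ⟨∏ i, (q i).den, Finset.prod_pos fun i _ => (q i).den_pos,
      fun i => (q i).num * ∏ j ∈ Finset.univ.erase i, ((q j).den : ℤ), fun i => ?_⟩
    have h1 : (∏ j, ((q j).den : ℚ)) =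
        (q i).den * ∏ j ∈ Finset.univ.erase i, ((q j).den : ℚ) :=
      (Finset.mul_prod_erase _ _ (Finset.mem_univ i)).symm
    push_cast
    rw [h1]
    have := Rat.mul_den_eq_num (q i)
    rw [← this]
    ring
  have lgprod : ∀ (s : Finset (Fin n)) (e : Fin n → ℤ),
      lg (∏ i ∈ s, X i ^ e i) = ∑ i ∈ s, (e i : ℚ) • lg (X i) := by
    intro s e
    induction s using Finset.induction_on with
    | empty => rw [Finset.prod_empty, Finset.sum_empty, lg1]
    | insert a s ha ih =>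
      rw [Finset.prod_insert ha, Finset.sum_insert ha, lgmul (zpow_ne_zero _ (hX _))
        (Finset.prod_ne_zero_iff.mpr fun i _ => zpow_ne_zero _ (hX i)), lgzpow (hX _), ih]
  set g : F := ∏ i, X i ^ (N * m i) with hg
  have hg0 : g ≠ 0 := Finset.prod_ne_zero_iff.mpr fun i _ => zpow_ne_zero _ (hX i)
  have h2 : lg g = lg (algebraMap k F (c ^ D)) := by
    rw [hg, lgprod, map_pow, lgpow (ne hc0), ← h1, Finset.smul_sum, Finset.smul_sum]
    refine Finset.sum_congr rfl fun i _ => ?_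
    push_cast
    rw [← hm, smul_smul, smul_smul]
    congr 1
    ring
  have h3 : lg (g / algebraMap k F (c ^ D)) = 0 := by
    rw [lgdiv hg0 (ne (pow_ne_zero _ hc0)), h2, sub_self]
  obtain ⟨M, hM, h4⟩ := pow_eq_one_of_lg (div_ne_zero hg0 (ne (pow_ne_zero _ hc0))) h3
  rw [div_pow, div_eq_one_iff_eq (pow_ne_zero _ (ne (pow_ne_zero _ hc0))), ← map_pow] at h4
  have h5 : ∏ i, X i ^ (N * m i * M) = algebraMap k F ((c ^ D) ^ M) := by
    rw [← h4, hg, ← Finset.prod_pow]
    refine Finset.prod_congr rfl fun i _ => ?_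
    rw [zpow_mul, zpow_natCast]
  have h6 := hc _ _ (pow_ne_zero _ (pow_ne_zero _ hc0)) h5
  funext i
  have hi := congrFun h6 i
  simp only [Pi.zero_apply] at hi
  have hmi : m i = 0 := by
    rcases mul_eq_zero.mp hi with h | h
    · rcases mul_eq_zero.mp h with h | h
      · exact absurd h (by exact_mod_cast hN.ne')
      · exact h
    · exact absurd h (by exact_mod_cast hM.ne')
  have := hm i
  rw [hmi, Int.cast_zero] at this
  rcases mul_eq_zero.mp this with h | h
  · exact absurd h (by exact_mod_cast hD.ne')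
  · exact h

end Const

/-! ### functionals and contractions -/

section Contr

variable {V : Type*} [AddCommGroup V] [Module ℚ V]

/-- dual functionals which vanish on a subspace -/
theorem exists_dual {n : ℕ} (W : Submodule ℚ V) (e : Fin n → V)
    (h : ∀ q : Fin n → ℚ, ∑ i, q i • e i ∈ W → q = 0) :
    ∃ φ : Fin n → V →ₗ[ℚ] ℚ, (∀ i, ∀ w ∈ W, φ i w = 0) ∧
      ∀ i j, φ i (e j) = if i = j then 1 else 0 := by
  let f : (Fin n → ℚ) →ₗ[ℚ] V ⧸ W :=
    (Submodule.mkQ W).comp (Fintype.linearCombination ℚ e)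
  have hf : LinearMap.ker f = ⊥ := by
    rw [LinearMap.ker_eq_bot']
    intro q hq
    apply h
    have : Submodule.Quotient.mk (p := W) (∑ i, q i • e i) = 0 := by
      have h2 : f q = Submodule.Quotient.mk (p := W) (∑ i, q i • e i) := by
        show Submodule.Quotient.mk (p := W) (Fintype.linearCombination ℚ e q) = _
        rw [Fintype.linearCombination_apply]
      rw [← h2]; exact hq
    exact (Submodule.Quotient.mk_eq_zero _).mp this
  obtain ⟨g, hg⟩ := f.exists_leftInverse_of_injective hf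
  refine ⟨fun i => (LinearMap.proj i).comp (g.comp (Submodule.mkQ W)), fun i w hw => ?_,
    fun i j => ?_⟩
  · show g (Submodule.Quotient.mk w) i = 0
    rw [(Submodule.Quotient.mk_eq_zero W).mpr hw, map_zero]
    rfl
  · show g (Submodule.Quotient.mk (e j)) i = _
    have h1 : f (Pi.single j 1) = Submodule.Quotient.mk (e j) := by
      show Submodule.Quotient.mk (p := W) (Fintype.linearCombination ℚ e (Pi.single j 1)) = _
      rw [Fintype.linearCombination_apply_single, one_smul]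
    have h2 : g (f (Pi.single j 1)) = Pi.single j 1 := congrArg (fun F => F (Pi.single j 1)) hg
    rw [← h1, h2, Pi.single_apply]

/-- the double contraction -/
noncomputable def ct (φ ψ : V →ₗ[ℚ] ℚ) : ExteriorAlgebra ℚ V →ₗ[ℚ] ExteriorAlgebra ℚ V :=
  (CliffordAlgebra.contractLeft ψ).comp (CliffordAlgebra.contractLeft φ)

lemma ct_mul3 (φ ψ : V →ₗ[ℚ] ℚ) (a b u : V) :
    ct φ ψ (ExteriorAlgebra.ι ℚ a * ExteriorAlgebra.ι ℚ b * ExteriorAlgebra.ι ℚ u) =
      ExteriorAlgebra.ι ℚ ((φ a * ψ b - φ b * ψ a) • u - (φ a * ψ u - φ u * ψ a) • b +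
        (φ b * ψ u - φ u * ψ b) • a) := by
  unfold ct
  rw [mul_assoc, LinearMap.comp_apply]
  have e1 : CliffordAlgebra.contractLeft φ (ExteriorAlgebra.ι ℚ a * (ExteriorAlgebra.ι ℚ b *
      ExteriorAlgebra.ι ℚ u)) = φ a • (ExteriorAlgebra.ι ℚ b * ExteriorAlgebra.ι ℚ u) -
      ExteriorAlgebra.ι ℚ a * (φ b • ExteriorAlgebra.ι ℚ u -
        ExteriorAlgebra.ι ℚ b * algebraMap ℚ _ (φ u)) := by
    have h1 := CliffordAlgebra.contractLeft_ι_mul (Q := (0 : QuadraticForm ℚ V)) φ a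
      (ExteriorAlgebra.ι ℚ b * ExteriorAlgebra.ι ℚ u)
    have h2 := CliffordAlgebra.contractLeft_ι_mul (Q := (0 : QuadraticForm ℚ V)) φ b
      (ExteriorAlgebra.ι ℚ u)
    have h3 := CliffordAlgebra.contractLeft_ι (Q := (0 : QuadraticForm ℚ V)) φ u
    refine h1.trans ?_
    congr 2
    refine h2.trans ?_
    congr 2
  have f1 : ∀ (c : V →ₗ[ℚ] ℚ) (x y : V), CliffordAlgebra.contractLeft c
      (ExteriorAlgebra.ι ℚ x * ExteriorAlgebra.ι ℚ y) =
      c x • ExteriorAlgebra.ι ℚ y - c y • ExteriorAlgebra.ι ℚ x := by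
    intro c x y
    have h2 := CliffordAlgebra.contractLeft_ι_mul (Q := (0 : QuadraticForm ℚ V)) c x
      (ExteriorAlgebra.ι ℚ y)
    have h3 := CliffordAlgebra.contractLeft_ι (Q := (0 : QuadraticForm ℚ V)) c y
    refine h2.trans ?_
    have h4 : CliffordAlgebra.contractLeft c (ExteriorAlgebra.ι ℚ y) =
      algebraMap ℚ (CliffordAlgebra (0 : QuadraticForm ℚ V)) (c y) := h3
    rw [h4, ← Algebra.commutes, ← Algebra.smul_def]
  rw [e1]
  have e2 : ExteriorAlgebra.ι ℚ a * (φ b • ExteriorAlgebra.ι ℚ u -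
        ExteriorAlgebra.ι ℚ b * algebraMap ℚ _ (φ u)) =
      φ b • (ExteriorAlgebra.ι ℚ a * ExteriorAlgebra.ι ℚ u) -
      φ u • (ExteriorAlgebra.ι ℚ a * ExteriorAlgebra.ι ℚ b) := by
    rw [mul_sub, mul_smul_comm, ← mul_assoc, ← Algebra.commutes, ← Algebra.smul_def]
  rw [e2, map_sub, map_sub, map_smul, map_smul, map_smul, f1, f1, f1, ← map_smul, ← map_smul,
    ← map_smul, ← map_smul, ← map_smul, ← map_smul]
  simp only [← map_sub, ← map_smul, ← map_add]
  congr 1
  module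

end Contr

end Pool.Agent.TN
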