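import Pool.Agent.Lib_helper24.TN.KA

/-!
# The closed elements supported on the multiples of a point of order four
-/

set_option autoImplicit false
set_option linter.unusedSectionVars false

open scoped TensorProduct

namespace Pool.Agent.TN

open MK4

section Gen

variable {k : Type*} [Field k] {F : Type*} [Field F] [Algebra k F]

/-- the differential with values in the exterior algebra -/
noncomputable def dE (F : Type*) [Field F] : HK F →ₗ[ℚ] ExteriorAlgebra ℚ (FT F) := dHS F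

lemma dE_sy {F : Type*} [Field F] (f : F) (u : FT F) : dE F (hk (sy f) u) =
    ExteriorAlgebra.ι ℚ (lg (1 - f)) * ExteriorAlgebra.ι ℚ (lg f) * ExteriorAlgebra.ι ℚ u :=
  (dHS_hk (sy f) u).trans (congrArg (· * MK4.io u) (deS_sy f))

lemma closed_dE {F : Type*} [Field F] (z : HK F) : Closed z ↔ dE F z = 0 := closed_iff z

/-- the double contraction kills the constants -/
lemma ct_KC {φ ψ : FT F →ₗ[ℚ] ℚ} (hφ : ∀ w ∈ V0 k F, φ w = 0) (hψ : ∀ w ∈ V0 k F, ψ w = 0)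
    {κ : HK F} (hκ : κ ∈ KC k F) : ct φ ψ (dE F κ) = 0 := by
  unfold KC at hκ
  induction hκ using Submodule.span_induction with
  | mem z hz =>
    obtain ⟨c, u, rfl⟩ := hz
    have e : (1 : F) - algebraMap k F c = algebraMap k F (1 - c) := by rw [map_sub, map_one]
    rw [dE_sy, ct_mul3, e, hφ _ (lg_mem_V0 _), hψ _ (lg_mem_V0 _), hφ _ (lg_mem_V0 _),
      hψ _ (lg_mem_V0 _)]
    simp
  | zero => rw [map_zero, map_zero]
  | add a b _ _ ha hb => rw [map_add, map_add, ha, hb, add_zero]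
  | smul q a _ ha => rw [map_smul, map_smul, ha, smul_zero]

end Gen

namespace N4

/-- the linear algebra -/
theorem alg {V : Type*} [AddCommGroup V] [Module ℚ V] {φ ψ χ : V →ₗ[ℚ] ℚ} {X Y Z τ u₀ u₁ : V}
    {w : ExteriorAlgebra ℚ V}
    (φX : φ X = 1) (φY : φ Y = 0) (φZ : φ Z = 0) (φτ : φ τ = 0)
    (ψX : ψ X = 0) (ψY : ψ Y = 1) (ψZ : ψ Z = 0) (ψτ : ψ τ = 0)
    (χX : χ X = 0) (χY : χ Y = 0) (χZ : χ Z = 1) (χτ : χ τ = 0)
    (w1 : ct φ ψ w = 0) (w2 : ct χ φ w = 0) (w3 : ct χ ψ w = 0)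
    (h : ExteriorAlgebra.ι ℚ (Z - τ) * ExteriorAlgebra.ι ℚ (X - τ) * ExteriorAlgebra.ι ℚ u₀ +
      ExteriorAlgebra.ι ℚ ((2 : ℚ) • Y - (2 : ℚ) • X - Z) *
        ExteriorAlgebra.ι ℚ (Y - (2 : ℚ) • X) * ExteriorAlgebra.ι ℚ u₁ + w = 0) :
    (ψ u₀) • τ = 0 ∧ ∃ p q r s : ℚ, u₀ = (ψ u₀) • Y + p • (Z - τ) + q • (X - τ) ∧
      u₁ = -(ψ u₀) • X + r • ((2 : ℚ) • Y - (2 : ℚ) • X - Z) + s • (Y - (2 : ℚ) • X) := by
  have key : ∀ {φ ψ : V →ₗ[ℚ] ℚ}, ct φ ψ w = 0 →
      (φ (Z - τ) * ψ (X - τ) - φ (X - τ) * ψ (Z - τ)) • u₀ -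
        (φ (Z - τ) * ψ u₀ - φ u₀ * ψ (Z - τ)) • (X - τ) +
        (φ (X - τ) * ψ u₀ - φ u₀ * ψ (X - τ)) • (Z - τ) +
      ((φ ((2 : ℚ) • Y - (2 : ℚ) • X - Z) * ψ (Y - (2 : ℚ) • X) -
          φ (Y - (2 : ℚ) • X) * ψ ((2 : ℚ) • Y - (2 : ℚ) • X - Z)) • u₁ -
        (φ ((2 : ℚ) • Y - (2 : ℚ) • X - Z) * ψ u₁ -
          φ u₁ * ψ ((2 : ℚ) • Y - (2 : ℚ) • X - Z)) • (Y - (2 : ℚ) • X) +
        (φ (Y - (2 : ℚ) • X) * ψ u₁ - φ u₁ * ψ (Y - (2 : ℚ) • X)) •
          ((2 : ℚ) • Y - (2 : ℚ) • X - Z)) = 0 := by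
    intro φ ψ hw
    have h1 := congrArg (ct φ ψ) h
    rw [map_add, map_add, map_zero, hw, add_zero, ct_mul3, ct_mul3, ← map_add] at h1
    exact (ExteriorAlgebra.ι_eq_zero_iff _).mp h1
  have e1 := key w1
  have e2 := key w2
  have e3 := key w3
  simp only [map_sub, map_smul, smul_eq_mul, φX, φY, φZ, φτ, ψX, ψY, ψZ, ψτ, χX, χY, χZ, χτ]
    at e1 e2 e3
  norm_num at e1 e2 e3
  have f : (ψ u₀ + φ u₁ + 2 * ψ u₁ + 2 * χ u₁) • (Z - (2 : ℚ) • X) + (ψ u₀) • τ = 0 := by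
    linear_combination (norm := module) e1 + (2 : ℚ) • e3
  have hS : ψ u₀ + φ u₁ + 2 * ψ u₁ + 2 * χ u₁ = 0 := by
    have := congrArg χ f
    simp only [map_add, map_sub, map_smul, smul_eq_mul, χX, χZ, χτ, map_zero] at this
    linear_combination this
  have hτ : (ψ u₀) • τ = 0 := by
    rwa [hS, zero_smul, zero_add] at f
  have hS' : (ψ u₀ + φ u₁ + 2 * ψ u₁ + 2 * χ u₁) • (Y - (2 : ℚ) • X) = 0 := by
    rw [hS, zero_smul]
  have h1 : u₁ = -(ψ u₀) • X + (-χ u₁) • ((2 : ℚ) • Y - (2 : ℚ) • X - Z) +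
      (ψ u₁ + 2 * χ u₁) • (Y - (2 : ℚ) • X) := by
    linear_combination (norm := module) (-1 : ℚ) • e3 + hτ
  have h0 : u₀ = (ψ u₀) • Y + (χ u₀) • (Z - τ) + (φ u₀) • (X - τ) := by
    linear_combination (norm := module) e2 - (2 : ℚ) • h1 - hS'
  exact ⟨hτ, _, _, _, _, h0, h1⟩

section Main

variable {k : Type*} [Field k] {F : Type*} [Field F] [Algebra k F] {t : k} {x y : F}

/-- a monomial in `x`, `x - t`, `y` is constant only if the exponents vanish -/
lemma M_const [CharZero k] (ht : t ≠ 0) (h : Gen t 0 x y) {a b c : ℤ} {d : k}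
    (hM : M t x y a b c = algebraMap k F d) : a = 0 ∧ b = 0 ∧ c = 0 := by
  have h1 : mo t a b c = cK d := by
    apply io_inj h
    rw [io_mo h, io_c, hM]
  have h2 := ld_mo (t := t) a b c
  rw [h1, ld_c, mul_zero] at h2
  rcases v_L ht (a : k) b c with ⟨ea, eb, ec⟩ | ⟨i, -, -, hi⟩
  · exact ⟨by exact_mod_cast ea, by exact_mod_cast eb, by exact_mod_cast ec⟩
  · exact absurd h2.symm (ne_of_v hi)

/-- the three units -/
noncomputable def XX (t : k) (x y : F) : Fin 3 → F := ![x, x - algebraMap k F t, y]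

/-- dual functionals -/
theorem dual [CharZero k] (ht : t ≠ 0) (h : Gen t 0 x y) :
    ∃ φ : Fin 3 → FT F →ₗ[ℚ] ℚ, (∀ i, ∀ w ∈ V0 k F, φ i w = 0) ∧
      ∀ i j, φ i (lg (XX t x y j)) = if i = j then 1 else 0 := by
  apply exists_dual
  apply indep_lg
  · intro i
    fin_cases i
    · exact h.x_ne
    · exact h.xc_ne t
    · exact h.y_ne
  · intro e c _ he
    rw [Fin.prod_univ_three] at he
    obtain ⟨h1, h2, h3⟩ := M_const ht h (a := e 0) (b := e 1) (c := e 2) he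
    funext i
    fin_cases i
    · exact h1
    · exact h2
    · exact h3

/-- functions supported on the multiples of `P` -/
def U (t : k) (x y f : F) : Prop :=
  ∃ (d : k) (a b c : ℤ), d ≠ 0 ∧ f = algebraMap k F d * M t x y a b c

/-- the span of the `{f} ⊗ u`, `f` and `1 - f` supported on the multiples of `P` -/
noncomputable def Cu (t : k) (x y : F) : Submodule ℚ (HK F) :=
  Submodule.span ℚ {z | ∃ (f : F) (u : FT F), U t x y f ∧ U t x y (1 - f) ∧ z = hk (sy f) u}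

/-- the class -/
noncomputable def xi (x y : F) (t : F) : HK F :=
  hk (sy (x / t)) (lg y) - hk (sy (y / x ^ 2)) (lg x)

lemma orb [CharZero k] (ht : t ≠ 0) (h : Gen t 0 x y) {f : F} (h1 : U t x y f)
    (h2 : U t x y (1 - f)) : (∃ c : k, f = algebraMap k F c) ∨ Orb (x / algebraMap k F t) f ∨
      Orb (y / x ^ 2) f := by
  obtain ⟨d, a, b, c, hd, rfl⟩ := h1
  obtain ⟨d', a', b', c', hd', h2⟩ := h2
  rcases unit_eq ht h hd hd' (a := a) (b := b) (c := c) (a' := a') (b' := b') (c' := c')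
    (by rw [← h2]; ring) with ⟨rfl, rfl, rfl⟩ | h3 | h3
  · left
    refine ⟨d, ?_⟩
    unfold M
    rw [zpow_zero, zpow_zero, zpow_zero, mul_one, mul_one, mul_one]
  · exact Or.inr (Or.inl h3)
  · exact Or.inr (Or.inr h3)

lemma decomp [CharZero k] (ht : t ≠ 0) (h : Gen t 0 x y) {z : HK F} (hz : z ∈ Cu t x y) :
    ∃ (u₀ u₁ : FT F) (κ : HK F), κ ∈ KC k F ∧
      z = hk (sy (x / algebraMap k F t)) u₀ + hk (sy (y / x ^ 2)) u₁ + κ := by
  have : CharZero F := charZero_of_injective_algebraMap (algebraMap k F).injective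
  have hx := h.x_ne
  have hy := h.y_ne
  have hx1 := h.xc_ne t
  have he := h.eq
  rw [map_zero] at he
  have hB : algebraMap k F t ≠ 0 := (_root_.map_ne_zero _).mpr ht
  have n0 : x / algebraMap k F t ≠ 1 := by
    intro h'
    rw [div_eq_one_iff_eq hB] at h'
    exact hx1 (by rw [h', sub_self])
  have n1 : y / x ^ 2 ≠ 1 := by
    intro h'
    rw [div_eq_one_iff_eq (pow_ne_zero 2 hx)] at h'
    apply hy
    have : y ^ 2 = 0 := by rw [h'] at he ⊢; linear_combination he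
    exact pow_eq_zero_iff (two_ne_zero) |>.mp this
  unfold Cu at hz
  induction hz using Submodule.span_induction with
  | mem z hz =>
    obtain ⟨f, u, h1, h2, rfl⟩ := hz
    rcases orb ht h h1 h2 with ⟨c, rfl⟩ | h3 | h3
    · exact ⟨0, 0, _, Submodule.subset_span ⟨c, u, rfl⟩, by
        rw [hk_zero_right, hk_zero_right, zero_add, zero_add]⟩
    · rcases sy_orb n0 h3 with h4 | h4
      · exact ⟨u, 0, 0, Submodule.zero_mem _, by rw [h4, hk_zero_right, add_zero, add_zero]⟩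
      · exact ⟨-u, 0, 0, Submodule.zero_mem _, by
          rw [h4, hk_zero_right, add_zero, add_zero, hk_neg_left, hk_neg_right]⟩
    · rcases sy_orb n1 h3 with h4 | h4
      · exact ⟨0, u, 0, Submodule.zero_mem _, by rw [h4, hk_zero_right, zero_add, add_zero]⟩
      · exact ⟨0, -u, 0, Submodule.zero_mem _, by
          rw [h4, hk_zero_right, zero_add, add_zero, hk_neg_left, hk_neg_right]⟩
  | zero => exact ⟨0, 0, 0, Submodule.zero_mem _, by
      rw [hk_zero_right, hk_zero_right, zero_add, zero_add]⟩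
  | add a b _ _ ha hb =>
    obtain ⟨u₀, u₁, κ, hκ, rfl⟩ := ha
    obtain ⟨v₀, v₁, μ, hμ, rfl⟩ := hb
    refine ⟨u₀ + v₀, u₁ + v₁, κ + μ, Submodule.add_mem _ hκ hμ, ?_⟩
    rw [hk_add_right, hk_add_right]
    abel
  | smul q a _ ha =>
    obtain ⟨u₀, u₁, κ, hκ, rfl⟩ := ha
    refine ⟨q • u₀, q • u₁, q • κ, Submodule.smul_mem _ _ hκ, ?_⟩
    rw [hk_smul_right, hk_smul_right, smul_add, smul_add]

/-- **closed elements for a point of order four** -/
theorem closed [CharZero k] (ht : t ≠ 0) (h : Gen t 0 x y) {z : HK F} (hz : z ∈ Cu t x y)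
    (hc : Closed z) : ∃ β : ℚ, z - β • xi x y (algebraMap k F t) ∈ KC k F ∧
      (β = 0 ∨ ∃ n : ℕ, 0 < n ∧ t ^ n = 1) := by
  have : CharZero F := charZero_of_injective_algebraMap (algebraMap k F).injective
  have hx := h.x_ne
  have hy := h.y_ne
  have hx1 := h.xc_ne t
  have he := h.eq
  rw [map_zero] at he
  have hB : algebraMap k F t ≠ 0 := (_root_.map_ne_zero _).mpr ht
  obtain ⟨u₀, u₁, κ, hκ, rfl⟩ := decomp ht h hz
  obtain ⟨φ, hφ, hd⟩ := dual ht h
  rw [closed_dE, map_add, map_add, dE_sy, dE_sy] at hc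
  have hxt : 1 - x / algebraMap k F t = -(x - algebraMap k F t) / algebraMap k F t := by
    field_simp; ring
  have e1 : x ^ 2 - y = y ^ 2 / (x - algebraMap k F t) := by
    rw [eq_div_iff hx1]; linear_combination -he
  have hyx : 1 - y / x ^ 2 = y ^ 2 / (x - algebraMap k F t) / x ^ 2 := by
    rw [← e1]; field_simp
  have l0 : lg (1 - x / algebraMap k F t) = lg (x - algebraMap k F t) - lg (algebraMap k F t) := by
    rw [hxt, lgdiv (neg_ne_zero.mpr hx1) hB, lgneg]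
  have l0' : lg (x / algebraMap k F t) = lg x - lg (algebraMap k F t) := lgdiv hx hB
  have l1 : lg (1 - y / x ^ 2) =
      (2 : ℚ) • lg y - (2 : ℚ) • lg x - lg (x - algebraMap k F t) := by
    rw [hyx, lgdiv (div_ne_zero (pow_ne_zero 2 hy) hx1) (pow_ne_zero 2 hx),
      lgdiv (pow_ne_zero 2 hy) hx1, lgpow hy, lgpow hx]
    push_cast
    abel
  have l1' : lg (y / x ^ 2) = lg y - (2 : ℚ) • lg x := by
    rw [lgdiv hy (pow_ne_zero 2 hx), lgpow hx]
    push_cast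
    rfl
  have n0 : x / algebraMap k F t ≠ 1 := by
    intro h'
    rw [div_eq_one_iff_eq hB] at h'
    exact hx1 (by rw [h', sub_self])
  have n1 : y / x ^ 2 ≠ 1 := by
    intro h'
    rw [div_eq_one_iff_eq (pow_ne_zero 2 hx)] at h'
    apply hy
    have : y ^ 2 = 0 := by rw [h'] at he ⊢; linear_combination he
    exact pow_eq_zero_iff (two_ne_zero) |>.mp this
  have r0 : hk (sy (x / algebraMap k F t)) (lg (x - algebraMap k F t) - lg (algebraMap k F t)) = 0 := by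
    rw [← l0]; exact hk_compl (div_ne_zero hx hB) n0
  have r0' : hk (sy (x / algebraMap k F t)) (lg x - lg (algebraMap k F t)) = 0 := by
    rw [← l0']; exact hk_self (div_ne_zero hx hB) n0
  have r1 : hk (sy (y / x ^ 2))
      ((2 : ℚ) • lg y - (2 : ℚ) • lg x - lg (x - algebraMap k F t)) = 0 := by
    rw [← l1]; exact hk_compl (div_ne_zero hy (pow_ne_zero 2 hx)) n1
  have r1' : hk (sy (y / x ^ 2)) (lg y - (2 : ℚ) • lg x) = 0 := by
    rw [← l1']; exact hk_self (div_ne_zero hy (pow_ne_zero 2 hx)) n1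
  rw [l0, l0', l1, l1'] at hc
  have d00 := hd 0 0
  have d01 := hd 0 1
  have d02 := hd 0 2
  have d10 := hd 1 0
  have d11 := hd 1 1
  have d12 := hd 1 2
  have d20 := hd 2 0
  have d21 := hd 2 1
  have d22 := hd 2 2
  have X0 : XX t x y 0 = x := rfl
  have X1 : XX t x y 1 = x - algebraMap k F t := rfl
  have X2 : XX t x y 2 = y := rfl
  rw [X0] at d00 d10 d20
  rw [X1] at d01 d11 d21
  rw [X2] at d02 d12 d22
  norm_num at d00 d01 d02 d10 d11 d12 d20 d21 d22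
  obtain ⟨hτ, p, q, r, s, hu0, hu1⟩ := alg (φ := φ 0) (ψ := φ 2) (χ := φ 1) d00 d02 d01
    (hφ 0 _ (lg_mem_V0 t)) d20 d22 d21 (hφ 2 _ (lg_mem_V0 t)) d10 d12 d11 (hφ 1 _ (lg_mem_V0 t))
    (ct_KC (hφ 0) (hφ 2) hκ) (ct_KC (hφ 1) (hφ 0) hκ) (ct_KC (hφ 1) (hφ 2) hκ) hc
  refine ⟨φ 2 u₀, ?_, ?_⟩
  · have e0 : hk (sy (x / algebraMap k F t)) u₀ = (φ 2 u₀) • hk (sy (x / algebraMap k F t)) (lg y) := by
      conv_lhs => rw [hu0]
      rw [hk_add_right, hk_add_right, hk_smul_right, hk_smul_right, hk_smul_right, r0, r0',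
        smul_zero, smul_zero, add_zero, add_zero]
    have e1 : hk (sy (y / x ^ 2)) u₁ = -(φ 2 u₀) • hk (sy (y / x ^ 2)) (lg x) := by
      conv_lhs => rw [hu1]
      rw [hk_add_right, hk_add_right, hk_smul_right, hk_smul_right, hk_smul_right, r1, r1',
        smul_zero, smul_zero, add_zero, add_zero]
    rw [e0, e1]
    unfold xi
    have : (φ 2) u₀ • hk (sy (x / algebraMap k F t)) (lg y) +
        -(φ 2) u₀ • hk (sy (y / x ^ 2)) (lg x) + κ - (φ 2) u₀ •
        (hk (sy (x / algebraMap k F t)) (lg y) - hk (sy (y / x ^ 2)) (lg x)) = κ := by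
      module
    rw [this]
    exact hκ
  · rcases smul_eq_zero.mp hτ with h1 | h1
    · exact Or.inl h1
    · right
      obtain ⟨n, hn, h2⟩ := pow_eq_one_of_lg hB h1
      refine ⟨n, hn, ?_⟩
      apply (algebraMap k F).injective
      rw [map_pow, h2, map_one]

end Main

end N4

end Pool.Agent.TN
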