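import Pool.Agent.Lib_helper24.TN.N5E

/-!
# The closed elements for a point of order five and the parameters `1` and `-1`
-/

set_option autoImplicit false
set_option linter.unusedSectionVars false
set_option linter.unusedVariables false

open scoped TensorProduct

namespace Pool.Agent.TN.N5

open MK4

variable {k : Type*} [Field k] {F : Type*} [Field F] [Algebra k F] {t : k} {x y : F}

lemma prod_v (ht : t ≠ 0) (h : Gen t t x y) :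
    v t x y 0 * v t x y 1 * v t x y 2 * v t x y 3 * v t x y 4 = - algebraMap k F t := by
  have hx := h.x_ne
  have hx1 := h.xc_ne t
  have hy := h.y_ne
  have hw := Gen.w_ne h
  have hB : algebraMap k F t ≠ 0 := (_root_.map_ne_zero _).mpr ht
  show algebraMap k F t / x * (y * (x - algebraMap k F t) / (x * (y - algebraMap k F t * x))) *
      (-y / (x - algebraMap k F t)) * (x ^ 2 / y) * ((y - algebraMap k F t * x) / y) = _
  field_simp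

/-- **closed elements** at `t = 1` -/
theorem closedP [CharZero k] (ht : t = 1) (h : Gen t t x y) (u w : Fin 5 → FT F) {κ : HK F}
    (hκ : κ ∈ KC k F) (hc : Closed (∑ j, hk (sy (v t x y j)) (u j) +
      ∑ j, hk (sy (sP (v t x y) j)) (w j) + κ)) :
    ∃ b1 : ℚ, ∑ j, hk (sy (v t x y j)) (u j) + ∑ j, hk (sy (sP (v t x y) j)) (w j) =
      b1 • Z1 t x y := by
  have : CharZero F := charZero_of_injective_algebraMap (algebraMap k F).injective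
  have ht0 : t ≠ 0 := by rw [ht]; norm_num
  obtain ⟨φ, hφ, hd⟩ := dual ht0 h
  have hτ : lg (algebraMap k F t) = 0 := by
    rw [ht, map_one, lg1]
  have hy4 : yv t x y 4 = - yv t x y 0 - yv t x y 1 - yv t x y 2 - yv t x y 3 := by
    rw [sum_yv ht0 h, hτ]; abel
  have pr : v t x y 0 * v t x y 1 * v t x y 2 * v t x y 3 * v t x y 4 = -1 := by
    rw [prod_v ht0 h, ht]; simp
  have n := v_ne ht0 h
  have p := v_penta ht0 h
  have R := relP n p pr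
  have hs := sum_sy ht0 h
  have RS := rs ht0 h
  set T := fun j => sy (v t x y j) with hT
  set s := fun j => sy (sP (v t x y) j) with hs'
  have R0 : s 0 = s 2 + T 0 - T 1 + T 2 := R 0
  have R2 : s 2 = s 4 + T 2 - T 3 + T 4 := R 2
  have R4 : s 4 = s 1 + T 4 - T 0 + T 1 := R 4
  have R1 : s 1 = s 3 + T 1 - T 2 + T 3 := R 1
  have e2 : s 2 = s 0 - T 0 + T 1 - T 2 := by rw [R0]; abel
  have e4 : s 4 = s 0 - T 0 + T 1 - (2 : ℚ) • T 2 + T 3 - T 4 := by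
    linear_combination (norm := module) e2 - R2
  have e1 : s 1 = s 0 - (2 : ℚ) • T 2 + T 3 - (2 : ℚ) • T 4 := by
    linear_combination (norm := module) e4 - R4
  have e3 : s 3 = s 0 - T 1 - T 2 - (2 : ℚ) • T 4 := by
    linear_combination (norm := module) e1 - R1
  obtain ⟨U0, hU0⟩ : ∃ U : FT F, U = u 0 + (-1 : ℚ) • w 2 + (-1 : ℚ) • w 4 := ⟨_, rfl⟩
  obtain ⟨U1, hU1⟩ : ∃ U : FT F, U = u 1 + (1 : ℚ) • w 2 + (-1 : ℚ) • w 3 + (1 : ℚ) • w 4 := ⟨_, rfl⟩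
  obtain ⟨U2, hU2⟩ : ∃ U : FT F, U = u 2 + (-2 : ℚ) • w 1 + (-1 : ℚ) • w 2 + (-1 : ℚ) • w 3 + (-2 : ℚ) • w 4 := ⟨_, rfl⟩
  obtain ⟨U3, hU3⟩ : ∃ U : FT F, U = u 3 + (1 : ℚ) • w 1 + (1 : ℚ) • w 4 := ⟨_, rfl⟩
  obtain ⟨U4, hU4⟩ : ∃ U : FT F, U = u 4 + (-2 : ℚ) • w 1 + (-2 : ℚ) • w 3 + (-1 : ℚ) • w 4 := ⟨_, rfl⟩
  obtain ⟨W, hW⟩ : ∃ W : FT F, W = w 0 + w 1 + w 2 + w 3 + w 4 := ⟨_, rfl⟩
  have hz : ∑ j, hk (T j) (u j) + ∑ j, hk (s j) (w j) =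
      hk (T 0) (U0 - U4) + hk (T 1) (U1 - U4) + hk (T 2) (U2 - U4) + hk (T 3) (U3 - U4) +
      hk (s 0) W := by
    rw [Fin.sum_univ_five, Fin.sum_univ_five, e1, e2, e3, e4]
    have h4 := RS U4
    rw [hU4] at h4
    rw [hU0, hU1, hU2, hU3, hU4, hW]
    simp only [sub_eq_add_neg, hk_add_left, hk_neg_left, hk_smul_left, hk_add_right, hk_smul_right, hk_neg_right] at h4 ⊢
    linear_combination (norm := module) h4
  rw [hz] at hc ⊢
  rw [closed_dE, map_add, map_add, map_add, map_add, map_add] at hc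
  simp only [hT, hs'] at hc
  rw [dE_sy, dE_sy, dE_sy, dE_sy, dE_sy] at hc
  have l0 : lg (1 - v t x y 0) = ((-1) : ℚ) • yv t x y 0 + ((-1) : ℚ) • yv t x y 2 + ((-1) : ℚ) • yv t x y 3 := by
    rw [lg_one_sub ht0 h]
    show yv t x y 4 + yv t x y 1 = _
    rw [hy4]
    module
  have l1 : lg (1 - v t x y 1) = (1 : ℚ) • yv t x y 0 + (1 : ℚ) • yv t x y 2 := by
    rw [lg_one_sub ht0 h]
    show yv t x y 0 + yv t x y 2 = _
    module
  have l2 : lg (1 - v t x y 2) = (1 : ℚ) • yv t x y 1 + (1 : ℚ) • yv t x y 3 := by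
    rw [lg_one_sub ht0 h]
    show yv t x y 1 + yv t x y 3 = _
    module
  have l3 : lg (1 - v t x y 3) = ((-1) : ℚ) • yv t x y 0 + ((-1) : ℚ) • yv t x y 1 + ((-1) : ℚ) • yv t x y 3 := by
    rw [lg_one_sub ht0 h]
    show yv t x y 2 + yv t x y 4 = _
    rw [hy4]
    module
  have l4 : lg (1 - sP (v t x y) 0) = ((-2) : ℚ) • yv t x y 0 + ((-1) : ℚ) • yv t x y 2 := lgcP n p pr 0
  have l4' : lg (sP (v t x y) 0) = ((-2) : ℚ) • yv t x y 0 + ((-1) : ℚ) • yv t x y 3 := lgP n p pr 0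
  have m : ∀ j : Fin 5, lg (v t x y j) = (1 : ℚ) • yv t x y j := by
    intro j; rw [one_smul]; rfl
  rw [l0, l1, l2, l3, l4, l4', m 0, m 1, m 2, m 3] at hc
  have d : ∀ i j : Fin 4, φ i (yv t x y (Fin.castSucc j)) = if i = j then 1 else 0 := hd
  have d00 : φ 0 (yv t x y 0) = 1 := d 0 0
  have d01 : φ 0 (yv t x y 1) = 0 := d 0 1
  have d02 : φ 0 (yv t x y 2) = 0 := d 0 2
  have d03 : φ 0 (yv t x y 3) = 0 := d 0 3
  have d10 : φ 1 (yv t x y 0) = 0 := d 1 0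
  have d11 : φ 1 (yv t x y 1) = 1 := d 1 1
  have d12 : φ 1 (yv t x y 2) = 0 := d 1 2
  have d13 : φ 1 (yv t x y 3) = 0 := d 1 3
  have d20 : φ 2 (yv t x y 0) = 0 := d 2 0
  have d21 : φ 2 (yv t x y 1) = 0 := d 2 1
  have d22 : φ 2 (yv t x y 2) = 1 := d 2 2
  have d23 : φ 2 (yv t x y 3) = 0 := d 2 3
  have d30 : φ 3 (yv t x y 0) = 0 := d 3 0
  have d31 : φ 3 (yv t x y 1) = 0 := d 3 1
  have d32 : φ 3 (yv t x y 2) = 0 := d 3 2
  have d33 : φ 3 (yv t x y 3) = 1 := d 3 3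
  have wz : ∀ i j, ct (φ i) (φ j) (dE F κ) = 0 := fun i j => ct_KC (hφ i) (hφ j) hκ
  obtain ⟨b1, p0, p1, p2, p3, q0, q1, q2, q3, p4, q4, a0, c0, a1, c1, a2, hu0, hu1, hu2, hu3, hu4⟩ :=
    alg5p (φ0 := φ 0) (φ1 := φ 1) (φ2 := φ 2) (φ3 := φ 3) d00 d01 d02 d03 d10 d11 d12 d13
      d20 d21 d22 d23 d30 d31 d32 d33 (wz 0 1) (wz 0 2) (wz 0 3) (wz 1 2) (wz 1 3)
      (wz 2 3) hc
  rw [← hy4] at hu0 hu1 hu2 hu3 hu4
  refine ⟨b1, ?_⟩
  rw [hu0, hu1, hu2, hu3, hu4]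
  unfold Z1
  rw [Fin.sum_univ_five]
  have A0 := r1 ht0 h 0
  have A1 := r1 ht0 h 1
  have A2 := r1 ht0 h 2
  have A3 := r1 ht0 h 3
  have A4 := r1 ht0 h 4
  have C0 : hk (T 0) (yv t x y 4) + hk (T 0) (yv t x y 1) = 0 := r2 ht0 h 0
  have C1 : hk (T 1) (yv t x y 0) + hk (T 1) (yv t x y 2) = 0 := r2 ht0 h 1
  have C2 : hk (T 2) (yv t x y 1) + hk (T 2) (yv t x y 3) = 0 := r2 ht0 h 2
  have C3 : hk (T 3) (yv t x y 2) + hk (T 3) (yv t x y 4) = 0 := r2 ht0 h 3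
  have C4 : hk (T 4) (yv t x y 3) + hk (T 4) (yv t x y 0) = 0 := r2 ht0 h 4
  have D0 := hk_self (neP n p pr 0).1 (neP n p pr 0).2
  have E0 := hk_compl (neP n p pr 0).1 (neP n p pr 0).2
  have D1 := hk_self (neP n p pr 1).1 (neP n p pr 1).2
  have E1 := hk_compl (neP n p pr 1).1 (neP n p pr 1).2
  have D2 := hk_self (neP n p pr 2).1 (neP n p pr 2).2
  rw [lgP n p pr] at D0 D1 D2
  rw [lgcP n p pr] at E0 E1
  change hk (s 1) _ = 0 at D1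
  change hk (s 1) _ = 0 at E1
  change hk (s 2) _ = 0 at D2
  change hk (s 0) _ = 0 at D0
  change hk (s 0) _ = 0 at E0
  have f1 : s 1 = s 0 + (2 : ℚ) • T 0 + (2 : ℚ) • T 1 + (3 : ℚ) • T 3 := by
    linear_combination (norm := module) e1 - (2 : ℚ) • hs
  have f2 : s 2 = s 0 + (-1 : ℚ) • T 0 + (1 : ℚ) • T 1 + (-1 : ℚ) • T 2 := by
    linear_combination (norm := module) e2 
  rw [f1] at D1 E1
  rw [f2] at D2
  change hk _ ((-2 : ℚ) • yv t x y 0 + (-1 : ℚ) • yv t x y 3) = 0 at D0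
  change hk _ ((-2 : ℚ) • yv t x y 0 + (-1 : ℚ) • yv t x y 2) = 0 at E0
  change hk _ ((-2 : ℚ) • yv t x y 1 + (-1 : ℚ) • yv t x y 4) = 0 at D1
  change hk _ ((-2 : ℚ) • yv t x y 1 + (-1 : ℚ) • yv t x y 3) = 0 at E1
  change hk _ ((-2 : ℚ) • yv t x y 2 + (-1 : ℚ) • yv t x y 0) = 0 at D2
  change _ = b1 • (hk (T 0) (yv t x y 1) + hk (T 1) (yv t x y 2) + hk (T 2) (yv t x y 3) +
    hk (T 3) (yv t x y 4) + hk (T 4) (yv t x y 0))
  change hk (T 0) (yv t x y 0) = 0 at A0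
  change hk (T 1) (yv t x y 1) = 0 at A1
  change hk (T 2) (yv t x y 2) = 0 at A2
  change hk (T 3) (yv t x y 3) = 0 at A3
  change hk (T 4) (yv t x y 4) = 0 at A4
  have S0 : hk (T 0) (yv t x y 0) + hk (T 1) (yv t x y 0) + hk (T 2) (yv t x y 0) +
    hk (T 3) (yv t x y 0) + hk (T 4) (yv t x y 0) = 0 := RS (yv t x y 0)
  have S3 : hk (T 0) (yv t x y 3) + hk (T 1) (yv t x y 3) + hk (T 2) (yv t x y 3) +
    hk (T 3) (yv t x y 3) + hk (T 4) (yv t x y 3) = 0 := RS (yv t x y 3)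
  have S4 : hk (T 0) (yv t x y 4) + hk (T 1) (yv t x y 4) + hk (T 2) (yv t x y 4) +
    hk (T 3) (yv t x y 4) + hk (T 4) (yv t x y 4) = 0 := RS (yv t x y 4)
  simp only [hk_add_left, hk_neg_left, hk_smul_left, hk_add_right, hk_smul_right, hk_sub_right, hk_neg_right] at D0 E0 D1 E1 D2 ⊢
  linear_combination (norm := module) p0 • A0 + p1 • A1 + p2 • A2 + p3 • A3 + p4 • A4 +
    q0 • C0 + q1 • C1 + q2 • C2 + q3 • C3 + q4 • C4 - p4 • S4 - q4 • S0 - q4 • S3 - b1 • S0 +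
    a0 • D0 + c0 • E0 + a1 • D1 + c1 • E1 + a2 • D2

/-- **closed elements** at `t = -1` -/
theorem closedM [CharZero k] (ht : t = -1) (h : Gen t t x y) (u w : Fin 5 → FT F) {κ : HK F}
    (hκ : κ ∈ KC k F) (hc : Closed (∑ j, hk (sy (v t x y j)) (u j) +
      ∑ j, hk (sy (sM (v t x y) j)) (w j) + κ)) :
    ∃ b1 : ℚ, ∑ j, hk (sy (v t x y j)) (u j) + ∑ j, hk (sy (sM (v t x y) j)) (w j) =
      b1 • Z1 t x y := by
  have : CharZero F := charZero_of_injective_algebraMap (algebraMap k F).injective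
  have ht0 : t ≠ 0 := by rw [ht]; norm_num
  obtain ⟨φ, hφ, hd⟩ := dual ht0 h
  have hτ : lg (algebraMap k F t) = 0 := by
    rw [ht, map_neg, map_one, lgneg, lg1]
  have hy4 : yv t x y 4 = - yv t x y 0 - yv t x y 1 - yv t x y 2 - yv t x y 3 := by
    rw [sum_yv ht0 h, hτ]; abel
  have pr : v t x y 0 * v t x y 1 * v t x y 2 * v t x y 3 * v t x y 4 = 1 := by
    rw [prod_v ht0 h, ht]; simp
  have n := v_ne ht0 h
  have p := v_penta ht0 h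
  have R := relM n p pr
  have hs := sum_sy ht0 h
  have RS := rs ht0 h
  set T := fun j => sy (v t x y j) with hT
  set s := fun j => sy (sM (v t x y) j) with hs'
  have R0 : s 0 = s 1 + T 0 + T 1 - T 3 := R 0
  have R1 : s 1 = s 2 + T 1 + T 2 - T 4 := R 1
  have R2 : s 2 = s 3 + T 2 + T 3 - T 0 := R 2
  have R3 : s 3 = s 4 + T 3 + T 4 - T 1 := R 3
  have e1 : s 1 = s 0 - T 0 - T 1 + T 3 := by rw [R0]; abel
  have e2 : s 2 = s 0 - T 0 - (2 : ℚ) • T 1 - T 2 + T 3 + T 4 := by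
    linear_combination (norm := module) e1 - R1
  have e3 : s 3 = s 0 - (2 : ℚ) • T 1 - (2 : ℚ) • T 2 + T 4 := by
    linear_combination (norm := module) e2 - R2
  have e4 : s 4 = s 0 - T 1 - (2 : ℚ) • T 2 - T 3 := by
    linear_combination (norm := module) e3 - R3
  obtain ⟨U0, hU0⟩ : ∃ U : FT F, U = u 0 + (-1 : ℚ) • w 1 + (-1 : ℚ) • w 2 := ⟨_, rfl⟩
  obtain ⟨U1, hU1⟩ : ∃ U : FT F, U = u 1 + (-1 : ℚ) • w 1 + (-2 : ℚ) • w 2 + (-2 : ℚ) • w 3 + (-1 : ℚ) • w 4 := ⟨_, rfl⟩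
  obtain ⟨U2, hU2⟩ : ∃ U : FT F, U = u 2 + (-1 : ℚ) • w 2 + (-2 : ℚ) • w 3 + (-2 : ℚ) • w 4 := ⟨_, rfl⟩
  obtain ⟨U3, hU3⟩ : ∃ U : FT F, U = u 3 + (1 : ℚ) • w 1 + (1 : ℚ) • w 2 + (-1 : ℚ) • w 4 := ⟨_, rfl⟩
  obtain ⟨U4, hU4⟩ : ∃ U : FT F, U = u 4 + (1 : ℚ) • w 2 + (1 : ℚ) • w 3 := ⟨_, rfl⟩
  obtain ⟨W, hW⟩ : ∃ W : FT F, W = w 0 + w 1 + w 2 + w 3 + w 4 := ⟨_, rfl⟩
  have hz : ∑ j, hk (T j) (u j) + ∑ j, hk (s j) (w j) =
      hk (T 0) (U0 - U4) + hk (T 1) (U1 - U4) + hk (T 2) (U2 - U4) + hk (T 3) (U3 - U4) +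
      hk (s 0) W := by
    rw [Fin.sum_univ_five, Fin.sum_univ_five, e1, e2, e3, e4]
    have h4 := RS U4
    rw [hU4] at h4
    rw [hU0, hU1, hU2, hU3, hU4, hW]
    simp only [sub_eq_add_neg, hk_add_left, hk_neg_left, hk_smul_left, hk_add_right, hk_smul_right, hk_neg_right] at h4 ⊢
    linear_combination (norm := module) h4
  rw [hz] at hc ⊢
  rw [closed_dE, map_add, map_add, map_add, map_add, map_add] at hc
  simp only [hT, hs'] at hc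
  rw [dE_sy, dE_sy, dE_sy, dE_sy, dE_sy] at hc
  have l0 : lg (1 - v t x y 0) = ((-1) : ℚ) • yv t x y 0 + ((-1) : ℚ) • yv t x y 2 + ((-1) : ℚ) • yv t x y 3 := by
    rw [lg_one_sub ht0 h]
    show yv t x y 4 + yv t x y 1 = _
    rw [hy4]
    module
  have l1 : lg (1 - v t x y 1) = (1 : ℚ) • yv t x y 0 + (1 : ℚ) • yv t x y 2 := by
    rw [lg_one_sub ht0 h]
    show yv t x y 0 + yv t x y 2 = _
    module
  have l2 : lg (1 - v t x y 2) = (1 : ℚ) • yv t x y 1 + (1 : ℚ) • yv t x y 3 := by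
    rw [lg_one_sub ht0 h]
    show yv t x y 1 + yv t x y 3 = _
    module
  have l3 : lg (1 - v t x y 3) = ((-1) : ℚ) • yv t x y 0 + ((-1) : ℚ) • yv t x y 1 + ((-1) : ℚ) • yv t x y 3 := by
    rw [lg_one_sub ht0 h]
    show yv t x y 2 + yv t x y 4 = _
    rw [hy4]
    module
  have l4 : lg (1 - sM (v t x y) 0) = ((-2) : ℚ) • yv t x y 0 + (1 : ℚ) • yv t x y 1 + ((-1) : ℚ) • yv t x y 2 := lgcM n p pr 0
  have l4' : lg (sM (v t x y) 0) = ((-3) : ℚ) • yv t x y 0 + ((-1) : ℚ) • yv t x y 1 + ((-1) : ℚ) • yv t x y 2 + ((-2) : ℚ) • yv t x y 3 := by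
    have := lgM n p pr 0
    have h4 : lg (v t x y (0 + 4)) = yv t x y 4 := rfl
    have h3 : lg (v t x y (0 + 3)) = yv t x y 3 := rfl
    have h0 : lg (v t x y 0) = yv t x y 0 := rfl
    rw [h4, h3, h0, hy4] at this
    rw [this]
    module
  have m : ∀ j : Fin 5, lg (v t x y j) = (1 : ℚ) • yv t x y j := by
    intro j; rw [one_smul]; rfl
  rw [l0, l1, l2, l3, l4, l4', m 0, m 1, m 2, m 3] at hc
  have d : ∀ i j : Fin 4, φ i (yv t x y (Fin.castSucc j)) = if i = j then 1 else 0 := hd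
  have d00 : φ 0 (yv t x y 0) = 1 := d 0 0
  have d01 : φ 0 (yv t x y 1) = 0 := d 0 1
  have d02 : φ 0 (yv t x y 2) = 0 := d 0 2
  have d03 : φ 0 (yv t x y 3) = 0 := d 0 3
  have d10 : φ 1 (yv t x y 0) = 0 := d 1 0
  have d11 : φ 1 (yv t x y 1) = 1 := d 1 1
  have d12 : φ 1 (yv t x y 2) = 0 := d 1 2
  have d13 : φ 1 (yv t x y 3) = 0 := d 1 3
  have d20 : φ 2 (yv t x y 0) = 0 := d 2 0
  have d21 : φ 2 (yv t x y 1) = 0 := d 2 1
  have d22 : φ 2 (yv t x y 2) = 1 := d 2 2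
  have d23 : φ 2 (yv t x y 3) = 0 := d 2 3
  have d30 : φ 3 (yv t x y 0) = 0 := d 3 0
  have d31 : φ 3 (yv t x y 1) = 0 := d 3 1
  have d32 : φ 3 (yv t x y 2) = 0 := d 3 2
  have d33 : φ 3 (yv t x y 3) = 1 := d 3 3
  have wz : ∀ i j, ct (φ i) (φ j) (dE F κ) = 0 := fun i j => ct_KC (hφ i) (hφ j) hκ
  obtain ⟨b1, p0, p1, p2, p3, q0, q1, q2, q3, p4, q4, a0, c0, a1, c1, a2, hu0, hu1, hu2, hu3, hu4⟩ :=
    alg5m (φ0 := φ 0) (φ1 := φ 1) (φ2 := φ 2) (φ3 := φ 3) d00 d01 d02 d03 d10 d11 d12 d13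
      d20 d21 d22 d23 d30 d31 d32 d33 (wz 0 1) (wz 0 2) (wz 0 3) (wz 1 2) (wz 1 3)
      (wz 2 3) hc
  rw [← hy4] at hu0 hu1 hu2 hu3 hu4
  refine ⟨b1, ?_⟩
  rw [hu0, hu1, hu2, hu3, hu4]
  unfold Z1
  rw [Fin.sum_univ_five]
  have A0 := r1 ht0 h 0
  have A1 := r1 ht0 h 1
  have A2 := r1 ht0 h 2
  have A3 := r1 ht0 h 3
  have A4 := r1 ht0 h 4
  have C0 : hk (T 0) (yv t x y 4) + hk (T 0) (yv t x y 1) = 0 := r2 ht0 h 0
  have C1 : hk (T 1) (yv t x y 0) + hk (T 1) (yv t x y 2) = 0 := r2 ht0 h 1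
  have C2 : hk (T 2) (yv t x y 1) + hk (T 2) (yv t x y 3) = 0 := r2 ht0 h 2
  have C3 : hk (T 3) (yv t x y 2) + hk (T 3) (yv t x y 4) = 0 := r2 ht0 h 3
  have C4 : hk (T 4) (yv t x y 3) + hk (T 4) (yv t x y 0) = 0 := r2 ht0 h 4
  have D0 := hk_self (neM n p pr 0).1 (neM n p pr 0).2
  have E0 := hk_compl (neM n p pr 0).1 (neM n p pr 0).2
  have D1 := hk_self (neM n p pr 1).1 (neM n p pr 1).2
  have E1 := hk_compl (neM n p pr 1).1 (neM n p pr 1).2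
  have D2 := hk_self (neM n p pr 2).1 (neM n p pr 2).2
  rw [lgM n p pr] at D0 D1 D2
  rw [lgcM n p pr] at E0 E1
  change hk (s 1) _ = 0 at D1
  change hk (s 1) _ = 0 at E1
  change hk (s 2) _ = 0 at D2
  change hk (s 0) _ = 0 at D0
  change hk (s 0) _ = 0 at E0
  have f1 : s 1 = s 0 + (-1 : ℚ) • T 0 + (-1 : ℚ) • T 1 + (1 : ℚ) • T 3 := by
    linear_combination (norm := module) e1 
  have f2 : s 2 = s 0 + (-2 : ℚ) • T 0 + (-3 : ℚ) • T 1 + (-2 : ℚ) • T 2 := by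
    linear_combination (norm := module) e2 + hs
  rw [f1] at D1 E1
  rw [f2] at D2
  change hk _ ((-2 : ℚ) • yv t x y 0 + (-1 : ℚ) • yv t x y 3 + (1 : ℚ) • yv t x y 4) = 0 at D0
  change hk _ ((-2 : ℚ) • yv t x y 0 + (1 : ℚ) • yv t x y 1 + (-1 : ℚ) • yv t x y 2) = 0 at E0
  change hk _ ((-2 : ℚ) • yv t x y 1 + (-1 : ℚ) • yv t x y 4 + (1 : ℚ) • yv t x y 0) = 0 at D1
  change hk _ ((-2 : ℚ) • yv t x y 1 + (1 : ℚ) • yv t x y 2 + (-1 : ℚ) • yv t x y 3) = 0 at E1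
  change hk _ ((-2 : ℚ) • yv t x y 2 + (-1 : ℚ) • yv t x y 0 + (1 : ℚ) • yv t x y 1) = 0 at D2
  change _ = b1 • (hk (T 0) (yv t x y 1) + hk (T 1) (yv t x y 2) + hk (T 2) (yv t x y 3) +
    hk (T 3) (yv t x y 4) + hk (T 4) (yv t x y 0))
  change hk (T 0) (yv t x y 0) = 0 at A0
  change hk (T 1) (yv t x y 1) = 0 at A1
  change hk (T 2) (yv t x y 2) = 0 at A2
  change hk (T 3) (yv t x y 3) = 0 at A3
  change hk (T 4) (yv t x y 4) = 0 at A4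
  have S0 : hk (T 0) (yv t x y 0) + hk (T 1) (yv t x y 0) + hk (T 2) (yv t x y 0) +
    hk (T 3) (yv t x y 0) + hk (T 4) (yv t x y 0) = 0 := RS (yv t x y 0)
  have S3 : hk (T 0) (yv t x y 3) + hk (T 1) (yv t x y 3) + hk (T 2) (yv t x y 3) +
    hk (T 3) (yv t x y 3) + hk (T 4) (yv t x y 3) = 0 := RS (yv t x y 3)
  have S4 : hk (T 0) (yv t x y 4) + hk (T 1) (yv t x y 4) + hk (T 2) (yv t x y 4) +
    hk (T 3) (yv t x y 4) + hk (T 4) (yv t x y 4) = 0 := RS (yv t x y 4)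
  simp only [hk_add_left, hk_neg_left, hk_smul_left, hk_add_right, hk_smul_right, hk_sub_right, hk_neg_right] at D0 E0 D1 E1 D2 ⊢
  linear_combination (norm := module) p0 • A0 + p1 • A1 + p2 • A2 + p3 • A3 + p4 • A4 +
    q0 • C0 + q1 • C1 + q2 • C2 + q3 • C3 + q4 • C4 - p4 • S4 - q4 • S0 - q4 • S3 - b1 • S0 +
    a0 • D0 + c0 • E0 + a1 • D1 + c1 • E1 + a2 • D2

end Pool.Agent.TN.N5
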