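import Pool.Agent.Lib_helper24.TN.D

/-!
# The unit equation for a point of order four
-/

set_option autoImplicit false
set_option linter.unusedSectionVars false

namespace Pool.Agent.TN.N4

open Polynomial WeierstrassCurve.Affine WithZero

section K

variable {k : Type*} [Field k] {t : k}

/-- monomials in `x`, `x - t`, `y` -/
noncomputable def mo (t : k) (a b c : ℤ) : K (Wt t 0) := xK ^ a * (xK - cK t) ^ b * yK ^ c

/-- `x (x - t) f'/f` for a monomial `f` -/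
noncomputable def L (t : k) (a b c : k) : K (Wt t 0) :=
  N7 (t ^ 2 * (a + 2 * c)) (-t * (2 * a + b + 4 * c)) (-2 * t * (a + c)) (a + b + 2 * c)
    (2 * a + 2 * b + 3 * c) 0 0

lemma v_L [CharZero k] (ht : t ≠ 0) (a b c : k) : (a = 0 ∧ b = 0 ∧ c = 0) ∨
    ∃ i : ℤ, 3 ≤ i ∧ i ≤ 5 ∧ v (L t a b c) = exp i := by
  unfold L
  by_cases h5 : 2 * a + 2 * b + 3 * c = 0
  · rw [h5]
    by_cases h4 : a + b + 2 * c = 0
    · rw [h4]
      have hc : c = 0 := by linear_combination 2 * h4 - h5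
      subst hc
      by_cases ha : a = 0
      · left
        refine ⟨ha, ?_, rfl⟩
        linear_combination h4 - ha
      · right
        refine ⟨3, by norm_num, by norm_num, v3 ?_⟩
        rw [add_zero]
        exact mul_ne_zero (mul_ne_zero (neg_ne_zero.mpr two_ne_zero) ht) ha
    · exact Or.inr ⟨4, by norm_num, by norm_num, v4 h4⟩
  · exact Or.inr ⟨5, by norm_num, by norm_num, v5 h5⟩

lemma v_mo (a b c : ℤ) : v (mo t a b c) = exp (2 * a + 2 * b + 3 * c) := by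
  unfold mo
  rw [map_mul, map_mul, map_zpow₀, map_zpow₀, map_zpow₀, v_x, v_xc, v_y,
    ← exp_zsmul, ← exp_zsmul, ← exp_zsmul, ← exp_add, ← exp_add]
  congr 1
  simp only [smul_eq_mul]
  ring

lemma mo_ne (a b c : ℤ) : mo t a b c ≠ 0 := ne_of_v (v_mo a b c)

lemma ld_mo (a b c : ℤ) : xK * (xK - cK t) * ld (mo t a b c) = L t a b c := by
  have hx : (xK : K (Wt t 0)) ≠ 0 := ne_of_v v_x
  have hx1 : (xK - cK t : K (Wt t 0)) ≠ 0 := ne_of_v (v_xc t)
  have hy : (yK : K (Wt t 0)) ≠ 0 := ne_of_v v_y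
  have he := eqW (b := t) (c := 0)
  rw [map_zero] at he
  have e : ld (mo t a b c) = (a : K (Wt t 0)) * (dx / xK) +
      (b : K (Wt t 0)) * (dx / (xK - cK t)) + (c : K (Wt t 0)) * (dy / yK) := by
    unfold mo
    rw [ld_mul (mul_ne_zero (zpow_ne_zero _ hx) (zpow_ne_zero _ hx1)) (zpow_ne_zero _ hy),
      ld_mul (zpow_ne_zero _ hx) (zpow_ne_zero _ hx1), ld_zpow hx, ld_zpow hx1, ld_zpow hy]
    unfold ld
    rw [dv_sub_c, dv_x, dv_y]
  have hdx : (dx : K (Wt t 0)) = 2 * yK + xK - cK t := by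
    show 2 * yK + cK (1 - 0) * xK + cK (-t) = _
    rw [sub_zero, map_one, map_neg]; ring
  have hdy : (dy : K (Wt t 0)) = 3 * xK ^ 2 - 2 * cK t * xK - yK := by
    show 3 * xK ^ 2 + 2 * cK (-t) * xK + cK 0 - cK (1 - 0) * yK = _
    rw [sub_zero, map_one, map_neg, map_zero]; ring
  have e1 : xK * (xK - cK t) * (dx / xK) = (xK - cK t) * (dx : K (Wt t 0)) := by
    field_simp
  have e2 : xK * (xK - cK t) * (dx / (xK - cK t)) = xK * (dx : K (Wt t 0)) := by
    field_simp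
  have e3 : xK * (xK - cK t) * (dy / yK) =
      (yK : K (Wt t 0)) * (3 * xK - 2 * cK t) + 2 * (xK - cK t) ^ 2 := by
    rw [← mul_div_assoc, div_eq_iff hy, hdy]
    linear_combination (-(3 * xK - 2 * cK t)) * he
  have hc : ∀ n : ℤ, (cK ((n : k)) : K (Wt t 0)) = (n : K (Wt t 0)) := fun n => map_intCast _ n
  rw [e]
  unfold L N7
  simp only [map_sub, map_add, map_mul, map_neg, map_pow, map_zero, hc, map_ofNat]
  rw [hdx] at e1 e2
  rw [hdx]
  linear_combination (a : K (Wt t 0)) * e1 + (b : K (Wt t 0)) * e2 + (c : K (Wt t 0)) * e3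

lemma L_zero : L t (0 : k) 0 0 = 0 := by
  unfold L N7; simp

lemma L_sub (a b c a' b' c' : k) : L t a b c - L t a' b' c' = L t (a - a') (b - b') (c - c') := by
  unfold L
  rw [N7_sub]
  congr 1 <;> ring

/-- **the bound at one cusp** -/
theorem bound_K [CharZero k] (ht : t ≠ 0) {c₀ c₁ : k} (h0 : c₀ ≠ 0) (h1 : c₁ ≠ 0)
    {a b c a' b' c' : ℤ} (h : cK c₀ * mo t a b c + cK c₁ * mo t a' b' c' = 1) :
    (a = 0 ∧ b = 0 ∧ c = 0) ∨
    (2 * a + 2 * b + 3 * c = 2 * a' + 2 * b' + 3 * c' ∧ 1 ≤ 2 * a + 2 * b + 3 * c ∧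
      2 * a + 2 * b + 3 * c ≤ 2) ∨
    (2 * a + 2 * b + 3 * c = 0 ∧ 2 * a' + 2 * b' + 3 * c' = 0) ∨
    (-2 ≤ 2 * a + 2 * b + 3 * c ∧ 2 * a + 2 * b + 3 * c ≤ -1 ∧ 2 * a' + 2 * b' + 3 * c' = 0) ∨
    (2 * a + 2 * b + 3 * c = 0 ∧ -2 ≤ 2 * a' + 2 * b' + 3 * c' ∧
      2 * a' + 2 * b' + 3 * c' ≤ -1) := by
  have hc0 : (cK c₀ : K (Wt t 0)) ≠ 0 := ne_of_v (v_c h0)
  have hc1 : (cK c₁ : K (Wt t 0)) ≠ 0 := ne_of_v (v_c h1)
  have vf : v (cK c₀ * mo t a b c) = exp (2 * a + 2 * b + 3 * c) := by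
    rw [map_mul, v_c h0, v_mo, ← exp_add, zero_add]
  have vg : v (cK c₁ * mo t a' b' c') = exp (2 * a' + 2 * b' + 3 * c') := by
    rw [map_mul, v_c h1, v_mo, ← exp_add, zero_add]
  have lf : L t a b c = xK * (xK - cK t) * ld (cK c₀ * mo t a b c) := by
    rw [ld_mul hc0 (mo_ne _ _ _), ld_c, zero_add, ld_mo]
  have lg : L t a' b' c' = xK * (xK - cK t) * ld (cK c₁ * mo t a' b' c') := by
    rw [ld_mul hc1 (mo_ne _ _ _), ld_c, zero_add, ld_mo]
  have key : ∀ a b c : k, L t a b c = 0 ∨ ∃ i : ℤ, 3 ≤ i ∧ i ≤ 5 ∧ v (L t a b c) = exp i := by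
    intro a b c
    rcases v_L ht a b c with ⟨rfl, rfl, rfl⟩ | h'
    · exact Or.inl L_zero
    · exact Or.inr h'
  rcases wr h lf lg vf vg (key _ _ _) (key _ _ _) (by rw [L_sub]; exact key _ _ _) with
    ⟨h2, -⟩ | h2 | h2 | h2 | h2
  · left
    rcases v_L ht (a : k) b c with ⟨ea, eb, ec⟩ | ⟨i, -, -, hi⟩
    · exact ⟨by exact_mod_cast ea, by exact_mod_cast eb, by exact_mod_cast ec⟩
    · exact absurd h2 (ne_of_v hi)
  · right; left; omega
  · right; right; left; exact h2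
  · right; right; right; left; omega
  · right; right; right; right; omega

end K

section F

variable {k : Type*} [Field k] {F : Type*} [Field F] [Algebra k F] {t : k} {x y : F}

/-- monomials -/
def M (t : k) (x y : F) (a b c : ℤ) : F := x ^ a * (x - algebraMap k F t) ^ b * y ^ c

lemma io_mo (h : Gen t 0 x y) (a b c : ℤ) : TN.io h (mo t a b c) = M t x y a b c := by
  unfold mo M
  rw [map_mul, map_mul, map_zpow₀, map_zpow₀, map_zpow₀, map_sub, io_x, io_y, io_c]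

/-- the order at the four points `0, P, 2P, 3P` -/
def o (a b c : ℤ) : Fin 4 → ℤ := ![-(2 * a + 2 * b + 3 * c), a + 2 * c, 2 * b + c, a]

/-- the alternatives at one point -/
def Alt (m m' : ℤ) : Prop := (m = 0 ∧ m' = 0) ∨ (1 ≤ m ∧ m ≤ 2 ∧ m' = 0) ∨
  (m = 0 ∧ 1 ≤ m' ∧ m' ≤ 2) ∨ (m = m' ∧ -2 ≤ m ∧ m ≤ -1)

/-- the bound at the origin -/
theorem bound0 [CharZero k] (ht : t ≠ 0) (h : Gen t 0 x y) {c₀ c₁ : k} (h0 : c₀ ≠ 0) (h1 : c₁ ≠ 0)
    {a b c a' b' c' : ℤ}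
    (hu : algebraMap k F c₀ * M t x y a b c + algebraMap k F c₁ * M t x y a' b' c' = 1) :
    (a = 0 ∧ b = 0 ∧ c = 0) ∨ Alt (-(2 * a + 2 * b + 3 * c)) (-(2 * a' + 2 * b' + 3 * c')) := by
  have h2 : cK c₀ * mo t a b c + cK c₁ * mo t a' b' c' = 1 := by
    apply io_inj h
    rw [map_one, ← hu, map_add, map_mul, map_mul, io_mo h, io_mo h, io_c, io_c]
  rcases bound_K ht h0 h1 h2 with h2 | h2 | h2 | h2 | h2
  · exact Or.inl h2
  · right; unfold Alt; omega
  · right; unfold Alt; omega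
  · right; unfold Alt; omega
  · right; unfold Alt; omega

/-- the new variables -/
lemma M_next (ht : t ≠ 0) (h : Gen t 0 x y) (a b c : ℤ) :
    M t (algebraMap k F t * y / x ^ 2) (algebraMap k F t ^ 2 * (x ^ 2 - y) / x ^ 3) a b c =
      algebraMap k F (t ^ (a + b + 2 * c) * (-1) ^ b) *
        M t x y (-2 * a - 2 * b - 3 * c) (-b - c) (a + 2 * b + 2 * c) := by
  have hx := h.x_ne
  have hy := h.y_ne
  have hx1 := h.xc_ne t
  have he := h.eq
  rw [map_zero] at he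
  have hB : algebraMap k F t ≠ 0 := (_root_.map_ne_zero _).mpr ht
  have e1 : x ^ 2 - y = y ^ 2 / (x - algebraMap k F t) := by
    rw [eq_div_iff hx1]; linear_combination -he
  have e2 : algebraMap k F t * y / x ^ 2 - algebraMap k F t =
      (-1) * (algebraMap k F t * (y * y) / (x * x * (x - algebraMap k F t))) := by
    have : algebraMap k F t * y / x ^ 2 - algebraMap k F t =
      - (algebraMap k F t * (x ^ 2 - y) / x ^ 2) := by field_simp; ring
    rw [this, e1]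
    field_simp
  unfold M
  rw [e2, e1]
  rw [show algebraMap k F t * y / x ^ 2 = algebraMap k F t * y / (x * x) by rw [pow_two],
    show algebraMap k F t ^ 2 * (y ^ 2 / (x - algebraMap k F t)) / x ^ 3 =
      (algebraMap k F t * algebraMap k F t) * (y * y) / ((x - algebraMap k F t) * (x * x * x)) by
      field_simp]
  rw [map_mul, map_zpow₀, map_zpow₀, map_neg, map_one]
  simp only [mul_zpow, div_zpow]
  rw [show a + b + 2 * c = a + b + c + c by ring, show -2 * a - 2 * b - 3 * c =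
    -a - a - b - b - c - c - c by ring, show a + 2 * b + 2 * c = a + b + b + c + c by ring]
  simp only [zpow_add₀ hB, zpow_sub₀ hx, zpow_sub₀ hx1, zpow_neg, zpow_add₀ hy]
  field_simp

/-- translation of a solution -/
lemma step [CharZero k] (ht : t ≠ 0) (h : Gen t 0 x y) {c₀ c₁ : k} (h0 : c₀ ≠ 0) (h1 : c₁ ≠ 0)
    {a b c a' b' c' : ℤ}
    (hu : algebraMap k F c₀ * M t x y a b c + algebraMap k F c₁ * M t x y a' b' c' = 1) :
    ∃ (d₀ d₁ : k) (_ : d₀ ≠ 0) (_ : d₁ ≠ 0),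
      algebraMap k F d₀ * M t (algebraMap k F t * y / x ^ 2)
        (algebraMap k F t ^ 2 * (x ^ 2 - y) / x ^ 3) (2 * b + c) (a + b + 2 * c)
        (-a - 2 * b - 2 * c) +
      algebraMap k F d₁ * M t (algebraMap k F t * y / x ^ 2)
        (algebraMap k F t ^ 2 * (x ^ 2 - y) / x ^ 3) (2 * b' + c') (a' + b' + 2 * c')
        (-a' - 2 * b' - 2 * c') = 1 := by
  have hn : ∀ i j : ℤ, (t ^ i * (-1) ^ j : k) ≠ 0 := fun i j =>
    mul_ne_zero (zpow_ne_zero _ ht) (zpow_ne_zero _ (neg_ne_zero.mpr one_ne_zero))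
  have key : ∀ (c₀ : k) (a b c : ℤ), algebraMap k F c₀ * M t x y a b c =
      algebraMap k F (c₀ * (t ^ ((2 * b + c) + (a + b + 2 * c) + 2 * (-a - 2 * b - 2 * c)) *
        (-1) ^ (a + b + 2 * c))⁻¹) * M t (algebraMap k F t * y / x ^ 2)
        (algebraMap k F t ^ 2 * (x ^ 2 - y) / x ^ 3) (2 * b + c) (a + b + 2 * c)
        (-a - 2 * b - 2 * c) := by
    intro c₀ a b c
    rw [M_next ht h, map_mul, map_inv₀]
    have hn' := (_root_.map_ne_zero (algebraMap k F)).mpr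
      (hn ((2 * b + c) + (a + b + 2 * c) + 2 * (-a - 2 * b - 2 * c)) (a + b + 2 * c))
    rw [show -2 * (2 * b + c) - 2 * (a + b + 2 * c) - 3 * (-a - 2 * b - 2 * c) = a by ring,
      show -(a + b + 2 * c) - (-a - 2 * b - 2 * c) = b by ring,
      show 2 * b + c + 2 * (a + b + 2 * c) + 2 * (-a - 2 * b - 2 * c) = c by ring]
    field_simp
  rw [key c₀, key c₁] at hu
  exact ⟨_, _, mul_ne_zero h0 (inv_ne_zero (hn _ _)), mul_ne_zero h1 (inv_ne_zero (hn _ _)), hu⟩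

/-- the alternatives at the four points -/
theorem bound_all [CharZero k] (ht : t ≠ 0) (h : Gen t 0 x y) {c₀ c₁ : k} (h0 : c₀ ≠ 0)
    (h1 : c₁ ≠ 0) {a b c a' b' c' : ℤ}
    (hu : algebraMap k F c₀ * M t x y a b c + algebraMap k F c₁ * M t x y a' b' c' = 1) :
    (a = 0 ∧ b = 0 ∧ c = 0) ∨ (Alt (-(2 * a + 2 * b + 3 * c)) (-(2 * a' + 2 * b' + 3 * c')) ∧
      Alt (a + 2 * c) (a' + 2 * c') ∧ Alt (2 * b + c) (2 * b' + c') ∧ Alt a a') := by
  by_cases hz : a = 0 ∧ b = 0 ∧ c = 0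
  · exact Or.inl hz
  right
  have A0 := (bound0 ht h h0 h1 hu).resolve_left hz
  obtain ⟨d₀, d₁, e0, e1, hu1⟩ := step ht h h0 h1 hu
  have g1 := h.next ht
  have A1 := (bound0 ht g1 e0 e1 hu1).resolve_left (by omega)
  obtain ⟨d₂, d₃, e2, e3, hu2⟩ := step ht g1 e0 e1 hu1
  have g2 := g1.next ht
  have A2 := (bound0 ht g2 e2 e3 hu2).resolve_left (by omega)
  obtain ⟨d₄, d₅, e4, e5, hu3⟩ := step ht g2 e2 e3 hu2
  have g3 := g2.next ht
  have A3 := (bound0 ht g3 e4 e5 hu3).resolve_left (by omega)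
  refine ⟨A0, ?_, ?_, ?_⟩
  · convert A3 using 1 <;> ring
  · convert A2 using 1 <;> ring
  · convert A1 using 1 <;> ring

end F

end Pool.Agent.TN.N4
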