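import Pool.Agent.Lib_helper24.TN.N5B

/-!
# The closed elements supported on the multiples of a point of order five
-/

set_option autoImplicit false
set_option linter.unusedSectionVars false

open scoped TensorProduct

namespace Pool.Agent.TN.N5

open MK4

section Closed

variable {k : Type*} [Field k] {F : Type*} [Field F] [Algebra k F] {t : k} {x y : F}

/-- the first four functions are independent modulo constants -/
lemma v_indep [CharZero k] (ht : t ≠ 0) (h : Gen t t x y) (e : Fin 4 → ℤ) (c : k)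
    (he : ∏ i, v t x y (Fin.castSucc i) ^ e i = algebraMap k F c) : e = 0 := by
  have hx := h.x_ne
  have hx1 := h.xc_ne t
  have hy := h.y_ne
  have hw := Gen.w_ne h
  have hB : algebraMap k F t ≠ 0 := (_root_.map_ne_zero _).mpr ht
  rw [Fin.prod_univ_four] at he
  have e0 : v t x y (Fin.castSucc (0 : Fin 4)) = algebraMap k F t / x := rfl
  have e1 : v t x y (Fin.castSucc (1 : Fin 4)) =
    y * (x - algebraMap k F t) / (x * (y - algebraMap k F t * x)) := rfl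
  have e2 : v t x y (Fin.castSucc (2 : Fin 4)) = (-1) * (y / (x - algebraMap k F t)) := by
    show -y / (x - algebraMap k F t) = _
    ring
  have e3 : v t x y (Fin.castSucc (3 : Fin 4)) = x * x / y := by
    show x ^ 2 / y = _
    rw [pow_two]
  rw [e0, e1, e2, e3] at he
  have key : M t x y (-e 0 - e 1 + e 3 + e 3) (e 1 - e 2) (e 1 + e 2 - e 3) (-e 1) =
      algebraMap k F (c * (t ^ e 0 * (-1) ^ e 2)⁻¹) := by
    rw [map_mul, map_inv₀, map_mul, map_zpow₀, map_zpow₀, map_neg, map_one, ← he]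
    unfold M
    simp only [mul_zpow, div_zpow, zpow_add₀ hx, zpow_sub₀ hx, zpow_sub₀ hx1, zpow_neg,
      zpow_add₀ hy, zpow_sub₀ hy]
    have n1 : ((-1 : F)) ^ e 2 ≠ 0 := zpow_ne_zero _ (neg_ne_zero.mpr one_ne_zero)
    field_simp
  obtain ⟨h1, h2, h3, h4⟩ := M_const ht h key
  have g0 : e 0 = 0 := by omega
  have g1 : e 1 = 0 := by omega
  have g2 : e 2 = 0 := by omega
  have g3 : e 3 = 0 := by omega
  funext i
  fin_cases i
  · exact g0
  · exact g1
  · exact g2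
  · exact g3

/-- dual functionals -/
theorem dual [CharZero k] (ht : t ≠ 0) (h : Gen t t x y) :
    ∃ φ : Fin 4 → FT F →ₗ[ℚ] ℚ, (∀ i, ∀ w ∈ V0 k F, φ i w = 0) ∧
      ∀ i j : Fin 4, φ i (yv t x y (Fin.castSucc j)) = if i = j then 1 else 0 := by
  apply exists_dual
  unfold yv
  apply indep_lg (k := k) (fun i : Fin 4 => v t x y (Fin.castSucc i))
  · intro i
    exact v_ne ht h _
  · intro e c _ he
    exact v_indep ht h e c he

/-- the first class -/
noncomputable def Z1 (t : k) (x y : F) : HK F := ∑ j, hk (sy (v t x y j)) (yv t x y (j + 1))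

/-- the second class -/
noncomputable def Z2 (t : k) (x y : F) : HK F := ∑ j, hk (sy (v t x y j)) (yv t x y (j + 2))

lemma r1 (ht : t ≠ 0) (h : Gen t t x y) (j : Fin 5) : hk (sy (v t x y j)) (yv t x y j) = 0 :=
  hk_self (v_ne ht h j) (v_ne1 ht h j)

lemma r2 [CharZero k] (ht : t ≠ 0) (h : Gen t t x y) (j : Fin 5) :
    hk (sy (v t x y j)) (yv t x y (j - 1)) + hk (sy (v t x y j)) (yv t x y (j + 1)) = 0 := by
  have : CharZero F := charZero_of_injective_algebraMap (algebraMap k F).injective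
  rw [← hk_add_right, ← lg_one_sub ht h]
  exact hk_compl (v_ne ht h j) (v_ne1 ht h j)

lemma rs [CharZero k] (ht : t ≠ 0) (h : Gen t t x y) (w : FT F) :
    hk (sy (v t x y 0)) w + hk (sy (v t x y 1)) w + hk (sy (v t x y 2)) w +
      hk (sy (v t x y 3)) w + hk (sy (v t x y 4)) w = 0 := by
  rw [← hk_add_left, ← hk_add_left, ← hk_add_left, ← hk_add_left, sum_sy ht h, hk_zero_left]

/-- **closed elements**, generic case -/
theorem closed0 [CharZero k] (ht : t ≠ 0) (h : Gen t t x y) (u : Fin 5 → FT F) {κ : HK F}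
    (hκ : κ ∈ KC k F) (hc : Closed (∑ j, hk (sy (v t x y j)) (u j) + κ)) :
    ∃ b1 b2 : ℚ, ∑ j, hk (sy (v t x y j)) (u j) = b1 • Z1 t x y + b2 • Z2 t x y ∧
      ((b1 = 0 ∧ b2 = 0) ∨ ∃ n : ℕ, 0 < n ∧ t ^ n = 1) := by
  have hB : algebraMap k F t ≠ 0 := (_root_.map_ne_zero _).mpr ht
  obtain ⟨φ, hφ, hd⟩ := dual ht h
  have hy4 := sum_yv ht h
  -- only four unknowns
  have hz : ∑ j, hk (sy (v t x y j)) (u j) =
      hk (sy (v t x y 0)) (u 0 - u 4) + hk (sy (v t x y 1)) (u 1 - u 4) +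
      hk (sy (v t x y 2)) (u 2 - u 4) + hk (sy (v t x y 3)) (u 3 - u 4) := by
    rw [Fin.sum_univ_five, hk_sub_right, hk_sub_right, hk_sub_right, hk_sub_right]
    linear_combination (norm := module) rs ht h (u 4)
  rw [hz] at hc ⊢
  rw [closed_dE, map_add, map_add, map_add, map_add, dE_sy, dE_sy, dE_sy, dE_sy] at hc
  have l0 : lg (1 - v t x y 0) = ((-1) : ℚ) • yv t x y 0 + ((-1) : ℚ) • yv t x y 2 +
      ((-1) : ℚ) • yv t x y 3 + (1 : ℚ) • lg (algebraMap k F t) := by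
    rw [lg_one_sub ht h]
    show yv t x y 4 + yv t x y 1 = _
    rw [hy4]
    module
  have l1 : lg (1 - v t x y 1) = (1 : ℚ) • yv t x y 0 + (1 : ℚ) • yv t x y 2 := by
    rw [lg_one_sub ht h]
    show yv t x y 0 + yv t x y 2 = _
    module
  have l2 : lg (1 - v t x y 2) = (1 : ℚ) • yv t x y 1 + (1 : ℚ) • yv t x y 3 := by
    rw [lg_one_sub ht h]
    show yv t x y 1 + yv t x y 3 = _
    module
  have l3 : lg (1 - v t x y 3) = ((-1) : ℚ) • yv t x y 0 + ((-1) : ℚ) • yv t x y 1 +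
      ((-1) : ℚ) • yv t x y 3 + (1 : ℚ) • lg (algebraMap k F t) := by
    rw [lg_one_sub ht h]
    show yv t x y 2 + yv t x y 4 = _
    rw [hy4]
    module
  have m : ∀ j : Fin 5, lg (v t x y j) = (1 : ℚ) • yv t x y j := by
    intro j; rw [one_smul]; rfl
  rw [l0, l1, l2, l3, m 0, m 1, m 2, m 3] at hc
  have d : ∀ i j : Fin 4, φ i (yv t x y (Fin.castSucc j)) = if i = j then 1 else 0 := hd
  have d00 : φ 0 (yv t x y 0) = 1 := d 0 0
  have d01 : φ 0 (yv t x y 1) = 0 := d 0 1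
  have d02 : φ 0 (yv t x y 2) = 0 := d 0 2
  have d03 : φ 0 (yv t x y 3) = 0 := d 0 3
  have d10 : φ 1 (yv t x y 0) = 0 := d 1 0
  have d11 : φ 1 (yv t x y 1) = 1 := d 1 1
  have d12 : φ 1 (yv t x y 2) = 0 := d 1 2
  have d13 : φ 1 (yv t x y 3) = 0 := d 1 3
  have d20 : φ 2 (yv t x y 0) = 0 := d 2 0
  have d21 : φ 2 (yv t x y 1) = 0 := d 2 1
  have d22 : φ 2 (yv t x y 2) = 1 := d 2 2
  have d23 : φ 2 (yv t x y 3) = 0 := d 2 3
  have d30 : φ 3 (yv t x y 0) = 0 := d 3 0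
  have d31 : φ 3 (yv t x y 1) = 0 := d 3 1
  have d32 : φ 3 (yv t x y 2) = 0 := d 3 2
  have d33 : φ 3 (yv t x y 3) = 1 := d 3 3
  have wz : ∀ i j, ct (φ i) (φ j) (dE F κ) = 0 := fun i j => ct_KC (hφ i) (hφ j) hκ
  have g : ∀ i, φ i (lg (algebraMap k F t)) = 0 := fun i => hφ i _ (lg_mem_V0 t)
  obtain ⟨p0, p1, p2, p3, q0, q1, q2, q3, p4, q4, b1, b2, hb1, hb2, hu0, hu1, hu2, hu3⟩ :=
    alg5 (φ0 := φ 0) (φ1 := φ 1) (φ2 := φ 2) (φ3 := φ 3) d00 d01 d02 d03 (g 0) d10 d11 d12 d13 (g 1)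
      d20 d21 d22 d23 (g 2) d30 d31 d32 d33 (g 3) (wz 0 1) (wz 0 2) (wz 0 3) (wz 1 2) (wz 1 3)
      (wz 2 3) hc
  rw [← hy4] at hu0 hu1 hu2 hu3
  refine ⟨b1, b2, ?_, ?_⟩
  · rw [hu0, hu1, hu2, hu3]
    unfold Z1 Z2
    rw [Fin.sum_univ_five, Fin.sum_univ_five]
    simp only [hk_add_right, hk_smul_right, hk_sub_right, hk_neg_right]
    have a0 := r1 ht h 0
    have a1 := r1 ht h 1
    have a2 := r1 ht h 2
    have a3 := r1 ht h 3
    have a4 := r1 ht h 4
    have c0 : hk (sy (v t x y 0)) (yv t x y 4) + hk (sy (v t x y 0)) (yv t x y 1) = 0 := r2 ht h 0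
    have c1 : hk (sy (v t x y 1)) (yv t x y 0) + hk (sy (v t x y 1)) (yv t x y 2) = 0 := r2 ht h 1
    have c2 : hk (sy (v t x y 2)) (yv t x y 1) + hk (sy (v t x y 2)) (yv t x y 3) = 0 := r2 ht h 2
    have c3 : hk (sy (v t x y 3)) (yv t x y 2) + hk (sy (v t x y 3)) (yv t x y 4) = 0 := r2 ht h 3
    have c4 : hk (sy (v t x y 4)) (yv t x y 3) + hk (sy (v t x y 4)) (yv t x y 0) = 0 := r2 ht h 4
    have s0 := rs ht h (yv t x y 0)
    have s1 := rs ht h (yv t x y 1)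
    have s3 := rs ht h (yv t x y 3)
    have s4 := rs ht h (yv t x y 4)
    have f1 : (0 : Fin 5) + 1 = 1 := rfl
    have f2 : (1 : Fin 5) + 1 = 2 := rfl
    have f3 : (2 : Fin 5) + 1 = 3 := rfl
    have f4 : (3 : Fin 5) + 1 = 4 := rfl
    have f5 : (4 : Fin 5) + 1 = 0 := rfl
    have f6 : (0 : Fin 5) + 2 = 2 := rfl
    have f7 : (1 : Fin 5) + 2 = 3 := rfl
    have f8 : (2 : Fin 5) + 2 = 4 := rfl
    have f9 : (3 : Fin 5) + 2 = 0 := rfl
    have f10 : (4 : Fin 5) + 2 = 1 := rfl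
    rw [f1, f2, f3, f4, f5, f6, f7, f8, f9, f10]
    linear_combination (norm := module) p0 • a0 + p1 • a1 + p2 • a2 + p3 • a3 + p4 • a4 +
      q0 • c0 + q1 • c1 + q2 • c2 + q3 • c3 + q4 • c4 - p4 • s4 - q4 • s0 - q4 • s3 - b1 • s0 -
      b2 • s1
  · by_cases hτ : lg (algebraMap k F t) = 0
    · right
      obtain ⟨n, hn, h2⟩ := pow_eq_one_of_lg hB hτ
      refine ⟨n, hn, ?_⟩
      apply (algebraMap k F).injective
      rw [map_pow, h2, map_one]
    · left
      exact ⟨(smul_eq_zero.mp hb1).resolve_right hτ, (smul_eq_zero.mp hb2).resolve_right hτ⟩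

end Closed

end Pool.Agent.TN.N5
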