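import Pool.Agent.Lib_helper24.TN.N4K

/-!
# Point of order four: the class is in the span, and closed if `t` is a root of unity
-/

set_option autoImplicit false
set_option linter.unusedSectionVars false

open scoped TensorProduct

namespace Pool.Agent.TN

open MK4

section Gen

variable {F : Type*} [Field F]

lemma lg_root [CharZero F] {r : F} {n : ℕ} (hn : 0 < n) (h : r ^ n = 1) : lg r = 0 := by
  have hr : r ≠ 0 := by
    rintro rfl
    rw [zero_pow hn.ne'] at h
    exact zero_ne_one h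
  have h1 : (n : ℚ) • lg r = 0 := by rw [← lgpow hr, h, lg1]
  rcases smul_eq_zero.mp h1 with h2 | h2
  · exact absurd (by exact_mod_cast h2) hn.ne'
  · exact h2

end Gen

namespace N4

section Main

variable {k : Type*} [Field k] {F : Type*} [Field F] [Algebra k F] {t : k} {x y : F}

lemma U_X (ht : t ≠ 0) (h : Gen t 0 x y) : U t x y (x / algebraMap k F t) := by
  refine ⟨t⁻¹, 1, 0, 0, inv_ne_zero ht, ?_⟩
  unfold M
  rw [zpow_one, zpow_zero, zpow_zero, mul_one, mul_one, map_inv₀, div_eq_mul_inv, mul_comm]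

lemma U_X1 (ht : t ≠ 0) (h : Gen t 0 x y) : U t x y (1 - x / algebraMap k F t) := by
  have hB : algebraMap k F t ≠ 0 := (_root_.map_ne_zero _).mpr ht
  refine ⟨-t⁻¹, 0, 1, 0, neg_ne_zero.mpr (inv_ne_zero ht), ?_⟩
  unfold M
  rw [zpow_one, zpow_zero, zpow_zero, mul_one, one_mul, map_neg, map_inv₀]
  field_simp
  ring

lemma U_Y (h : Gen t 0 x y) : U t x y (y / x ^ 2) := by
  refine ⟨1, -2, 0, 1, one_ne_zero, ?_⟩
  unfold M
  rw [zpow_one, zpow_zero, mul_one, map_one, one_mul, div_eq_mul_inv, mul_comm, zpow_neg,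
    zpow_ofNat]

lemma one_sub_Y (h : Gen t 0 x y) :
    1 - y / x ^ 2 = y ^ 2 / (x - algebraMap k F t) / x ^ 2 := by
  have hx := h.x_ne
  have hx1 := h.xc_ne t
  have he := h.eq
  rw [map_zero] at he
  have e1 : x ^ 2 - y = y ^ 2 / (x - algebraMap k F t) := by
    rw [eq_div_iff hx1]; linear_combination -he
  rw [← e1]; field_simp

lemma U_Y1 (h : Gen t 0 x y) : U t x y (1 - y / x ^ 2) := by
  have hx := h.x_ne
  have hx1 := h.xc_ne t
  refine ⟨1, -2, -1, 2, one_ne_zero, ?_⟩
  rw [one_sub_Y h]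
  unfold M
  rw [map_one, one_mul, zpow_neg, zpow_neg, zpow_one]
  have : x ^ (2 : ℤ) = x ^ 2 := zpow_ofNat x 2
  have e2 : y ^ (2 : ℤ) = y ^ 2 := zpow_ofNat y 2
  rw [this, e2]
  field_simp

/-- the class is in the span -/
lemma xi_mem [CharZero k] (ht : t ≠ 0) (h : Gen t 0 x y) :
    xi x y (algebraMap k F t) ∈ Cu t x y := by
  unfold xi
  exact Submodule.sub_mem _ (Submodule.subset_span ⟨_, _, U_X ht h, U_X1 ht h, rfl⟩)
    (Submodule.subset_span ⟨_, _, U_Y h, U_Y1 h, rfl⟩)

/-- the class is closed if `t` is a root of unity -/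
lemma xi_closed [CharZero k] (ht : t ≠ 0) (h : Gen t 0 x y) {n : ℕ} (hn : 0 < n)
    (htn : t ^ n = 1) : Closed (xi x y (algebraMap k F t)) := by
  have : CharZero F := charZero_of_injective_algebraMap (algebraMap k F).injective
  have hx := h.x_ne
  have hy := h.y_ne
  have hx1 := h.xc_ne t
  have hB : algebraMap k F t ≠ 0 := (_root_.map_ne_zero _).mpr ht
  have hτ : lg (algebraMap k F t) = 0 := lg_root hn (by rw [← map_pow, htn, map_one])
  have hxt : 1 - x / algebraMap k F t = -(x - algebraMap k F t) / algebraMap k F t := by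
    field_simp; ring
  have l0 : lg (1 - x / algebraMap k F t) = lg (x - algebraMap k F t) := by
    rw [hxt, lgdiv (neg_ne_zero.mpr hx1) hB, lgneg, hτ, sub_zero]
  have l0' : lg (x / algebraMap k F t) = lg x := by rw [lgdiv hx hB, hτ, sub_zero]
  have l1 : lg (1 - y / x ^ 2) =
      (2 : ℚ) • lg y - (2 : ℚ) • lg x - lg (x - algebraMap k F t) := by
    rw [one_sub_Y h, lgdiv (div_ne_zero (pow_ne_zero 2 hy) hx1) (pow_ne_zero 2 hx),
      lgdiv (pow_ne_zero 2 hy) hx1, lgpow hy, lgpow hx]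
    push_cast
    abel
  have l1' : lg (y / x ^ 2) = lg y - (2 : ℚ) • lg x := by
    rw [lgdiv hy (pow_ne_zero 2 hx), lgpow hx]
    push_cast
    rfl
  rw [closed_dE]
  unfold xi
  rw [map_sub, dE_sy, dE_sy, l0, l0', l1, l1']
  have sq : ∀ a : FT F, ExteriorAlgebra.ι ℚ a * ExteriorAlgebra.ι ℚ a = 0 := fun a =>
    ExteriorAlgebra.ι_sq_zero a
  have sw : ∀ a b : FT F, ExteriorAlgebra.ι ℚ a * ExteriorAlgebra.ι ℚ b =
      -(ExteriorAlgebra.ι ℚ b * ExteriorAlgebra.ι ℚ a) := by
    intro a b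
    rw [eq_neg_iff_add_eq_zero]
    exact ExteriorAlgebra.ι_add_mul_swap a b
  have s1 := sq (lg x)
  have s2 := sq (lg y)
  have s3 := sq (lg (x - algebraMap k F t))
  have w1 := sw (lg y) (lg x)
  have w2 := sw (lg (x - algebraMap k F t)) (lg x)
  have w3 := sw (lg (x - algebraMap k F t)) (lg y)
  simp only [map_sub, map_smul]
  generalize ExteriorAlgebra.ι ℚ (lg x) = u at *
  generalize ExteriorAlgebra.ι ℚ (lg y) = v at *
  generalize ExteriorAlgebra.ι ℚ (lg (x - algebraMap k F t)) = w at *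
  have s1' : ∀ z, u * (u * z) = 0 := fun z => by rw [← mul_assoc, s1, zero_mul]
  have s2' : ∀ z, v * (v * z) = 0 := fun z => by rw [← mul_assoc, s2, zero_mul]
  have s3' : ∀ z, w * (w * z) = 0 := fun z => by rw [← mul_assoc, s3, zero_mul]
  have w1' : ∀ z, v * (u * z) = -(u * (v * z)) := fun z => by
    rw [← mul_assoc, w1, neg_mul, mul_assoc]
  have w2' : ∀ z, w * (u * z) = -(u * (w * z)) := fun z => by
    rw [← mul_assoc, w2, neg_mul, mul_assoc]
  have w3' : ∀ z, w * (v * z) = -(v * (w * z)) := fun z => by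
    rw [← mul_assoc, w3, neg_mul, mul_assoc]
  simp only [mul_sub, sub_mul, smul_mul_assoc, mul_smul_comm, mul_assoc, s1, s2, s3, s1', s2',
    s3', w1, w2, w3, w1', w2', w3', mul_neg, neg_mul, mul_zero, smul_zero, neg_zero, sub_zero,
    zero_sub, smul_neg, neg_neg]
  module

end Main

end N4

end Pool.Agent.TN
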