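import Pool.Agent.Lib_helper24.TN.N5H
import Pool.Agent.Lib_helper24.TN.N4X

/-!
# Point of order five: the classes are in the span, and closed if `t` is a root of unity
-/

set_option autoImplicit false
set_option linter.unusedSectionVars false

open scoped TensorProduct

namespace Pool.Agent.TN.N5

open MK4

variable {k : Type*} [Field k] {F : Type*} [Field F] [Algebra k F] {t : k} {x y : F}

lemma U_mul (h : Gen t t x y) {f g : F} (hf : U t x y f) (hg : U t x y g) : U t x y (f * g) := by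
  obtain ⟨d, a, b, c, e, hd, rfl⟩ := hf
  obtain ⟨d', a', b', c', e', hd', rfl⟩ := hg
  refine ⟨d * d', a + a', b + b', c + c', e + e', mul_ne_zero hd hd', ?_⟩
  unfold M
  rw [zpow_add₀ h.x_ne, zpow_add₀ (h.xc_ne t), zpow_add₀ h.y_ne, zpow_add₀ (Gen.w_ne h), map_mul]
  ring

lemma U_v (ht : t ≠ 0) (h : Gen t t x y) (j : Fin 5) : U t x y (v t x y j) := by
  have hx := h.x_ne
  have hx1 := h.xc_ne t
  have hy := h.y_ne
  have hw := Gen.w_ne h
  have e2 : x ^ (2 : ℤ) = x ^ 2 := zpow_ofNat x 2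
  fin_cases j
  · refine ⟨t, -1, 0, 0, 0, ht, ?_⟩
    show algebraMap k F t / x = _
    unfold M
    simp only [zpow_zero, mul_one, zpow_neg, zpow_one]
    rw [div_eq_mul_inv]
  · refine ⟨1, -1, 1, 1, -1, one_ne_zero, ?_⟩
    show y * (x - algebraMap k F t) / (x * (y - algebraMap k F t * x)) = _
    unfold M
    simp only [zpow_neg, zpow_one, map_one, one_mul]
    field_simp
  · refine ⟨-1, 0, -1, 1, 0, neg_ne_zero.mpr one_ne_zero, ?_⟩
    show -y / (x - algebraMap k F t) = _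
    unfold M
    simp only [zpow_zero, zpow_neg, zpow_one, map_neg, map_one, one_mul, mul_one]
    field_simp
  · refine ⟨1, 2, 0, -1, 0, one_ne_zero, ?_⟩
    show x ^ 2 / y = _
    unfold M
    simp only [zpow_zero, zpow_neg, zpow_one, map_one, one_mul, mul_one, e2]
    rw [div_eq_mul_inv]
  · refine ⟨1, 0, 0, -1, 1, one_ne_zero, ?_⟩
    show (y - algebraMap k F t * x) / y = _
    unfold M
    simp only [zpow_zero, zpow_neg, zpow_one, map_one, one_mul, mul_one]
    field_simp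

lemma U_v1 (ht : t ≠ 0) (h : Gen t t x y) (j : Fin 5) : U t x y (1 - v t x y j) := by
  rw [← v_penta ht h j]
  exact U_mul h (U_v ht h _) (U_v ht h _)

lemma Z1_mem (ht : t ≠ 0) (h : Gen t t x y) : Z1 t x y ∈ Cu t x y := by
  unfold Z1
  exact Submodule.sum_mem _ fun j _ => Submodule.subset_span ⟨_, _, U_v ht h j, U_v1 ht h j, rfl⟩

lemma Z2_mem (ht : t ≠ 0) (h : Gen t t x y) : Z2 t x y ∈ Cu t x y := by
  unfold Z2
  exact Submodule.sum_mem _ fun j _ => Submodule.subset_span ⟨_, _, U_v ht h j, U_v1 ht h j, rfl⟩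

section Alg

variable {A : Type*} [Ring A] [Algebra ℚ A] {u0 u1 u2 u3 : A}

lemma alg_a (q0 : u0 * u0 = 0) (q1 : u1 * u1 = 0) (q2 : u2 * u2 = 0) (q3 : u3 * u3 = 0)
    (s10 : u1 * u0 = -(u0 * u1)) (s20 : u2 * u0 = -(u0 * u2)) (s30 : u3 * u0 = -(u0 * u3))
    (s21 : u2 * u1 = -(u1 * u2)) (s31 : u3 * u1 = -(u1 * u3)) (s32 : u3 * u2 = -(u2 * u3)) :
    (((-(u0 + u1 + u2 + u3)) + u1) * u0 * u1 + (u0 + u2) * u1 * u2 + (u1 + u3) * u2 * u3 +
      (u2 + (-(u0 + u1 + u2 + u3))) * u3 * (-(u0 + u1 + u2 + u3)) +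
      (u3 + u0) * (-(u0 + u1 + u2 + u3)) * u0 = 0) ∧
    (((-(u0 + u1 + u2 + u3)) + u1) * u0 * u2 + (u0 + u2) * u1 * u3 +
      (u1 + u3) * u2 * (-(u0 + u1 + u2 + u3)) +
      (u2 + (-(u0 + u1 + u2 + u3))) * u3 * u0 +
      (u3 + u0) * (-(u0 + u1 + u2 + u3)) * u1 = 0) := by
  have q0' : ∀ z, u0 * (u0 * z) = 0 := fun z => by rw [← mul_assoc, q0, zero_mul]
  have q1' : ∀ z, u1 * (u1 * z) = 0 := fun z => by rw [← mul_assoc, q1, zero_mul]
  have q2' : ∀ z, u2 * (u2 * z) = 0 := fun z => by rw [← mul_assoc, q2, zero_mul]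
  have q3' : ∀ z, u3 * (u3 * z) = 0 := fun z => by rw [← mul_assoc, q3, zero_mul]
  have s10' : ∀ z, u1 * (u0 * z) = -(u0 * (u1 * z)) := fun z => by
    rw [← mul_assoc, s10, neg_mul, mul_assoc]
  have s20' : ∀ z, u2 * (u0 * z) = -(u0 * (u2 * z)) := fun z => by
    rw [← mul_assoc, s20, neg_mul, mul_assoc]
  have s30' : ∀ z, u3 * (u0 * z) = -(u0 * (u3 * z)) := fun z => by
    rw [← mul_assoc, s30, neg_mul, mul_assoc]
  have s21' : ∀ z, u2 * (u1 * z) = -(u1 * (u2 * z)) := fun z => by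
    rw [← mul_assoc, s21, neg_mul, mul_assoc]
  have s31' : ∀ z, u3 * (u1 * z) = -(u1 * (u3 * z)) := fun z => by
    rw [← mul_assoc, s31, neg_mul, mul_assoc]
  have s32' : ∀ z, u3 * (u2 * z) = -(u2 * (u3 * z)) := fun z => by
    rw [← mul_assoc, s32, neg_mul, mul_assoc]
  constructor
  · simp only [mul_add, add_mul, neg_mul, mul_neg, mul_assoc, neg_add_rev, neg_neg, mul_zero,
      neg_zero, add_zero, zero_add, q0, q1, q2, q3, q0', q1', q2', q3', s10, s20, s30, s21, s31,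
      s32, s10', s20', s30', s21', s31', s32']
    abel
  · simp only [mul_add, add_mul, neg_mul, mul_neg, mul_assoc, neg_add_rev, neg_neg, mul_zero,
      neg_zero, add_zero, zero_add, q0, q1, q2, q3, q0', q1', q2', q3', s10, s20, s30, s21, s31,
      s32, s10', s20', s30', s21', s31', s32']
    abel

end Alg

lemma dE_Z [CharZero k] (ht : t ≠ 0) (h : Gen t t x y) (hτ : lg (algebraMap k F t) = 0) :
    dE F (Z1 t x y) = 0 ∧ dE F (Z2 t x y) = 0 := by
  have hy4 := sum_yv ht h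
  rw [hτ, zero_sub] at hy4
  have e4 : ExteriorAlgebra.ι ℚ (yv t x y 4) = -(ExteriorAlgebra.ι ℚ (yv t x y 0) +
      ExteriorAlgebra.ι ℚ (yv t x y 1) + ExteriorAlgebra.ι ℚ (yv t x y 2) +
      ExteriorAlgebra.ι ℚ (yv t x y 3)) := by
    rw [hy4, map_sub, map_sub, map_sub, map_neg]
    abel
  have sq : ∀ a : FT F, ExteriorAlgebra.ι ℚ a * ExteriorAlgebra.ι ℚ a = 0 := fun a =>
    ExteriorAlgebra.ι_sq_zero a
  have sw : ∀ a b : FT F, ExteriorAlgebra.ι ℚ a * ExteriorAlgebra.ι ℚ b =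
      -(ExteriorAlgebra.ι ℚ b * ExteriorAlgebra.ι ℚ a) := by
    intro a b
    rw [eq_neg_iff_add_eq_zero]
    exact ExteriorAlgebra.ι_add_mul_swap a b
  obtain ⟨k1, k2⟩ := alg_a (sq (yv t x y 0)) (sq (yv t x y 1)) (sq (yv t x y 2)) (sq (yv t x y 3))
    (sw (yv t x y 1) (yv t x y 0)) (sw (yv t x y 2) (yv t x y 0)) (sw (yv t x y 3) (yv t x y 0))
    (sw (yv t x y 2) (yv t x y 1)) (sw (yv t x y 3) (yv t x y 1)) (sw (yv t x y 3) (yv t x y 2))
  rw [← e4] at k1 k2
  have term : ∀ (j : Fin 5) (w : FT F), dE F (hk (sy (v t x y j)) w) =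
      (ExteriorAlgebra.ι ℚ (yv t x y (j - 1)) + ExteriorAlgebra.ι ℚ (yv t x y (j + 1))) *
        ExteriorAlgebra.ι ℚ (yv t x y j) * ExteriorAlgebra.ι ℚ w := by
    intro j w
    rw [dE_sy, lg_one_sub ht h, map_add]
    rfl
  constructor
  · unfold Z1
    rw [map_sum]
    simp only [term]
    rw [Fin.sum_univ_five]
    exact k1
  · unfold Z2
    rw [map_sum]
    simp only [term]
    rw [Fin.sum_univ_five]
    exact k2

/-- the classes are closed if `t` is a root of unity -/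
lemma Z_closed [CharZero k] (ht : t ≠ 0) (h : Gen t t x y) {n : ℕ} (hn : 0 < n)
    (htn : t ^ n = 1) : Closed (Z1 t x y) ∧ Closed (Z2 t x y) := by
  have : CharZero F := charZero_of_injective_algebraMap (algebraMap k F).injective
  have hτ : lg (algebraMap k F t) = 0 := lg_root hn (by rw [← map_pow, htn, map_one])
  rw [closed_dE, closed_dE]
  exact dE_Z ht h hτ

end Pool.Agent.TN.N5
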