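import Pool.Agent.Lib_helper24.TN.KA
import Pool.Agent.Lib_helper2.K4.DefsC

/-!
# The span of the symbols of constants
-/

set_option autoImplicit false

open scoped TensorProduct

namespace Pool.Agent.TN

open MK4

/-- the classes of functions generate -/
lemma lg_span {F : Type*} [Field F] (u : FT F) : u ∈ Submodule.span ℚ {w : FT F | ∃ f : F, w = lg f} := by
  show u ∈ Submodule.span ℚ {w : ℚ ⊗[ℤ] Additive Fˣ | ∃ f : F, w = lg f}
  refine TensorProduct.induction_on (motive := fun z : ℚ ⊗[ℤ] Additive Fˣ =>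
    z ∈ Submodule.span ℚ {w : ℚ ⊗[ℤ] Additive Fˣ | ∃ f : F, w = lg f}) u ?_ ?_ ?_
  · exact Submodule.zero_mem _
  · intro q a
    have h1 : (lg ((Additive.toMul a : Fˣ) : F) : FT F) = ((1 : ℚ) ⊗ₜ[ℤ] a : ℚ ⊗[ℤ] Additive Fˣ) := by
      unfold lg
      rw [dif_neg (Units.ne_zero _)]
      rw [Units.mk0_val]
      rfl
    have h2 : (q ⊗ₜ[ℤ] a : ℚ ⊗[ℤ] Additive Fˣ) = q • ((1 : ℚ) ⊗ₜ[ℤ] a : ℚ ⊗[ℤ] Additive Fˣ) := by
      rw [TensorProduct.smul_tmul', smul_eq_mul, mul_one]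
    rw [h2]
    refine Submodule.smul_mem _ _ (Submodule.subset_span ?_)
    exact ⟨_, h1.symm⟩
  · intro a b ha hb
    exact Submodule.add_mem _ ha hb

/-- `u` may be taken to be a function -/
lemma span_hk {F : Type*} [Field F] (S : Set F) :
    Submodule.span ℚ {z : HK F | ∃ (f : F) (u : FT F), f ∈ S ∧ z = hk (sy f) u} =
      Submodule.span ℚ {z : HK F | ∃ (f u : F), f ∈ S ∧ z = hk (sy f) (lg u)} := by
  apply le_antisymm
  · rw [Submodule.span_le]
    rintro z ⟨f, u, hf, rfl⟩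
    have hu := lg_span u
    rw [SetLike.mem_coe]
    induction hu using Submodule.span_induction with
    | mem u hu =>
      obtain ⟨g, rfl⟩ := hu
      exact Submodule.subset_span ⟨f, g, hf, rfl⟩
    | zero => rw [hk_zero_right]; exact Submodule.zero_mem _
    | add a b _ _ ha hb => rw [hk_add_right]; exact Submodule.add_mem _ ha hb
    | smul q a _ ha => rw [hk_smul_right]; exact Submodule.smul_mem _ _ ha
  · apply Submodule.span_mono
    rintro z ⟨f, u, hf, rfl⟩
    exact ⟨f, lg u, hf, rfl⟩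

lemma KC_eq (k : Type*) [Field k] (F : Type*) [Field F] [Algebra k F] : KC k F = Cst k F := by
  have h := span_hk (F := F) (Set.range (algebraMap k F))
  have e1 : {z : HK F | ∃ (f : F) (u : FT F), f ∈ Set.range (algebraMap k F) ∧ z = hk (sy f) u} =
      {z | ∃ (c : k) (u : FT F), z = hk (sy (algebraMap k F c)) u} := by
    ext z
    constructor
    · rintro ⟨f, u, ⟨c, rfl⟩, rfl⟩
      exact ⟨c, u, rfl⟩
    · rintro ⟨c, u, rfl⟩
      exact ⟨_, u, ⟨c, rfl⟩, rfl⟩
  have e2 : {z : HK F | ∃ (f u : F), f ∈ Set.range (algebraMap k F) ∧ z = hk (sy f) (lg u)} =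
      {z | ∃ (c : k) (u : F), z = hk (sy (algebraMap k F c)) (lg u)} := by
    ext z
    constructor
    · rintro ⟨f, u, ⟨c, rfl⟩, rfl⟩
      exact ⟨c, u, rfl⟩
    · rintro ⟨c, u, rfl⟩
      exact ⟨_, u, ⟨c, rfl⟩, rfl⟩
  rw [e1, e2] at h
  exact h

end Pool.Agent.TN
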