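import Mathlib

/-!
# Weierstrass curves: the place at infinity of the function field
-/

set_option autoImplicit false
set_option linter.unusedSectionVars false

namespace Pool.Agent.TN

open Polynomial WeierstrassCurve.Affine WithZero

variable {k : Type*} [Field k] {W : WeierstrassCurve.Affine k}

/-- the degree of the norm -/
noncomputable def D (r : W.CoordinateRing) : WithBot ℕ := (Algebra.norm k[X] r).degree

lemma D_basis (p q : k[X]) : D (p • (1 : W.CoordinateRing) + q • CoordinateRing.mk W X) =
    max (2 • p.degree) (2 • q.degree + 3) := CoordinateRing.degree_norm_smul_basis p q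

lemma D_mul (r s : W.CoordinateRing) : D (r * s) = D r + D s := by
  unfold D; rw [map_mul, degree_mul]

lemma D_zero : D (0 : W.CoordinateRing) = ⊥ := by
  have := D_basis (W := W) 0 0
  simpa using this

lemma D_eq_bot {r : W.CoordinateRing} : D r = ⊥ ↔ r = 0 := by
  constructor
  · intro h
    obtain ⟨p, q, rfl⟩ := CoordinateRing.exists_smul_basis_eq r
    rw [D_basis] at h
    have hp : p = 0 := by
      by_contra hp
      have h1 : (2 : ℕ) • p.degree ≤ ⊥ := h ▸ le_max_left _ _
      rw [le_bot_iff, degree_eq_natDegree hp] at h1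
      exact absurd h1 (by simp [nsmul_eq_mul]; exact WithBot.coe_ne_bot)
    have hq : q = 0 := by
      by_contra hq
      have h1 : (2 : ℕ) • q.degree + 3 ≤ ⊥ := h ▸ le_max_right _ _
      rw [le_bot_iff, degree_eq_natDegree hq] at h1
      exact absurd h1 (by simp [nsmul_eq_mul]; exact WithBot.coe_ne_bot)
    rw [hp, hq, zero_smul, zero_smul, add_zero]
  · rintro rfl
    exact D_zero

lemma D_add (r s : W.CoordinateRing) : D (r + s) ≤ max (D r) (D s) := by
  obtain ⟨p, q, rfl⟩ := CoordinateRing.exists_smul_basis_eq r
  obtain ⟨p', q', rfl⟩ := CoordinateRing.exists_smul_basis_eq s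
  have e : p • (1 : W.CoordinateRing) + q • CoordinateRing.mk W X +
      (p' • (1 : W.CoordinateRing) + q' • CoordinateRing.mk W X) =
      (p + p') • (1 : W.CoordinateRing) + (q + q') • CoordinateRing.mk W X := by
    rw [add_smul, add_smul]; abel
  rw [e, D_basis, D_basis, D_basis]
  refine max_le ?_ ?_
  · have h1 : (p + p').degree ≤ max p.degree p'.degree := degree_add_le _ _
    have h2 : 2 • (p + p').degree ≤ 2 • max p.degree p'.degree := nsmul_le_nsmul_right h1 2
    refine h2.trans ?_
    rcases le_total p.degree p'.degree with h | h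
    · rw [max_eq_right h]; exact le_max_of_le_right (le_max_left _ _)
    · rw [max_eq_left h]; exact le_max_of_le_left (le_max_left _ _)
  · have h1 : (q + q').degree ≤ max q.degree q'.degree := degree_add_le _ _
    have h2 : 2 • (q + q').degree + 3 ≤ 2 • max q.degree q'.degree + 3 :=
      add_le_add_left (nsmul_le_nsmul_right h1 2) 3
    refine h2.trans ?_
    rcases le_total q.degree q'.degree with h | h
    · rw [max_eq_right h]; exact le_max_of_le_right (le_max_right _ _)
    · rw [max_eq_left h]; exact le_max_of_le_left (le_max_right _ _)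

open Classical in
/-- the absolute value at infinity on the coordinate ring -/
noncomputable def vR : Valuation W.CoordinateRing (WithZero (Multiplicative ℤ)) where
  toFun r := if r = 0 then 0 else exp (((D r).unbotD 0 : ℕ) : ℤ)
  map_zero' := by simp
  map_one' := by
    have h : D (1 : W.CoordinateRing) = 0 := by unfold D; rw [map_one, degree_one]
    rw [if_neg one_ne_zero, h]
    rfl
  map_mul' r s := by
    by_cases hr : r = 0
    · simp [hr]
    by_cases hs : s = 0
    · simp [hs]
    rw [if_neg hr, if_neg hs, if_neg (mul_ne_zero hr hs), ← exp_add, D_mul]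
    obtain ⟨m, hm⟩ := WithBot.ne_bot_iff_exists.mp (fun h => hr (D_eq_bot.mp h))
    obtain ⟨n, hn⟩ := WithBot.ne_bot_iff_exists.mp (fun h => hs (D_eq_bot.mp h))
    rw [← hm, ← hn]
    norm_cast
  map_add_le_max' r s := by
    by_cases hr : r = 0
    · simp [hr]
    by_cases hs : s = 0
    · simp [hs]
    by_cases hrs : r + s = 0
    · simp [hrs]
    rw [if_neg hr, if_neg hs, if_neg hrs]
    obtain ⟨m, hm⟩ := WithBot.ne_bot_iff_exists.mp (fun h => hr (D_eq_bot.mp h))
    obtain ⟨n, hn⟩ := WithBot.ne_bot_iff_exists.mp (fun h => hs (D_eq_bot.mp h))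
    obtain ⟨l, hl⟩ := WithBot.ne_bot_iff_exists.mp (fun h => hrs (D_eq_bot.mp h))
    have h := D_add r s
    rw [← hm, ← hn, ← hl] at h ⊢
    have h' : l ≤ max m n := by exact_mod_cast h
    rcases le_max_iff.mp h' with h' | h'
    · exact le_max_of_le_left (exp_le_exp.mpr (by simpa using h'))
    · exact le_max_of_le_right (exp_le_exp.mpr (by simpa using h'))

lemma vR_of_D {r : W.CoordinateRing} {n : ℕ} (h : D r = n) : vR r = exp (n : ℤ) := by
  have hr : r ≠ 0 := by
    rintro rfl
    rw [D_zero] at h
    exact absurd h (by exact WithBot.bot_ne_coe)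
  show (if r = 0 then 0 else exp (((D r).unbotD 0 : ℕ) : ℤ)) = _
  rw [if_neg hr, h]
  rfl

end Pool.Agent.TN
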