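import Pool.Agent.Lib_helper24.TN.B

/-!
# Weierstrass curves: the invariant derivation
-/

set_option autoImplicit false
set_option linter.unusedSectionVars false

namespace Pool.Agent.TN

open Polynomial WeierstrassCurve.Affine WithZero TrivSqZeroExt

variable {k : Type*} [Field k] {W : WeierstrassCurve.Affine k}

/-- the function `x` in the function field -/
noncomputable def xK : K W := inc xR

/-- the function `y` in the function field -/
noncomputable def yK : K W := inc yR

/-- the constants -/
noncomputable def cK : k →+* K W := (inc (W := W)).comp cR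

lemma eqK : Eqn W cK (xK : K W) yK := by
  have h := congrArg (inc (W := W)) (eqR (W := W))
  simp only [map_add, map_mul, map_pow] at h
  exact h

/-- dual numbers -/
abbrev T (W : WeierstrassCurve.Affine k) : Type _ := TrivSqZeroExt (K W) (K W)

/-- the derivative of `x` -/
noncomputable def dx : K W := 2 * yK + cK W.a₁ * xK + cK W.a₃

/-- the derivative of `y` -/
noncomputable def dy : K W := 3 * xK ^ 2 + 2 * cK W.a₂ * xK + cK W.a₄ - cK W.a₁ * yK

lemma eqT : Eqn W ((inlHom (K W) (K W)).comp cK) (inl xK + inr dx : T W) (inl yK + inr dy) := by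
  have h := eqK (W := W)
  unfold Eqn at h ⊢
  have e2 : ∀ a : T W, a ^ 2 = a * a := fun a => pow_two a
  have e3 : ∀ a : T W, a ^ 3 = a * a * a := fun a => by ring
  rw [e2, e2, e3]
  apply TrivSqZeroExt.ext
  · simp
    linear_combination h
  · simp
    unfold dx dy
    ring

/-- the deformation of the inclusion -/
noncomputable def phR : W.CoordinateRing →+* T W :=
  homR ((inlHom (K W) (K W)).comp cK) (inl xK + inr dx) (inl yK + inr dy) eqT

lemma fst_phR (r : W.CoordinateRing) : fst (phR r) = inc r := by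
  have : (fstHom (K W) (K W) (K W)).toRingHom.comp (phR (W := W)) = inc (W := W) := by
    apply hom_ext
    · intro c
      show fst (phR (cR c)) = _
      unfold phR
      rw [homR_c]
      simp
      rfl
    · show fst (phR xR) = _
      unfold phR
      rw [homR_x]
      simp
      rfl
    · show fst (phR yR) = _
      unfold phR
      rw [homR_y]
      simp
      rfl
  exact congrArg (fun f : W.CoordinateRing →+* K W => f r) this

/-- the deformation of the identity -/
noncomputable def ph : K W →+* T W :=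
  IsLocalization.lift (M := nonZeroDivisors W.CoordinateRing) (g := phR (W := W)) (by
    intro r
    rw [isUnit_iff_isUnit_fst, fst_phR, isUnit_iff_ne_zero]
    intro h
    exact nonZeroDivisors.coe_ne_zero r (inc_injective (by rw [h, map_zero])))

lemma ph_inc (r : W.CoordinateRing) : ph (W := W) (inc r) = phR r := IsLocalization.lift_eq _ _

lemma fst_ph (z : K W) : fst (ph (W := W) z) = z := by
  have : (fstHom (K W) (K W) (K W)).toRingHom.comp (ph (W := W)) = RingHom.id (K W) := by
    apply IsLocalization.ringHom_ext (nonZeroDivisors W.CoordinateRing)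
    refine RingHom.ext fun r => ?_
    show fst (ph (inc r)) = inc r
    rw [ph_inc, fst_phR]
  exact congrArg (fun f : K W →+* K W => f z) this

/-- the invariant derivation -/
noncomputable def dv (z : K W) : K W := snd (ph (W := W) z)

lemma dv_add (z w : K W) : dv (z + w) = dv z + dv w := by
  unfold dv; rw [map_add, snd_add]

lemma dv_mul (z w : K W) : dv (z * w) = z * dv w + w * dv z := by
  unfold dv; rw [map_mul, snd_mul, fst_ph, fst_ph, smul_eq_mul, op_smul_eq_smul, smul_eq_mul]

lemma dv_one : dv (1 : K W) = 0 := by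
  unfold dv; rw [map_one, snd_one]

lemma dv_c (c : k) : dv (cK c : K W) = 0 := by
  unfold dv
  show snd (ph (inc (cR c))) = 0
  rw [ph_inc]
  unfold phR
  rw [homR_c]
  simp

lemma dv_x : dv (xK : K W) = dx := by
  unfold dv
  show snd (ph (inc xR)) = _
  rw [ph_inc]
  unfold phR
  rw [homR_x]
  simp

lemma dv_y : dv (yK : K W) = dy := by
  unfold dv
  show snd (ph (inc yR)) = _
  rw [ph_inc]
  unfold phR
  rw [homR_y]
  simp

lemma dv_sub_c (z : K W) (c : k) : dv (z - cK c) = dv z := by
  have h := dv_add (z - cK c) (cK c)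
  rw [sub_add_cancel, dv_c, add_zero] at h
  exact h.symm

/-- the logarithmic derivative -/
noncomputable def ld (z : K W) : K W := dv z / z

lemma ld_mul {z w : K W} (hz : z ≠ 0) (hw : w ≠ 0) : ld (z * w) = ld z + ld w := by
  unfold ld
  rw [dv_mul]
  field_simp
  ring

lemma ld_one : ld (1 : K W) = 0 := by unfold ld; rw [dv_one, zero_div]

lemma ld_c (c : k) : ld (cK c : K W) = 0 := by unfold ld; rw [dv_c, zero_div]

lemma ld_inv {z : K W} (hz : z ≠ 0) : ld z⁻¹ = - ld z := by
  have h := ld_mul hz (inv_ne_zero hz)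
  rw [mul_inv_cancel₀ hz, ld_one] at h
  linear_combination -h

lemma ld_pow {z : K W} (hz : z ≠ 0) (n : ℕ) : ld (z ^ n) = n * ld z := by
  induction n with
  | zero => rw [pow_zero, ld_one]; simp
  | succ n ih =>
    rw [pow_succ, ld_mul (pow_ne_zero n hz) hz, ih]
    push_cast
    ring

lemma ld_zpow {z : K W} (hz : z ≠ 0) (n : ℤ) : ld (z ^ n) = n * ld z := by
  obtain ⟨m, rfl | rfl⟩ := n.eq_nat_or_neg
  · rw [zpow_natCast, ld_pow hz]; simp
  · rw [zpow_neg, zpow_natCast, ld_inv (pow_ne_zero m hz), ld_pow hz]; simp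

lemma ne_of_v {z : K W} {i : ℤ} (h : v (W := W) z = exp i) : z ≠ 0 := by
  rintro rfl
  rw [map_zero] at h
  exact exp_ne_zero h.symm

lemma inc_basis (p q : k[X]) : inc (p • (1 : W.CoordinateRing) + q • CoordinateRing.mk W X) =
    p.eval₂ cK xK + q.eval₂ cK xK * yK := by
  have h : (inc (W := W)) = homR cK xK yK eqK := by
    apply hom_ext
    · intro c; rw [homR_c]; rfl
    · rw [homR_x]; rfl
    · rw [homR_y]; rfl
  rw [h, homR_basis]

lemma v_c {c : k} (hc : c ≠ 0) : v (W := W) (cK c) = exp 0 := by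
  have h : (cK c : K W) = inc ((C c) • (1 : W.CoordinateRing) + (0 : k[X]) •
      CoordinateRing.mk W X) := by
    rw [inc_basis]; simp
  rw [h, v_basis (n := 0)]
  · rfl
  · rw [degree_C hc, degree_zero]
    rfl

lemma v_xc (c : k) : v (W := W) (xK - cK c) = exp 2 := by
  have h : (xK - cK c : K W) = inc ((X - C c : k[X]) • (1 : W.CoordinateRing) + (0 : k[X]) •
      CoordinateRing.mk W X) := by
    rw [inc_basis]; simp
  rw [h, v_basis (n := 2)]
  · rfl
  · rw [degree_X_sub_C, degree_zero]
    rfl

lemma v_x : v (W := W) xK = exp 2 := by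
  have h := v_xc (W := W) 0
  rwa [map_zero, sub_zero] at h

/-- `y + a x + b` has a pole of order three -/
lemma v_yab (a b : k) : v (W := W) (yK + cK a * xK + cK b) = exp 3 := by
  have h : (yK + cK a * xK + cK b : K W) = inc ((C a * X + C b : k[X]) • (1 : W.CoordinateRing) +
      (1 : k[X]) • CoordinateRing.mk W X) := by
    rw [inc_basis]; simp; ring
  rw [h, v_basis (n := 3)]
  · rfl
  · rw [degree_one]
    have h1 : (C a * X + C b : k[X]).degree ≤ 1 := degree_linear_le
    have h2 : 2 • (C a * X + C b : k[X]).degree ≤ 2 • (1 : WithBot ℕ) := nsmul_le_nsmul_right h1 2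
    rw [max_eq_right]
    · rfl
    · refine h2.trans ?_
      norm_num

lemma v_y : v (W := W) yK = exp 3 := by
  have h := v_yab (W := W) 0 0
  rwa [map_zero, zero_mul, add_zero, add_zero] at h

/-- **the Wronskian bound at infinity**: `f + g = 1`, `q f'/f` and `q g'/g` and their difference
have pole orders in `[lo, hi]`. -/
theorem wr {f g q A B : K W} (h : f + g = 1) (hA : A = q * ld f) (hB : B = q * ld g)
    {n n' : ℤ} (hf : v (W := W) f = exp n) (hg : v (W := W) g = exp n') {lo hi : ℤ}
    (a0 : A = 0 ∨ ∃ i, lo ≤ i ∧ i ≤ hi ∧ v (W := W) A = exp i)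
    (b0 : B = 0 ∨ ∃ i, lo ≤ i ∧ i ≤ hi ∧ v (W := W) B = exp i)
    (c0 : A - B = 0 ∨ ∃ i, lo ≤ i ∧ i ≤ hi ∧ v (W := W) (A - B) = exp i) :
    (A = 0 ∧ B = 0) ∨ (n = n' ∧ 1 ≤ n ∧ n ≤ hi - lo) ∨ (n = 0 ∧ n' = 0) ∨
      (-(hi - lo) ≤ n ∧ n ≤ -1 ∧ n' = 0) ∨ (n = 0 ∧ -(hi - lo) ≤ n' ∧ n' ≤ -1) := by
  have hf0 : f ≠ 0 := ne_of_v hf
  have hg0 : g ≠ 0 := ne_of_v hg
  have hd : f * ld f + g * ld g = 0 := by
    have h2 := congrArg dv h
    rw [dv_add, dv_one] at h2
    unfold ld
    rw [mul_div_cancel₀ _ hf0, mul_div_cancel₀ _ hg0]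
    exact h2
  have hN : f * A + g * B = 0 := by rw [hA, hB]; linear_combination q * hd
  by_cases hA0 : A = 0
  · left
    refine ⟨hA0, ?_⟩
    rw [hA0, mul_zero, zero_add] at hN
    exact (mul_eq_zero.mp hN).resolve_left hg0
  right
  obtain ⟨i, i0, i5, hi'⟩ := a0.resolve_left hA0
  have hB0 : B ≠ 0 := by
    intro h'
    rw [h', mul_zero, add_zero] at hN
    exact mul_ne_zero hf0 hA0 hN
  obtain ⟨j, j0, j5, hj⟩ := b0.resolve_left hB0
  have hS0 : A - B ≠ 0 := by
    intro h'
    have h2 : A = B := sub_eq_zero.mp h'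
    apply hB0
    rw [h2, ← add_mul, h, one_mul] at hN
    exact hN
  obtain ⟨l, l0, l5, hl⟩ := c0.resolve_left hS0
  have hg1 : g = 1 - f := by rw [← h]; ring
  have e1 : f * (A - B) = - B := by rw [hg1] at hN; linear_combination hN
  have e2 : g * (A - B) = A := by rw [hg1] at hN ⊢; linear_combination -hN
  have b1 : n + l = j := by
    have := congrArg (v (W := W)) e1
    rw [map_mul, Valuation.map_neg, hf, hl, hj, ← exp_add, exp_inj] at this
    exact this
  have b2 : n' + l = i := by
    have := congrArg (v (W := W)) e2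
    rw [map_mul, hg, hl, hi', ← exp_add, exp_inj] at this
    exact this
  rcases lt_trichotomy n 0 with hn0 | hn0 | hn0
  · -- `f` has a zero
    have h3 : v (W := W) f < 1 := by rw [hf, ← exp_zero, exp_lt_exp]; exact hn0
    have h4 : v (W := W) g = 1 := by rw [hg1]; exact Valuation.map_one_sub_of_lt _ h3
    rw [hg, exp_eq_one] at h4
    right; right; left
    exact ⟨by omega, by omega, h4⟩
  · have h4 : v (W := W) g ≤ 1 := by
      rw [hg1]
      refine (Valuation.map_sub _ _ _).trans (max_le (by rw [map_one]) ?_)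
      rw [hf, hn0, exp_zero]
    rw [hg, ← exp_zero, exp_le_exp] at h4
    rcases eq_or_lt_of_le h4 with h5 | h5
    · exact Or.inr (Or.inl ⟨hn0, h5⟩)
    · exact Or.inr (Or.inr (Or.inr ⟨hn0, by omega, by omega⟩))
  · have h3 : v (W := W) (1 : K W) < v (W := W) f := by
      rw [hf, map_one, ← exp_zero, exp_lt_exp]; exact hn0
    have h4 : v (W := W) g = v (W := W) f := by rw [hg1]; exact Valuation.map_sub_eq_of_lt_right _ h3
    rw [hg, hf, exp_inj] at h4
    left
    exact ⟨h4.symm, by omega, by omega⟩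

end Pool.Agent.TN
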