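import Pool.Agent.Lib_helper24.TN.KA

/-!
# Linear algebra for a point of order five
-/

set_option autoImplicit false
set_option linter.unusedSectionVars false
set_option linter.unusedVariables false
set_option linter.unusedSimpArgs false

namespace Pool.Agent.TN.N5

theorem alg5 {V : Type*} [AddCommGroup V] [Module ℚ V]
    {φ0 φ1 φ2 φ3 : V →ₗ[ℚ] ℚ} {y0 y1 y2 y3 τ u0 u1 u2 u3 : V}
    {w : ExteriorAlgebra ℚ V}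
    (f00 : φ0 y0 = 1)
    (f01 : φ0 y1 = 0)
    (f02 : φ0 y2 = 0)
    (f03 : φ0 y3 = 0)
    (g0τ : φ0 τ = 0)
    (f10 : φ1 y0 = 0)
    (f11 : φ1 y1 = 1)
    (f12 : φ1 y2 = 0)
    (f13 : φ1 y3 = 0)
    (g1τ : φ1 τ = 0)
    (f20 : φ2 y0 = 0)
    (f21 : φ2 y1 = 0)
    (f22 : φ2 y2 = 1)
    (f23 : φ2 y3 = 0)
    (g2τ : φ2 τ = 0)
    (f30 : φ3 y0 = 0)
    (f31 : φ3 y1 = 0)
    (f32 : φ3 y2 = 0)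
    (f33 : φ3 y3 = 1)
    (g3τ : φ3 τ = 0)
    (w01 : ct φ0 φ1 w = 0)
    (w02 : ct φ0 φ2 w = 0)
    (w03 : ct φ0 φ3 w = 0)
    (w12 : ct φ1 φ2 w = 0)
    (w13 : ct φ1 φ3 w = 0)
    (w23 : ct φ2 φ3 w = 0)
    (h : ExteriorAlgebra.ι ℚ (((-1) : ℚ) • y0 + ((-1) : ℚ) • y2 + ((-1) : ℚ) • y3 + (1 : ℚ) • τ) * ExteriorAlgebra.ι ℚ ((1 : ℚ) • y0) * ExteriorAlgebra.ι ℚ u0 +
      ExteriorAlgebra.ι ℚ ((1 : ℚ) • y0 + (1 : ℚ) • y2) * ExteriorAlgebra.ι ℚ ((1 : ℚ) • y1) * ExteriorAlgebra.ι ℚ u1 +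
      ExteriorAlgebra.ι ℚ ((1 : ℚ) • y1 + (1 : ℚ) • y3) * ExteriorAlgebra.ι ℚ ((1 : ℚ) • y2) * ExteriorAlgebra.ι ℚ u2 +
      ExteriorAlgebra.ι ℚ (((-1) : ℚ) • y0 + ((-1) : ℚ) • y1 + ((-1) : ℚ) • y3 + (1 : ℚ) • τ) * ExteriorAlgebra.ι ℚ ((1 : ℚ) • y3) * ExteriorAlgebra.ι ℚ u3 + w = 0) :
    ∃ p0 p1 p2 p3 q0 q1 q2 q3 p4 q4 b1 b2 : ℚ, b1 • τ = 0 ∧
      b2 • τ = 0 ∧
      u0 = p0 • (y0) + q0 • (y1 + (τ - y0 - y1 - y2 - y3)) + p4 • (-(τ - y0 - y1 - y2 - y3)) + q4 • (-(y0 + y3)) + b1 • (y1 - y0) + b2 • (y2 - y1) ∧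
      u1 = p1 • (y1) + q1 • (y2 + y0) + p4 • (-(τ - y0 - y1 - y2 - y3)) + q4 • (-(y0 + y3)) + b1 • (y2 - y0) + b2 • (y3 - y1) ∧
      u2 = p2 • (y2) + q2 • (y3 + y1) + p4 • (-(τ - y0 - y1 - y2 - y3)) + q4 • (-(y0 + y3)) + b1 • (y3 - y0) + b2 • ((τ - y0 - y1 - y2 - y3) - y1) ∧
      u3 = p3 • (y3) + q3 • ((τ - y0 - y1 - y2 - y3) + y2) + p4 • (-(τ - y0 - y1 - y2 - y3)) + q4 • (-(y0 + y3)) + b1 • ((τ - y0 - y1 - y2 - y3) - y0) + b2 • (y0 - y1) := by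
  have key : ∀ {φ ψ : V →ₗ[ℚ] ℚ}, ct φ ψ w = 0 →
      (((φ (((-1) : ℚ) • y0 + ((-1) : ℚ) • y2 + ((-1) : ℚ) • y3 + (1 : ℚ) • τ)) * (ψ ((1 : ℚ) • y0)) - (φ ((1 : ℚ) • y0)) * (ψ (((-1) : ℚ) • y0 + ((-1) : ℚ) • y2 + ((-1) : ℚ) • y3 + (1 : ℚ) • τ))) • u0 - ((φ (((-1) : ℚ) • y0 + ((-1) : ℚ) • y2 + ((-1) : ℚ) • y3 + (1 : ℚ) • τ)) * (ψ u0) - (φ u0) * (ψ (((-1) : ℚ) • y0 + ((-1) : ℚ) • y2 + ((-1) : ℚ) • y3 + (1 : ℚ) • τ))) • ((1 : ℚ) • y0) + ((φ ((1 : ℚ) • y0)) * (ψ u0) - (φ u0) * (ψ ((1 : ℚ) • y0))) • (((-1) : ℚ) • y0 + ((-1) : ℚ) • y2 + ((-1) : ℚ) • y3 + (1 : ℚ) • τ)) +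
      (((φ ((1 : ℚ) • y0 + (1 : ℚ) • y2)) * (ψ ((1 : ℚ) • y1)) - (φ ((1 : ℚ) • y1)) * (ψ ((1 : ℚ) • y0 + (1 : ℚ) • y2))) • u1 - ((φ ((1 : ℚ) • y0 + (1 : ℚ) • y2)) * (ψ u1) - (φ u1) * (ψ ((1 : ℚ) • y0 + (1 : ℚ) • y2))) • ((1 : ℚ) • y1) + ((φ ((1 : ℚ) • y1)) * (ψ u1) - (φ u1) * (ψ ((1 : ℚ) • y1))) • ((1 : ℚ) • y0 + (1 : ℚ) • y2)) +
      (((φ ((1 : ℚ) • y1 + (1 : ℚ) • y3)) * (ψ ((1 : ℚ) • y2)) - (φ ((1 : ℚ) • y2)) * (ψ ((1 : ℚ) • y1 + (1 : ℚ) • y3))) • u2 - ((φ ((1 : ℚ) • y1 + (1 : ℚ) • y3)) * (ψ u2) - (φ u2) * (ψ ((1 : ℚ) • y1 + (1 : ℚ) • y3))) • ((1 : ℚ) • y2) + ((φ ((1 : ℚ) • y2)) * (ψ u2) - (φ u2) * (ψ ((1 : ℚ) • y2))) • ((1 : ℚ) • y1 + (1 : ℚ) • y3)) +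
      (((φ (((-1) : ℚ) • y0 + ((-1) : ℚ) • y1 + ((-1) : ℚ) • y3 + (1 : ℚ) • τ)) * (ψ ((1 : ℚ) • y3)) - (φ ((1 : ℚ) • y3)) * (ψ (((-1) : ℚ) • y0 + ((-1) : ℚ) • y1 + ((-1) : ℚ) • y3 + (1 : ℚ) • τ))) • u3 - ((φ (((-1) : ℚ) • y0 + ((-1) : ℚ) • y1 + ((-1) : ℚ) • y3 + (1 : ℚ) • τ)) * (ψ u3) - (φ u3) * (ψ (((-1) : ℚ) • y0 + ((-1) : ℚ) • y1 + ((-1) : ℚ) • y3 + (1 : ℚ) • τ))) • ((1 : ℚ) • y3) + ((φ ((1 : ℚ) • y3)) * (ψ u3) - (φ u3) * (ψ ((1 : ℚ) • y3))) • (((-1) : ℚ) • y0 + ((-1) : ℚ) • y1 + ((-1) : ℚ) • y3 + (1 : ℚ) • τ)) = 0 := by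
    intro φ ψ hw
    have h1 := congrArg (ct φ ψ) h
    rw [map_add (ct φ ψ), map_add (ct φ ψ), map_add (ct φ ψ), map_add (ct φ ψ), map_zero, hw, add_zero, ct_mul3, ct_mul3, ct_mul3, ct_mul3, ← map_add (ExteriorAlgebra.ι ℚ), ← map_add (ExteriorAlgebra.ι ℚ), ← map_add (ExteriorAlgebra.ι ℚ)] at h1
    have h2 := (ExteriorAlgebra.ι_eq_zero_iff _).mp h1
    simp only [map_add, map_smul, map_sub] at h2 ⊢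
    linear_combination (norm := module) h2
  have e01 := key w01
  have e02 := key w02
  have e03 := key w03
  have e12 := key w12
  have e13 := key w13
  have e23 := key w23
  simp only [map_add, map_smul, smul_eq_mul, f00, f01, f02, f03, g0τ, f10, f11, f12, f13, g1τ, f20, f21, f22, f23, g2τ, f30, f31, f32, f33, g3τ] at e01 e02 e03 e12 e13 e23
  norm_num at e01 e02 e03 e12 e13 e23
  have s0 : (-1) * φ0 u1 + 1 * φ0 u2 + (-1) * φ1 u0 + 1 * φ2 u1 = 0 := by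
    have := congrArg φ2 e01
    simp only [map_add, map_sub, map_neg, map_smul, smul_eq_mul, map_zero, f00, f01, f02, f03, g0τ, f10, f11, f12, f13, g1τ, f20, f21, f22, f23, g2τ, f30, f31, f32, f33, g3τ] at this
    linear_combination this
  have S0 : ∀ v : V, ((-1) * φ0 u1 + 1 * φ0 u2 + (-1) * φ1 u0 + 1 * φ2 u1) • v = 0 := fun v => by rw [s0, zero_smul]
  have s1 : (-1) * φ0 u3 + (-1) * φ1 u0 + 1 * φ1 u3 + 1 * φ3 u1 = 0 := by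
    have := congrArg φ3 e01
    simp only [map_add, map_sub, map_neg, map_smul, smul_eq_mul, map_zero, f00, f01, f02, f03, g0τ, f10, f11, f12, f13, g1τ, f20, f21, f22, f23, g2τ, f30, f31, f32, f33, g3τ] at this
    linear_combination this
  have S1 : ∀ v : V, ((-1) * φ0 u3 + (-1) * φ1 u0 + 1 * φ1 u3 + 1 * φ3 u1) • v = 0 := fun v => by rw [s1, zero_smul]
  have s2 : (-1) * φ0 u2 + (-1) * φ2 u0 + 1 * φ2 u3 + 1 * φ3 u0 = 0 := by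
    have := congrArg φ3 e02
    simp only [map_add, map_sub, map_neg, map_smul, smul_eq_mul, map_zero, f00, f01, f02, f03, g0τ, f10, f11, f12, f13, g1τ, f20, f21, f22, f23, g2τ, f30, f31, f32, f33, g3τ] at this
    linear_combination this
  have S2 : ∀ v : V, ((-1) * φ0 u2 + (-1) * φ2 u0 + 1 * φ2 u3 + 1 * φ3 u0) • v = 0 := fun v => by rw [s2, zero_smul]
  have s3 : (-1) * φ1 u2 + 1 * φ2 u3 + (-1) * φ3 u1 + 1 * φ3 u2 = 0 := by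
    have := congrArg φ3 e12
    simp only [map_add, map_sub, map_neg, map_smul, smul_eq_mul, map_zero, f00, f01, f02, f03, g0τ, f10, f11, f12, f13, g1τ, f20, f21, f22, f23, g2τ, f30, f31, f32, f33, g3τ] at this
    linear_combination this
  have S3 : ∀ v : V, ((-1) * φ1 u2 + 1 * φ2 u3 + (-1) * φ3 u1 + 1 * φ3 u2) • v = 0 := fun v => by rw [s3, zero_smul]
  have c10τ : ((-1/5) * φ0 u2 + (1/5) * φ0 u3 + (3/5) * φ1 u0 + (-1/5) * φ1 u3 + (-2/5) * φ2 u3) • τ = 0 := by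
    linear_combination (norm := module) ((3/5) : ℚ) • e01 + ((1/5) : ℚ) • e02 + ((-1/5) : ℚ) • e03 + ((3/5) : ℚ) • e12 + ((1/5) : ℚ) • e13 + ((3/5) : ℚ) • e23 + ((-3/5) : ℚ) • S0 y0 + ((-1/5) : ℚ) • S1 y0 + ((-3/5) : ℚ) • S2 y0 + ((1/5) : ℚ) • S0 y1 + ((-1/5) : ℚ) • S1 y1 + ((-3/5) : ℚ) • S3 y1 + ((-3/5) : ℚ) • S0 y2 + ((-1/5) : ℚ) • S2 y2 + ((1/5) : ℚ) • S3 y2 + ((-3/5) : ℚ) • S1 y3 + ((-1/5) : ℚ) • S2 y3 + ((-3/5) : ℚ) • S3 y3 + ((1/5) : ℚ) • S2 τ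
  have c11τ : ((-2/5) * φ0 u2 + (2/5) * φ0 u3 + (1/5) * φ1 u0 + (-2/5) * φ1 u3 + (1/5) * φ2 u3) • τ = 0 := by
    linear_combination (norm := module) ((1/5) : ℚ) • e01 + ((2/5) : ℚ) • e02 + ((-2/5) : ℚ) • e03 + ((1/5) : ℚ) • e12 + ((2/5) : ℚ) • e13 + ((1/5) : ℚ) • e23 + ((-1/5) : ℚ) • S0 y0 + ((-2/5) : ℚ) • S1 y0 + ((-1/5) : ℚ) • S2 y0 + ((2/5) : ℚ) • S0 y1 + ((-2/5) : ℚ) • S1 y1 + ((-1/5) : ℚ) • S3 y1 + ((-1/5) : ℚ) • S0 y2 + ((-2/5) : ℚ) • S2 y2 + ((2/5) : ℚ) • S3 y2 + ((-1/5) : ℚ) • S1 y3 + ((-2/5) : ℚ) • S2 y3 + ((-1/5) : ℚ) • S3 y3 + ((2/5) : ℚ) • S2 τ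
  have h0 : u0 = (1 * φ0 u0 + (-6/5) * φ0 u2 + (1/5) * φ0 u3 + (3/5) * φ1 u0 + (-1/5) * φ1 u3 + (-1) * φ2 u0 + (3/5) * φ2 u3) • (y0) +
      ((-3/5) * φ0 u2 + (3/5) * φ0 u3 + (4/5) * φ1 u0 + (-3/5) * φ1 u3 + (-1) * φ2 u0 + (4/5) * φ2 u3) • (y1 + (τ - y0 - y1 - y2 - y3)) +
      ((-1/5) * φ0 u2 + (1/5) * φ0 u3 + (3/5) * φ1 u0 + (-1/5) * φ1 u3 + (3/5) * φ2 u3) • (-(τ - y0 - y1 - y2 - y3)) +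
      ((-3/5) * φ0 u2 + (-2/5) * φ0 u3 + (-1/5) * φ1 u0 + (2/5) * φ1 u3 + (4/5) * φ2 u3) • (-(y0 + y3)) +
      ((-1/5) * φ0 u2 + (1/5) * φ0 u3 + (3/5) * φ1 u0 + (-1/5) * φ1 u3 + (-2/5) * φ2 u3) • (y1 - y0) +
      ((-2/5) * φ0 u2 + (2/5) * φ0 u3 + (1/5) * φ1 u0 + (-2/5) * φ1 u3 + (1/5) * φ2 u3) • (y2 - y1) := by
    linear_combination (norm := module) (1 : ℚ) • e02 + (1 : ℚ) • S0 y1 + ((-1) : ℚ) • c11τ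
  have h1 : u1 = ((-1/5) * φ0 u2 + (1/5) * φ0 u3 + (-2/5) * φ1 u0 + 1 * φ1 u1 + (-1/5) * φ1 u3 + (-2/5) * φ2 u3) • (y1) +
      (1 * φ0 u1 + (-3/5) * φ0 u2 + (-2/5) * φ0 u3 + (-1/5) * φ1 u0 + (2/5) * φ1 u3 + (-1/5) * φ2 u3) • (y2 + y0) +
      ((-1/5) * φ0 u2 + (1/5) * φ0 u3 + (3/5) * φ1 u0 + (-1/5) * φ1 u3 + (3/5) * φ2 u3) • (-(τ - y0 - y1 - y2 - y3)) +
      ((-3/5) * φ0 u2 + (-2/5) * φ0 u3 + (-1/5) * φ1 u0 + (2/5) * φ1 u3 + (4/5) * φ2 u3) • (-(y0 + y3)) +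
      ((-1/5) * φ0 u2 + (1/5) * φ0 u3 + (3/5) * φ1 u0 + (-1/5) * φ1 u3 + (-2/5) * φ2 u3) • (y2 - y0) +
      ((-2/5) * φ0 u2 + (2/5) * φ0 u3 + (1/5) * φ1 u0 + (-2/5) * φ1 u3 + (1/5) * φ2 u3) • (y3 - y1) := by
    linear_combination (norm := module) (1 : ℚ) • e01 + ((-1) : ℚ) • c10τ + (1 : ℚ) • c11τ
  have h2 : u2 = ((-1/5) * φ0 u2 + (1/5) * φ0 u3 + (-2/5) * φ1 u0 + (-1/5) * φ1 u3 + 1 * φ2 u2 + (-2/5) * φ2 u3) • (y2) +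
      ((-3/5) * φ0 u2 + (3/5) * φ0 u3 + (-1/5) * φ1 u0 + 1 * φ1 u2 + (-3/5) * φ1 u3 + (-1/5) * φ2 u3) • (y3 + y1) +
      ((-1/5) * φ0 u2 + (1/5) * φ0 u3 + (3/5) * φ1 u0 + (-1/5) * φ1 u3 + (3/5) * φ2 u3) • (-(τ - y0 - y1 - y2 - y3)) +
      ((-3/5) * φ0 u2 + (-2/5) * φ0 u3 + (-1/5) * φ1 u0 + (2/5) * φ1 u3 + (4/5) * φ2 u3) • (-(y0 + y3)) +
      ((-1/5) * φ0 u2 + (1/5) * φ0 u3 + (3/5) * φ1 u0 + (-1/5) * φ1 u3 + (-2/5) * φ2 u3) • (y3 - y0) +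
      ((-2/5) * φ0 u2 + (2/5) * φ0 u3 + (1/5) * φ1 u0 + (-2/5) * φ1 u3 + (1/5) * φ2 u3) • ((τ - y0 - y1 - y2 - y3) - y1) := by
    linear_combination (norm := module) (1 : ℚ) • e01 + (1 : ℚ) • e12 + ((-1) : ℚ) • S0 y0 + ((-1) : ℚ) • S0 y2 + ((-1) : ℚ) • c10τ
  have h3 : u3 = ((-1/5) * φ0 u2 + (-4/5) * φ0 u3 + (-2/5) * φ1 u0 + (-1/5) * φ1 u3 + (3/5) * φ2 u3 + 1 * φ3 u3) • (y3) +
      ((2/5) * φ0 u2 + (-2/5) * φ0 u3 + (-1/5) * φ1 u0 + (-3/5) * φ1 u3 + (4/5) * φ2 u3) • ((τ - y0 - y1 - y2 - y3) + y2) +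
      ((-1/5) * φ0 u2 + (1/5) * φ0 u3 + (3/5) * φ1 u0 + (-1/5) * φ1 u3 + (3/5) * φ2 u3) • (-(τ - y0 - y1 - y2 - y3)) +
      ((-3/5) * φ0 u2 + (-2/5) * φ0 u3 + (-1/5) * φ1 u0 + (2/5) * φ1 u3 + (4/5) * φ2 u3) • (-(y0 + y3)) +
      ((-1/5) * φ0 u2 + (1/5) * φ0 u3 + (3/5) * φ1 u0 + (-1/5) * φ1 u3 + (-2/5) * φ2 u3) • ((τ - y0 - y1 - y2 - y3) - y0) +
      ((-2/5) * φ0 u2 + (2/5) * φ0 u3 + (1/5) * φ1 u0 + (-2/5) * φ1 u3 + (1/5) * φ2 u3) • (y0 - y1) := by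
    linear_combination (norm := module) (1 : ℚ) • e02 + ((-1) : ℚ) • e03 + (1 : ℚ) • S0 y1 + ((-1) : ℚ) • S1 y1 + ((-1) : ℚ) • S2 y2 + ((-1) : ℚ) • S2 y3 + (1 : ℚ) • S2 τ + (1 : ℚ) • c10τ + ((-2) : ℚ) • c11τ
  exact ⟨_, _, _, _, _, _, _, _, _, _, _, _, c10τ, c11τ, h0, h1, h2, h3⟩
end Pool.Agent.TN.N5
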