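import Pool.Agent.Lib_helper24.TN.N5A
import Pool.Agent.Lib_helper24.TN.N4K

/-!
# The closed elements supported on the multiples of a point of order five: units, pentagon
-/

set_option autoImplicit false
set_option linter.unusedSectionVars false

open scoped TensorProduct

namespace Pool.Agent.TN.N5

open MK4

/-! ### independence of `x`, `x - t`, `y`, `y - t x` modulo constants -/

section K

variable {k : Type*} [Field k] {t : k}

/-- monomials in `x`, `x - t`, `y`, `y - t x` -/
noncomputable def mo (t : k) (a b c d : ℤ) : K (Wt t t) :=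
  xK ^ a * (xK - cK t) ^ b * yK ^ c * (yK + cK (-t) * xK + cK 0) ^ d

/-- `x (x - t) f'/f` for a monomial `f` -/
noncomputable def L (t : k) (a b c d : k) : K (Wt t t) :=
  N7 (t ^ 2 * (a + 2 * c + d)) (-(2 * t - t ^ 2) * a - t * b - (4 * t - t ^ 2) * c - (3 * t - t ^ 2) * d)
    (-t * (2 * a + 2 * c + d)) ((1 - t) * (a + b + 2 * c) + (2 - t) * d)
    (2 * a + 2 * b + 3 * c + 3 * d) 0 0

lemma L_ne (ht : t ≠ 0) {a b c d : k} (h : L t a b c d = 0) [CharZero k] :
    a = 0 ∧ b = 0 ∧ c = 0 ∧ d = 0 := by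
  unfold L at h
  have h5 : 2 * a + 2 * b + 3 * c + 3 * d = 0 := by
    by_contra hne
    exact ne_of_v (v5 hne) h
  rw [h5] at h
  have h4 : (1 - t) * (a + b + 2 * c) + (2 - t) * d = 0 := by
    by_contra hne
    exact ne_of_v (v4 hne) h
  rw [h4] at h
  have h3 : -t * (2 * a + 2 * c + d) = 0 := by
    by_contra hne
    exact ne_of_v (v3 hne) h
  rw [h3] at h
  have h2 : -(2 * t - t ^ 2) * a - t * b - (4 * t - t ^ 2) * c - (3 * t - t ^ 2) * d = 0 := by
    by_contra hne
    exact ne_of_v (v2 hne) h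
  rw [h2] at h
  have h0 : t ^ 2 * (a + 2 * c + d) = 0 := by
    by_contra hne
    apply ne_of_v (v_c (W := Wt t t) hne)
    rw [← h]
    unfold N7
    simp
  have g3 : 2 * a + 2 * c + d = 0 := (mul_eq_zero.mp h3).resolve_left (neg_ne_zero.mpr ht)
  have g0 : a + 2 * c + d = 0 := (mul_eq_zero.mp h0).resolve_left (pow_ne_zero 2 ht)
  have ha : a = 0 := by linear_combination g3 - g0
  have hd : d = -2 * c := by linear_combination g0 - ha
  have g2 : b = (2 - t) * c := by
    apply mul_left_cancel₀ ht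
    rw [ha, hd] at h2
    linear_combination -h2
  have hc : c = 0 := by
    by_contra hc
    have f1 : (1 - 2 * t) * c = 0 := by
      rw [ha, hd, g2] at h5
      linear_combination h5
    have f2 : ((1 - t) * (2 - t) - 2) * c = 0 := by
      rw [ha, hd, g2] at h4
      linear_combination h4
    have f3 := (mul_eq_zero.mp f1).resolve_right hc
    have f4 := (mul_eq_zero.mp f2).resolve_right hc
    have f5 : (5 : k) = 0 := by linear_combination (-4) * f4 + (5 - 2 * t) * f3
    norm_num at f5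
  exact ⟨ha, by rw [g2, hc, mul_zero], hc, by rw [hd, hc, mul_zero]⟩

lemma ld_mo (a b c d : ℤ) : xK * (xK - cK t) * ld (mo t a b c d) = L t a b c d := by
  have hx : (xK : K (Wt t t)) ≠ 0 := ne_of_v v_x
  have hx1 : (xK - cK t : K (Wt t t)) ≠ 0 := ne_of_v (v_xc t)
  have hy : (yK : K (Wt t t)) ≠ 0 := ne_of_v v_y
  have hw : (yK + cK (-t) * xK + cK 0 : K (Wt t t)) ≠ 0 := ne_of_v (v_yab (-t) 0)
  have he := eqW (b := t) (c := t)
  have e : ld (mo t a b c d) = (a : K (Wt t t)) * (dx / xK) +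
      (b : K (Wt t t)) * (dx / (xK - cK t)) + (c : K (Wt t t)) * (dy / yK) +
      (d : K (Wt t t)) * ((dy - cK t * dx) / (yK + cK (-t) * xK + cK 0)) := by
    unfold mo
    rw [ld_mul (mul_ne_zero (mul_ne_zero (zpow_ne_zero _ hx) (zpow_ne_zero _ hx1))
      (zpow_ne_zero _ hy)) (zpow_ne_zero _ hw),
      ld_mul (mul_ne_zero (zpow_ne_zero _ hx) (zpow_ne_zero _ hx1)) (zpow_ne_zero _ hy),
      ld_mul (zpow_ne_zero _ hx) (zpow_ne_zero _ hx1), ld_zpow hx, ld_zpow hx1, ld_zpow hy,
      ld_zpow hw]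
    have : dv (yK + cK (-t) * xK + cK 0 : K (Wt t t)) = dy - cK t * dx := by
      rw [dv_add, dv_add, dv_mul, dv_c, dv_c, dv_x, dv_y, map_neg]; ring
    unfold ld
    rw [dv_sub_c, dv_x, dv_y, this]
  have hdx : (dx : K (Wt t t)) = 2 * yK + (1 - cK t) * xK - cK t := by
    show 2 * yK + cK (1 - t) * xK + cK (-t) = _
    rw [map_sub, map_one, map_neg]; ring
  have hdy : (dy : K (Wt t t)) = 3 * xK ^ 2 - 2 * cK t * xK - (1 - cK t) * yK := by
    show 3 * xK ^ 2 + 2 * cK (-t) * xK + cK 0 - cK (1 - t) * yK = _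
    rw [map_sub, map_one, map_neg, map_zero]; ring
  have e1 : xK * (xK - cK t) * (dx / xK) = (xK - cK t) * (dx : K (Wt t t)) := by
    field_simp
  have e2 : xK * (xK - cK t) * (dx / (xK - cK t)) = xK * (dx : K (Wt t t)) := by
    field_simp
  set τ : K (Wt t t) := cK t with hτ
  have e3 : xK * (xK - τ) * (dy / yK) =
      3 * xK * yK - 2 * τ * yK + 2 * (1 - τ) * xK ^ 2 - (4 * τ - τ ^ 2) * xK +
        2 * τ ^ 2 := by
    rw [← mul_div_assoc, div_eq_iff hy, hdy]
    linear_combination (-(3 * xK - 2 * τ)) * he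
  have e4 : xK * (xK - τ) * ((dy - τ * dx) / (yK + cK (-t) * xK + cK 0)) =
      3 * xK * yK - τ * yK + (2 - τ) * xK ^ 2 + (τ ^ 2 - 3 * τ) * xK + τ ^ 2 := by
    rw [← mul_div_assoc, div_eq_iff hw, hdy, hdx, map_neg, map_zero, ← hτ]
    linear_combination (-(3 * xK - τ)) * he
  have hc : ∀ n : ℤ, (cK ((n : k)) : K (Wt t t)) = (n : K (Wt t t)) := fun n => map_intCast _ n
  rw [e]
  unfold L N7
  simp only [map_sub, map_add, map_mul, map_neg, map_pow, map_zero, map_one, hc, map_ofNat, ← hτ]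
  rw [hdx] at e1 e2
  rw [map_neg, map_zero, ← hτ] at e4
  rw [hdx] at e4 ⊢
  linear_combination (a : K (Wt t t)) * e1 + (b : K (Wt t t)) * e2 + (c : K (Wt t t)) * e3 +
    (d : K (Wt t t)) * e4

end K

section F

variable {k : Type*} [Field k] {F : Type*} [Field F] [Algebra k F] {t : k} {x y : F}

/-- monomials -/
def M (t : k) (x y : F) (a b c d : ℤ) : F :=
  x ^ a * (x - algebraMap k F t) ^ b * y ^ c * (y - algebraMap k F t * x) ^ d

lemma io_mo (h : Gen t t x y) (a b c d : ℤ) : TN.io h (mo t a b c d) = M t x y a b c d := by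
  unfold mo M
  rw [map_mul, map_mul, map_mul, map_zpow₀, map_zpow₀, map_zpow₀, map_zpow₀, map_sub, map_add,
    map_add, map_mul, io_x, io_y, io_c, io_c, io_c, map_neg, map_zero]
  congr 2
  ring

/-- a monomial is constant only if the exponents vanish -/
lemma M_const [CharZero k] (ht : t ≠ 0) (h : Gen t t x y) {a b c d : ℤ} {e : k}
    (hM : M t x y a b c d = algebraMap k F e) : a = 0 ∧ b = 0 ∧ c = 0 ∧ d = 0 := by
  have h1 : mo t a b c d = cK e := by
    apply io_inj h
    rw [io_mo h, io_c, hM]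
  have h2 := ld_mo (t := t) a b c d
  rw [h1, ld_c, mul_zero] at h2
  obtain ⟨ea, eb, ec, ed⟩ := L_ne ht h2.symm
  exact ⟨by exact_mod_cast ea, by exact_mod_cast eb, by exact_mod_cast ec, by exact_mod_cast ed⟩

lemma Gen.w_ne (h : Gen t t x y) : y - algebraMap k F t * x ≠ 0 := by
  have := h.yab_ne (-t) 0
  rw [map_neg, map_zero] at this
  intro h'
  apply this
  linear_combination h'

/-- the five functions `t / x(z + 2jP)` -/
def v (t : k) (x y : F) : Fin 5 → F :=
  ![algebraMap k F t / x,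
    y * (x - algebraMap k F t) / (x * (y - algebraMap k F t * x)),
    -y / (x - algebraMap k F t),
    x ^ 2 / y,
    (y - algebraMap k F t * x) / y]

/-- the pentagon -/
lemma v_penta (ht : t ≠ 0) (h : Gen t t x y) (j : Fin 5) :
    v t x y (j - 1) * v t x y (j + 1) = 1 - v t x y j := by
  have hx := h.x_ne
  have hx1 := h.xc_ne t
  have hy := h.y_ne
  have hw := Gen.w_ne h
  have he := h.eq
  set τ := algebraMap k F t with hτ
  fin_cases j
  · show (y - τ * x) / y * (y * (x - τ) / (x * (y - τ * x))) = 1 - τ / x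
    field_simp
  · show τ / x * (-y / (x - τ)) = 1 - y * (x - τ) / (x * (y - τ * x))
    rw [div_mul_div_comm, eq_sub_iff_add_eq, div_add_div _ _ (mul_ne_zero hx hx1)
      (mul_ne_zero hx hw), div_eq_one_iff_eq (mul_ne_zero (mul_ne_zero hx hx1) (mul_ne_zero hx hw))]
    linear_combination (-τ * x) * he
  · show y * (x - τ) / (x * (y - τ * x)) * (x ^ 2 / y) = 1 - -y / (x - τ)
    have e : y * (x - τ) / (x * (y - τ * x)) * (x ^ 2 / y) = x * (x - τ) / (y - τ * x) := by
      field_simp
    rw [e, eq_sub_iff_add_eq, div_add_div _ _ hw hx1, div_eq_one_iff_eq (mul_ne_zero hw hx1)]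
    linear_combination (-1) * he
  · show -y / (x - τ) * ((y - τ * x) / y) = 1 - x ^ 2 / y
    field_simp
    linear_combination -he
  · show x ^ 2 / y * (τ / x) = 1 - (y - τ * x) / y
    field_simp
    ring

lemma v_ne (ht : t ≠ 0) (h : Gen t t x y) (j : Fin 5) : v t x y j ≠ 0 := by
  have hx := h.x_ne
  have hx1 := h.xc_ne t
  have hy := h.y_ne
  have hw := Gen.w_ne h
  have hB : algebraMap k F t ≠ 0 := (_root_.map_ne_zero _).mpr ht
  fin_cases j
  · exact div_ne_zero hB hx
  · exact div_ne_zero (mul_ne_zero hy hx1) (mul_ne_zero hx hw)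
  · exact div_ne_zero (neg_ne_zero.mpr hy) hx1
  · exact div_ne_zero (pow_ne_zero 2 hx) hy
  · exact div_ne_zero hw hy

lemma v_ne1 (ht : t ≠ 0) (h : Gen t t x y) (j : Fin 5) : v t x y j ≠ 1 := by
  intro h1
  have h2 := v_penta ht h j
  rw [h1, sub_self] at h2
  exact mul_ne_zero (v_ne ht h _) (v_ne ht h _) h2

/-- the classes of the five functions -/
noncomputable def yv (t : k) (x y : F) (j : Fin 5) : FT F := lg (v t x y j)

lemma lg_one_sub (ht : t ≠ 0) (h : Gen t t x y) (j : Fin 5) :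
    lg (1 - v t x y j) = yv t x y (j - 1) + yv t x y (j + 1) := by
  rw [← v_penta ht h j, lgmul (v_ne ht h _) (v_ne ht h _)]
  rfl

lemma sum_yv (ht : t ≠ 0) (h : Gen t t x y) : yv t x y 4 = lg (algebraMap k F t) - yv t x y 0 -
    yv t x y 1 - yv t x y 2 - yv t x y 3 := by
  have hx := h.x_ne
  have hx1 := h.xc_ne t
  have hy := h.y_ne
  have hw := Gen.w_ne h
  have hB : algebraMap k F t ≠ 0 := (_root_.map_ne_zero _).mpr ht
  have e : v t x y 0 * v t x y 1 * v t x y 2 * v t x y 3 * v t x y 4 = - algebraMap k F t := by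
    show algebraMap k F t / x * (y * (x - algebraMap k F t) / (x * (y - algebraMap k F t * x))) *
      (-y / (x - algebraMap k F t)) * (x ^ 2 / y) * ((y - algebraMap k F t * x) / y) = _
    field_simp
  have e2 := congrArg lg e
  rw [lgmul (mul_ne_zero (mul_ne_zero (mul_ne_zero (v_ne ht h _) (v_ne ht h _)) (v_ne ht h _))
    (v_ne ht h _)) (v_ne ht h _), lgmul (mul_ne_zero (mul_ne_zero (v_ne ht h _) (v_ne ht h _))
    (v_ne ht h _)) (v_ne ht h _), lgmul (mul_ne_zero (v_ne ht h _) (v_ne ht h _)) (v_ne ht h _),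
    lgmul (v_ne ht h _) (v_ne ht h _), lgneg] at e2
  unfold yv
  rw [← e2]
  abel

/-- **the sum of the five symbols is zero** -/
theorem sum_sy [CharZero k] (ht : t ≠ 0) (h : Gen t t x y) : sy (v t x y 0) + sy (v t x y 1) +
    sy (v t x y 2) + sy (v t x y 3) + sy (v t x y 4) = 0 := by
  have : CharZero F := charZero_of_injective_algebraMap (algebraMap k F).injective
  have n := v_ne ht h
  have n1 := v_ne1 ht h
  have p := v_penta ht h
  have p0 : v t x y 4 * v t x y 1 = 1 - v t x y 0 := p 0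
  have p1 : v t x y 0 * v t x y 2 = 1 - v t x y 1 := p 1
  have p2 : v t x y 1 * v t x y 3 = 1 - v t x y 2 := p 2
  have p3 : v t x y 2 * v t x y 4 = 1 - v t x y 3 := p 3
  have p4 : v t x y 3 * v t x y 0 = 1 - v t x y 4 := p 4
  have n0 := n 0
  have n1' := n 1
  have n2 := n 2
  have n3 := n 3
  have n4 := n 4
  have m0 := n1 0
  have m1 := n1 1
  generalize v t x y 0 = a at *
  generalize v t x y 1 = b at *
  generalize v t x y 2 = c at *
  generalize v t x y 3 = d at *
  generalize v t x y 4 = e at *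
  have hb1 : 1 - b ≠ 0 := sub_ne_zero.mpr (Ne.symm m1)
  have ha1 : 1 - a ≠ 0 := sub_ne_zero.mpr (Ne.symm m0)
  -- five term relation at `a`, `1 - b`
  have h5 : sy a - sy (1 - b) + sy ((1 - b) / a) - sy ((1 - a⁻¹) / (1 - (1 - b)⁻¹)) +
      sy ((1 - a) / (1 - (1 - b))) = 0 := by
    have := Submodule.subset_span (R := ℚ) (s := rel2 F) (Or.inr (Or.inr ⟨a, 1 - b, n0, m0, hb1, by
      intro h'; apply n1'; linear_combination -h', by
      intro h'
      have : a * c = a := by rw [p1]; exact h'.symm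
      have hc1 : c = 1 := by
        apply mul_left_cancel₀ n0; rw [this, mul_one]
      rw [hc1, sub_self] at p2
      exact mul_ne_zero n1' n3 p2, rfl⟩))
    exact (Submodule.Quotient.mk_eq_zero _).mpr this
  have e1 : (1 - b) / a = c := by rw [← p1]; field_simp
  have e2 : (1 - a) / (1 - (1 - b)) = e := by
    rw [sub_sub_cancel, ← p0]; field_simp
  have e3 : (1 - a⁻¹) / (1 - (1 - b)⁻¹) = 1 - d := by
    have f1 : 1 - a⁻¹ = -(1 - a) / a := by field_simp; ring
    have f2 : 1 - (1 - b)⁻¹ = -b / (1 - b) := by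
      field_simp
      ring
    rw [f1, f2, ← p0, ← p1, ← p3]
    field_simp
  rw [e1, e2, e3, sycompl, sycompl] at h5
  linear_combination (norm := module) h5

end F

end Pool.Agent.TN.N5
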