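import Pool.Agent.Lib_helper24.TN.KA

/-!
# Linear algebra for a point of order five, parameters `1` and `-1`
-/

set_option autoImplicit false
set_option linter.unusedSectionVars false
set_option linter.unusedVariables false
set_option linter.unusedSimpArgs false

namespace Pool.Agent.TN.N5

theorem alg5p {V : Type*} [AddCommGroup V] [Module ℚ V]
    {φ0 φ1 φ2 φ3 : V →ₗ[ℚ] ℚ} {y0 y1 y2 y3 u0 u1 u2 u3 u4 : V}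
    {w : ExteriorAlgebra ℚ V}
    (f00 : φ0 y0 = 1)
    (f01 : φ0 y1 = 0)
    (f02 : φ0 y2 = 0)
    (f03 : φ0 y3 = 0)
    (f10 : φ1 y0 = 0)
    (f11 : φ1 y1 = 1)
    (f12 : φ1 y2 = 0)
    (f13 : φ1 y3 = 0)
    (f20 : φ2 y0 = 0)
    (f21 : φ2 y1 = 0)
    (f22 : φ2 y2 = 1)
    (f23 : φ2 y3 = 0)
    (f30 : φ3 y0 = 0)
    (f31 : φ3 y1 = 0)
    (f32 : φ3 y2 = 0)
    (f33 : φ3 y3 = 1)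
    (w01 : ct φ0 φ1 w = 0)
    (w02 : ct φ0 φ2 w = 0)
    (w03 : ct φ0 φ3 w = 0)
    (w12 : ct φ1 φ2 w = 0)
    (w13 : ct φ1 φ3 w = 0)
    (w23 : ct φ2 φ3 w = 0)
    (h : ExteriorAlgebra.ι ℚ (((-1) : ℚ) • y0 + ((-1) : ℚ) • y2 + ((-1) : ℚ) • y3) * ExteriorAlgebra.ι ℚ ((1 : ℚ) • y0) * ExteriorAlgebra.ι ℚ u0 +
      ExteriorAlgebra.ι ℚ ((1 : ℚ) • y0 + (1 : ℚ) • y2) * ExteriorAlgebra.ι ℚ ((1 : ℚ) • y1) * ExteriorAlgebra.ι ℚ u1 +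
      ExteriorAlgebra.ι ℚ ((1 : ℚ) • y1 + (1 : ℚ) • y3) * ExteriorAlgebra.ι ℚ ((1 : ℚ) • y2) * ExteriorAlgebra.ι ℚ u2 +
      ExteriorAlgebra.ι ℚ (((-1) : ℚ) • y0 + ((-1) : ℚ) • y1 + ((-1) : ℚ) • y3) * ExteriorAlgebra.ι ℚ ((1 : ℚ) • y3) * ExteriorAlgebra.ι ℚ u3 +
      ExteriorAlgebra.ι ℚ (((-2) : ℚ) • y0 + ((-1) : ℚ) • y2) * ExteriorAlgebra.ι ℚ (((-2) : ℚ) • y0 + ((-1) : ℚ) • y3) * ExteriorAlgebra.ι ℚ u4 + w = 0) :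
    ∃ b1 p0 p1 p2 p3 q0 q1 q2 q3 p4 q4 a0 d0 a1 d1 a2 : ℚ, u0 = b1 • (y1 - y0) + p0 • (y0) + q0 • (y1 + (-y0 - y1 - y2 - y3)) + p4 • (-(-y0 - y1 - y2 - y3)) + q4 • (-(y0 + y3)) + a1 • ((2 : ℚ) • ((-2 : ℚ) • y1 + (-1 : ℚ) • (-y0 - y1 - y2 - y3))) + d1 • ((2 : ℚ) • ((-2 : ℚ) • y1 + (-1 : ℚ) • y3)) + a2 • ((-1 : ℚ) • ((-2 : ℚ) • y2 + (-1 : ℚ) • y0)) ∧
      u1 = b1 • (y2 - y0) + p1 • (y1) + q1 • (y2 + y0) + p4 • (-(-y0 - y1 - y2 - y3)) + q4 • (-(y0 + y3)) + a1 • ((2 : ℚ) • ((-2 : ℚ) • y1 + (-1 : ℚ) • (-y0 - y1 - y2 - y3))) + d1 • ((2 : ℚ) • ((-2 : ℚ) • y1 + (-1 : ℚ) • y3)) + a2 • ((1 : ℚ) • ((-2 : ℚ) • y2 + (-1 : ℚ) • y0)) ∧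
      u2 = b1 • (y3 - y0) + p2 • (y2) + q2 • (y3 + y1) + p4 • (-(-y0 - y1 - y2 - y3)) + q4 • (-(y0 + y3)) + a2 • ((-1 : ℚ) • ((-2 : ℚ) • y2 + (-1 : ℚ) • y0)) ∧
      u3 = b1 • ((-y0 - y1 - y2 - y3) - y0) + p3 • (y3) + q3 • ((-y0 - y1 - y2 - y3) + y2) + p4 • (-(-y0 - y1 - y2 - y3)) + q4 • (-(y0 + y3)) + a1 • ((3 : ℚ) • ((-2 : ℚ) • y1 + (-1 : ℚ) • (-y0 - y1 - y2 - y3))) + d1 • ((3 : ℚ) • ((-2 : ℚ) • y1 + (-1 : ℚ) • y3)) ∧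
      u4 = a0 • ((-2 : ℚ) • y0 + (-1 : ℚ) • y3) + d0 • ((-2 : ℚ) • y0 + (-1 : ℚ) • y2) + a1 • ((-2 : ℚ) • y1 + (-1 : ℚ) • (-y0 - y1 - y2 - y3)) + d1 • ((-2 : ℚ) • y1 + (-1 : ℚ) • y3) + a2 • ((-2 : ℚ) • y2 + (-1 : ℚ) • y0) := by
  have key : ∀ {φ ψ : V →ₗ[ℚ] ℚ}, ct φ ψ w = 0 →
      (((φ (((-1) : ℚ) • y0 + ((-1) : ℚ) • y2 + ((-1) : ℚ) • y3)) * (ψ ((1 : ℚ) • y0)) - (φ ((1 : ℚ) • y0)) * (ψ (((-1) : ℚ) • y0 + ((-1) : ℚ) • y2 + ((-1) : ℚ) • y3))) • u0 - ((φ (((-1) : ℚ) • y0 + ((-1) : ℚ) • y2 + ((-1) : ℚ) • y3)) * (ψ u0) - (φ u0) * (ψ (((-1) : ℚ) • y0 + ((-1) : ℚ) • y2 + ((-1) : ℚ) • y3))) • ((1 : ℚ) • y0) + ((φ ((1 : ℚ) • y0)) * (ψ u0) - (φ u0) * (ψ ((1 : ℚ) • y0))) • (((-1) : ℚ) • y0 + ((-1) : ℚ) • y2 + ((-1) : ℚ) • y3)) +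
      (((φ ((1 : ℚ) • y0 + (1 : ℚ) • y2)) * (ψ ((1 : ℚ) • y1)) - (φ ((1 : ℚ) • y1)) * (ψ ((1 : ℚ) • y0 + (1 : ℚ) • y2))) • u1 - ((φ ((1 : ℚ) • y0 + (1 : ℚ) • y2)) * (ψ u1) - (φ u1) * (ψ ((1 : ℚ) • y0 + (1 : ℚ) • y2))) • ((1 : ℚ) • y1) + ((φ ((1 : ℚ) • y1)) * (ψ u1) - (φ u1) * (ψ ((1 : ℚ) • y1))) • ((1 : ℚ) • y0 + (1 : ℚ) • y2)) +
      (((φ ((1 : ℚ) • y1 + (1 : ℚ) • y3)) * (ψ ((1 : ℚ) • y2)) - (φ ((1 : ℚ) • y2)) * (ψ ((1 : ℚ) • y1 + (1 : ℚ) • y3))) • u2 - ((φ ((1 : ℚ) • y1 + (1 : ℚ) • y3)) * (ψ u2) - (φ u2) * (ψ ((1 : ℚ) • y1 + (1 : ℚ) • y3))) • ((1 : ℚ) • y2) + ((φ ((1 : ℚ) • y2)) * (ψ u2) - (φ u2) * (ψ ((1 : ℚ) • y2))) • ((1 : ℚ) • y1 + (1 : ℚ) • y3)) +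
      (((φ (((-1) : ℚ) • y0 + ((-1) : ℚ) • y1 + ((-1) : ℚ) • y3)) * (ψ ((1 : ℚ) • y3)) - (φ ((1 : ℚ) • y3)) * (ψ (((-1) : ℚ) • y0 + ((-1) : ℚ) • y1 + ((-1) : ℚ) • y3))) • u3 - ((φ (((-1) : ℚ) • y0 + ((-1) : ℚ) • y1 + ((-1) : ℚ) • y3)) * (ψ u3) - (φ u3) * (ψ (((-1) : ℚ) • y0 + ((-1) : ℚ) • y1 + ((-1) : ℚ) • y3))) • ((1 : ℚ) • y3) + ((φ ((1 : ℚ) • y3)) * (ψ u3) - (φ u3) * (ψ ((1 : ℚ) • y3))) • (((-1) : ℚ) • y0 + ((-1) : ℚ) • y1 + ((-1) : ℚ) • y3)) +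
      (((φ (((-2) : ℚ) • y0 + ((-1) : ℚ) • y2)) * (ψ (((-2) : ℚ) • y0 + ((-1) : ℚ) • y3)) - (φ (((-2) : ℚ) • y0 + ((-1) : ℚ) • y3)) * (ψ (((-2) : ℚ) • y0 + ((-1) : ℚ) • y2))) • u4 - ((φ (((-2) : ℚ) • y0 + ((-1) : ℚ) • y2)) * (ψ u4) - (φ u4) * (ψ (((-2) : ℚ) • y0 + ((-1) : ℚ) • y2))) • (((-2) : ℚ) • y0 + ((-1) : ℚ) • y3) + ((φ (((-2) : ℚ) • y0 + ((-1) : ℚ) • y3)) * (ψ u4) - (φ u4) * (ψ (((-2) : ℚ) • y0 + ((-1) : ℚ) • y3))) • (((-2) : ℚ) • y0 + ((-1) : ℚ) • y2)) = 0 := by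
    intro φ ψ hw
    have h1 := congrArg (ct φ ψ) h
    rw [map_add (ct φ ψ), map_add (ct φ ψ), map_add (ct φ ψ), map_add (ct φ ψ), map_add (ct φ ψ), map_zero, hw, add_zero, ct_mul3, ct_mul3, ct_mul3, ct_mul3, ct_mul3, ← map_add (ExteriorAlgebra.ι ℚ), ← map_add (ExteriorAlgebra.ι ℚ), ← map_add (ExteriorAlgebra.ι ℚ), ← map_add (ExteriorAlgebra.ι ℚ)] at h1
    have h2 := (ExteriorAlgebra.ι_eq_zero_iff _).mp h1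
    simp only [map_add, map_smul, map_sub] at h2 ⊢
    linear_combination (norm := module) h2
  have e01 := key w01
  have e02 := key w02
  have e03 := key w03
  have e12 := key w12
  have e13 := key w13
  have e23 := key w23
  simp only [map_add, map_smul, smul_eq_mul, f00, f01, f02, f03, f10, f11, f12, f13, f20, f21, f22, f23, f30, f31, f32, f33] at e01 e02 e03 e12 e13 e23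
  norm_num at e01 e02 e03 e12 e13 e23
  have s0 : (-1) * φ0 u1 + 1 * φ0 u2 + (-1) * φ1 u0 + 2 * φ1 u4 + 1 * φ2 u1 = 0 := by
    have := congrArg φ2 e01
    simp only [map_add, map_sub, map_neg, map_smul, smul_eq_mul, map_zero, f00, f01, f02, f03, f10, f11, f12, f13, f20, f21, f22, f23, f30, f31, f32, f33] at this
    linear_combination this
  have S0 : ∀ v : V, ((-1) * φ0 u1 + 1 * φ0 u2 + (-1) * φ1 u0 + 2 * φ1 u4 + 1 * φ2 u1) • v = 0 := fun v => by rw [s0, zero_smul]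
  have s1 : (-1) * φ0 u3 + (-1) * φ1 u0 + 1 * φ1 u3 + (-2) * φ1 u4 + 1 * φ3 u1 = 0 := by
    have := congrArg φ3 e01
    simp only [map_add, map_sub, map_neg, map_smul, smul_eq_mul, map_zero, f00, f01, f02, f03, f10, f11, f12, f13, f20, f21, f22, f23, f30, f31, f32, f33] at this
    linear_combination this
  have S1 : ∀ v : V, ((-1) * φ0 u3 + (-1) * φ1 u0 + 1 * φ1 u3 + (-2) * φ1 u4 + 1 * φ3 u1) • v = 0 := fun v => by rw [s1, zero_smul]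
  have s2 : (-1) * φ0 u2 + 1 * φ0 u4 + (-1) * φ2 u0 + 1 * φ2 u3 + (-2) * φ2 u4 + 1 * φ3 u0 + (-2) * φ3 u4 = 0 := by
    have := congrArg φ3 e02
    simp only [map_add, map_sub, map_neg, map_smul, smul_eq_mul, map_zero, f00, f01, f02, f03, f10, f11, f12, f13, f20, f21, f22, f23, f30, f31, f32, f33] at this
    linear_combination this
  have S2 : ∀ v : V, ((-1) * φ0 u2 + 1 * φ0 u4 + (-1) * φ2 u0 + 1 * φ2 u3 + (-2) * φ2 u4 + 1 * φ3 u0 + (-2) * φ3 u4) • v = 0 := fun v => by rw [s2, zero_smul]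
  have s3 : (-1) * φ1 u2 + 1 * φ1 u4 + 1 * φ2 u3 + (-1) * φ3 u1 + 1 * φ3 u2 = 0 := by
    have := congrArg φ3 e12
    simp only [map_add, map_sub, map_neg, map_smul, smul_eq_mul, map_zero, f00, f01, f02, f03, f10, f11, f12, f13, f20, f21, f22, f23, f30, f31, f32, f33] at this
    linear_combination this
  have S3 : ∀ v : V, ((-1) * φ1 u2 + 1 * φ1 u4 + 1 * φ2 u3 + (-1) * φ3 u1 + 1 * φ3 u2) • v = 0 := fun v => by rw [s3, zero_smul]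
  have h0 : u0 = ((-6/19) * φ0 u2 + (9/19) * φ0 u3 + (14/19) * φ1 u0 + (-9/19) * φ1 u3 + (2/19) * φ1 u4 + (3/19) * φ2 u0 + (-8/19) * φ2 u3 + (-3/19) * φ3 u0) • (y1 - y0) +
      (1 * φ0 u0 + (-11/19) * φ0 u2 + (7/19) * φ0 u3 + (13/19) * φ1 u0 + (-7/19) * φ1 u3 + (10/19) * φ1 u4 + (-4/19) * φ2 u0 + (-2/19) * φ2 u3 + (-15/19) * φ3 u0) • (y0) +
      (1 * φ0 u3 + 1 * φ1 u0 + (-1) * φ1 u3 + 2 * φ1 u4 + (-1) * φ3 u0) • (y1 + (-y0 - y1 - y2 - y3)) +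
      ((6/19) * φ0 u2 + (-9/19) * φ0 u3 + (5/19) * φ1 u0 + (9/19) * φ1 u3 + (-40/19) * φ1 u4 + (-3/19) * φ2 u0 + (8/19) * φ2 u3 + (3/19) * φ3 u0) • (-(-y0 - y1 - y2 - y3)) +
      ((-6/19) * φ0 u2 + (-10/19) * φ0 u3 + (-5/19) * φ1 u0 + (10/19) * φ1 u3 + (-17/19) * φ1 u4 + (3/19) * φ2 u0 + (11/19) * φ2 u3 + (-3/19) * φ3 u0) • (-(y0 + y3)) +
      ((-4/19) * φ0 u2 + (6/19) * φ0 u3 + (3/19) * φ1 u0 + (-6/19) * φ1 u3 + (14/19) * φ1 u4 + (2/19) * φ2 u0 + (1/19) * φ2 u3 + (-2/19) * φ3 u0) • ((2 : ℚ) • ((-2 : ℚ) • y1 + (-1 : ℚ) • (-y0 - y1 - y2 - y3))) +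
      ((2/19) * φ0 u2 + (-3/19) * φ0 u3 + (-3/38) * φ1 u0 + (3/19) * φ1 u3 + (-33/38) * φ1 u4 + (-1/19) * φ2 u0 + (-1/38) * φ2 u3 + (1/19) * φ3 u0) • ((2 : ℚ) • ((-2 : ℚ) • y1 + (-1 : ℚ) • y3)) +
      ((1/19) * φ0 u2 + (8/19) * φ0 u3 + (4/19) * φ1 u0 + (-8/19) * φ1 u3 + (25/19) * φ1 u4 + (9/19) * φ2 u0 + (-5/19) * φ2 u3 + (-9/19) * φ3 u0) • ((-1 : ℚ) • ((-2 : ℚ) • y2 + (-1 : ℚ) • y0)) := by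
    linear_combination (norm := module) ((1/2) : ℚ) • e02 + ((1/2) : ℚ) • e03 + ((-1/2) : ℚ) • e13 + ((1/2) : ℚ) • S1 y0 + ((1/2) : ℚ) • S0 y1 + ((1/2) : ℚ) • S1 y1 + ((1/2) : ℚ) • S2 y2 + ((-1/2) : ℚ) • S3 y2 + ((-1/2) : ℚ) • S2 y3
  have h1 : u1 = ((-6/19) * φ0 u2 + (9/19) * φ0 u3 + (14/19) * φ1 u0 + (-9/19) * φ1 u3 + (2/19) * φ1 u4 + (3/19) * φ2 u0 + (-8/19) * φ2 u3 + (-3/19) * φ3 u0) • (y2 - y0) +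
      ((-6/19) * φ0 u2 + (9/19) * φ0 u3 + (-5/19) * φ1 u0 + 1 * φ1 u1 + (-9/19) * φ1 u3 + (2/19) * φ1 u4 + (3/19) * φ2 u0 + (-8/19) * φ2 u3 + (-3/19) * φ3 u0) • (y1) +
      (1 * φ0 u1 + (-9/19) * φ0 u2 + (4/19) * φ0 u3 + (2/19) * φ1 u0 + (-4/19) * φ1 u3 + (22/19) * φ1 u4 + (14/19) * φ2 u0 + (-12/19) * φ2 u3 + (-14/19) * φ3 u0) • (y2 + y0) +
      ((6/19) * φ0 u2 + (-9/19) * φ0 u3 + (5/19) * φ1 u0 + (9/19) * φ1 u3 + (-40/19) * φ1 u4 + (-3/19) * φ2 u0 + (8/19) * φ2 u3 + (3/19) * φ3 u0) • (-(-y0 - y1 - y2 - y3)) +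
      ((-6/19) * φ0 u2 + (-10/19) * φ0 u3 + (-5/19) * φ1 u0 + (10/19) * φ1 u3 + (-17/19) * φ1 u4 + (3/19) * φ2 u0 + (11/19) * φ2 u3 + (-3/19) * φ3 u0) • (-(y0 + y3)) +
      ((-4/19) * φ0 u2 + (6/19) * φ0 u3 + (3/19) * φ1 u0 + (-6/19) * φ1 u3 + (14/19) * φ1 u4 + (2/19) * φ2 u0 + (1/19) * φ2 u3 + (-2/19) * φ3 u0) • ((2 : ℚ) • ((-2 : ℚ) • y1 + (-1 : ℚ) • (-y0 - y1 - y2 - y3))) +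
      ((2/19) * φ0 u2 + (-3/19) * φ0 u3 + (-3/38) * φ1 u0 + (3/19) * φ1 u3 + (-33/38) * φ1 u4 + (-1/19) * φ2 u0 + (-1/38) * φ2 u3 + (1/19) * φ3 u0) • ((2 : ℚ) • ((-2 : ℚ) • y1 + (-1 : ℚ) • y3)) +
      ((1/19) * φ0 u2 + (8/19) * φ0 u3 + (4/19) * φ1 u0 + (-8/19) * φ1 u3 + (25/19) * φ1 u4 + (9/19) * φ2 u0 + (-5/19) * φ2 u3 + (-9/19) * φ3 u0) • ((1 : ℚ) • ((-2 : ℚ) • y2 + (-1 : ℚ) • y0)) := by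
    linear_combination (norm := module) (1 : ℚ) • e01
  have h2 : u2 = ((-6/19) * φ0 u2 + (9/19) * φ0 u3 + (14/19) * φ1 u0 + (-9/19) * φ1 u3 + (2/19) * φ1 u4 + (3/19) * φ2 u0 + (-8/19) * φ2 u3 + (-3/19) * φ3 u0) • (y3 - y0) +
      ((-8/19) * φ0 u2 + (-7/19) * φ0 u3 + (-13/19) * φ1 u0 + (7/19) * φ1 u3 + (-10/19) * φ1 u4 + (-15/19) * φ2 u0 + 1 * φ2 u2 + (2/19) * φ2 u3 + (15/19) * φ3 u0) • (y2) +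
      ((-6/19) * φ0 u2 + (9/19) * φ0 u3 + (-5/19) * φ1 u0 + 1 * φ1 u2 + (-9/19) * φ1 u3 + (40/19) * φ1 u4 + (3/19) * φ2 u0 + (-8/19) * φ2 u3 + (-3/19) * φ3 u0) • (y3 + y1) +
      ((6/19) * φ0 u2 + (-9/19) * φ0 u3 + (5/19) * φ1 u0 + (9/19) * φ1 u3 + (-40/19) * φ1 u4 + (-3/19) * φ2 u0 + (8/19) * φ2 u3 + (3/19) * φ3 u0) • (-(-y0 - y1 - y2 - y3)) +
      ((-6/19) * φ0 u2 + (-10/19) * φ0 u3 + (-5/19) * φ1 u0 + (10/19) * φ1 u3 + (-17/19) * φ1 u4 + (3/19) * φ2 u0 + (11/19) * φ2 u3 + (-3/19) * φ3 u0) • (-(y0 + y3)) +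
      ((1/19) * φ0 u2 + (8/19) * φ0 u3 + (4/19) * φ1 u0 + (-8/19) * φ1 u3 + (25/19) * φ1 u4 + (9/19) * φ2 u0 + (-5/19) * φ2 u3 + (-9/19) * φ3 u0) • ((-1 : ℚ) • ((-2 : ℚ) • y2 + (-1 : ℚ) • y0)) := by
    linear_combination (norm := module) (1 : ℚ) • e01 + (1 : ℚ) • e12 + ((-1) : ℚ) • S0 y0 + ((-1) : ℚ) • S0 y2
  have h3 : u3 = ((-6/19) * φ0 u2 + (9/19) * φ0 u3 + (14/19) * φ1 u0 + (-9/19) * φ1 u3 + (2/19) * φ1 u4 + (3/19) * φ2 u0 + (-8/19) * φ2 u3 + (-3/19) * φ3 u0) • ((-y0 - y1 - y2 - y3) - y0) +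
      ((12/19) * φ0 u2 + (-37/19) * φ0 u3 + (-37/38) * φ1 u0 + (18/19) * φ1 u3 + (-103/38) * φ1 u4 + (-6/19) * φ2 u0 + (13/38) * φ2 u3 + (6/19) * φ3 u0 + 1 * φ3 u3) • (y3) +
      ((12/19) * φ0 u2 + (-18/19) * φ0 u3 + (-9/19) * φ1 u0 + (-1/19) * φ1 u3 + (15/19) * φ1 u4 + (-6/19) * φ2 u0 + (16/19) * φ2 u3 + (6/19) * φ3 u0) • ((-y0 - y1 - y2 - y3) + y2) +
      ((6/19) * φ0 u2 + (-9/19) * φ0 u3 + (5/19) * φ1 u0 + (9/19) * φ1 u3 + (-40/19) * φ1 u4 + (-3/19) * φ2 u0 + (8/19) * φ2 u3 + (3/19) * φ3 u0) • (-(-y0 - y1 - y2 - y3)) +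
      ((-6/19) * φ0 u2 + (-10/19) * φ0 u3 + (-5/19) * φ1 u0 + (10/19) * φ1 u3 + (-17/19) * φ1 u4 + (3/19) * φ2 u0 + (11/19) * φ2 u3 + (-3/19) * φ3 u0) • (-(y0 + y3)) +
      ((-4/19) * φ0 u2 + (6/19) * φ0 u3 + (3/19) * φ1 u0 + (-6/19) * φ1 u3 + (14/19) * φ1 u4 + (2/19) * φ2 u0 + (1/19) * φ2 u3 + (-2/19) * φ3 u0) • ((3 : ℚ) • ((-2 : ℚ) • y1 + (-1 : ℚ) • (-y0 - y1 - y2 - y3))) +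
      ((2/19) * φ0 u2 + (-3/19) * φ0 u3 + (-3/38) * φ1 u0 + (3/19) * φ1 u3 + (-33/38) * φ1 u4 + (-1/19) * φ2 u0 + (-1/38) * φ2 u3 + (1/19) * φ3 u0) • ((3 : ℚ) • ((-2 : ℚ) • y1 + (-1 : ℚ) • y3)) := by
    linear_combination (norm := module) ((-1) : ℚ) • e13 + (1 : ℚ) • S1 y0 + ((-1) : ℚ) • S3 y2
  have h4 : u4 = ((7/38) * φ0 u2 + (9/19) * φ0 u3 + (-1/2) * φ0 u4 + (9/38) * φ1 u0 + (-9/19) * φ1 u3 + (61/38) * φ1 u4 + (25/38) * φ2 u0 + (-8/19) * φ2 u3 + 1 * φ2 u4 + (-25/38) * φ3 u0) • ((-2 : ℚ) • y0 + (-1 : ℚ) • y3) +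
      ((-6/19) * φ0 u2 + (-10/19) * φ0 u3 + (-5/19) * φ1 u0 + (10/19) * φ1 u3 + (-36/19) * φ1 u4 + (-16/19) * φ2 u0 + (11/19) * φ2 u3 + (-1) * φ2 u4 + (16/19) * φ3 u0) • ((-2 : ℚ) • y0 + (-1 : ℚ) • y2) +
      ((-4/19) * φ0 u2 + (6/19) * φ0 u3 + (3/19) * φ1 u0 + (-6/19) * φ1 u3 + (14/19) * φ1 u4 + (2/19) * φ2 u0 + (1/19) * φ2 u3 + (-2/19) * φ3 u0) • ((-2 : ℚ) • y1 + (-1 : ℚ) • (-y0 - y1 - y2 - y3)) +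
      ((2/19) * φ0 u2 + (-3/19) * φ0 u3 + (-3/38) * φ1 u0 + (3/19) * φ1 u3 + (-33/38) * φ1 u4 + (-1/19) * φ2 u0 + (-1/38) * φ2 u3 + (1/19) * φ3 u0) • ((-2 : ℚ) • y1 + (-1 : ℚ) • y3) +
      ((1/19) * φ0 u2 + (8/19) * φ0 u3 + (4/19) * φ1 u0 + (-8/19) * φ1 u3 + (25/19) * φ1 u4 + (9/19) * φ2 u0 + (-5/19) * φ2 u3 + (-9/19) * φ3 u0) • ((-2 : ℚ) • y2 + (-1 : ℚ) • y0) := by
    linear_combination (norm := module) ((-1/4) : ℚ) • e02 + ((1/4) : ℚ) • e03 + ((-1/4) : ℚ) • e13 + ((1/4) : ℚ) • S1 y0 + ((-1/4) : ℚ) • S0 y1 + ((1/4) : ℚ) • S1 y1 + ((1/4) : ℚ) • S2 y2 + ((-1/4) : ℚ) • S3 y2 + ((-1/4) : ℚ) • S2 y3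
  exact ⟨_, _, _, _, _, _, _, _, _, _, _, _, _, _, _, _, h0, h1, h2, h3, h4⟩

theorem alg5m {V : Type*} [AddCommGroup V] [Module ℚ V]
    {φ0 φ1 φ2 φ3 : V →ₗ[ℚ] ℚ} {y0 y1 y2 y3 u0 u1 u2 u3 u4 : V}
    {w : ExteriorAlgebra ℚ V}
    (f00 : φ0 y0 = 1)
    (f01 : φ0 y1 = 0)
    (f02 : φ0 y2 = 0)
    (f03 : φ0 y3 = 0)
    (f10 : φ1 y0 = 0)
    (f11 : φ1 y1 = 1)
    (f12 : φ1 y2 = 0)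
    (f13 : φ1 y3 = 0)
    (f20 : φ2 y0 = 0)
    (f21 : φ2 y1 = 0)
    (f22 : φ2 y2 = 1)
    (f23 : φ2 y3 = 0)
    (f30 : φ3 y0 = 0)
    (f31 : φ3 y1 = 0)
    (f32 : φ3 y2 = 0)
    (f33 : φ3 y3 = 1)
    (w01 : ct φ0 φ1 w = 0)
    (w02 : ct φ0 φ2 w = 0)
    (w03 : ct φ0 φ3 w = 0)
    (w12 : ct φ1 φ2 w = 0)
    (w13 : ct φ1 φ3 w = 0)
    (w23 : ct φ2 φ3 w = 0)
    (h : ExteriorAlgebra.ι ℚ (((-1) : ℚ) • y0 + ((-1) : ℚ) • y2 + ((-1) : ℚ) • y3) * ExteriorAlgebra.ι ℚ ((1 : ℚ) • y0) * ExteriorAlgebra.ι ℚ u0 +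
      ExteriorAlgebra.ι ℚ ((1 : ℚ) • y0 + (1 : ℚ) • y2) * ExteriorAlgebra.ι ℚ ((1 : ℚ) • y1) * ExteriorAlgebra.ι ℚ u1 +
      ExteriorAlgebra.ι ℚ ((1 : ℚ) • y1 + (1 : ℚ) • y3) * ExteriorAlgebra.ι ℚ ((1 : ℚ) • y2) * ExteriorAlgebra.ι ℚ u2 +
      ExteriorAlgebra.ι ℚ (((-1) : ℚ) • y0 + ((-1) : ℚ) • y1 + ((-1) : ℚ) • y3) * ExteriorAlgebra.ι ℚ ((1 : ℚ) • y3) * ExteriorAlgebra.ι ℚ u3 +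
      ExteriorAlgebra.ι ℚ (((-2) : ℚ) • y0 + (1 : ℚ) • y1 + ((-1) : ℚ) • y2) * ExteriorAlgebra.ι ℚ (((-3) : ℚ) • y0 + ((-1) : ℚ) • y1 + ((-1) : ℚ) • y2 + ((-2) : ℚ) • y3) * ExteriorAlgebra.ι ℚ u4 + w = 0) :
    ∃ b1 p0 p1 p2 p3 q0 q1 q2 q3 p4 q4 a0 d0 a1 d1 a2 : ℚ, u0 = b1 • (y1 - y0) + p0 • (y0) + q0 • (y1 + (-y0 - y1 - y2 - y3)) + p4 • (-(-y0 - y1 - y2 - y3)) + q4 • (-(y0 + y3)) + a1 • ((-1 : ℚ) • ((-2 : ℚ) • y1 + (-1 : ℚ) • (-y0 - y1 - y2 - y3) + (1 : ℚ) • y0)) + d1 • ((-1 : ℚ) • ((-2 : ℚ) • y1 + (1 : ℚ) • y2 + (-1 : ℚ) • y3)) + a2 • ((-2 : ℚ) • ((-2 : ℚ) • y2 + (-1 : ℚ) • y0 + (1 : ℚ) • y1)) ∧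
      u1 = b1 • (y2 - y0) + p1 • (y1) + q1 • (y2 + y0) + p4 • (-(-y0 - y1 - y2 - y3)) + q4 • (-(y0 + y3)) + a1 • ((-1 : ℚ) • ((-2 : ℚ) • y1 + (-1 : ℚ) • (-y0 - y1 - y2 - y3) + (1 : ℚ) • y0)) + d1 • ((-1 : ℚ) • ((-2 : ℚ) • y1 + (1 : ℚ) • y2 + (-1 : ℚ) • y3)) + a2 • ((-3 : ℚ) • ((-2 : ℚ) • y2 + (-1 : ℚ) • y0 + (1 : ℚ) • y1)) ∧
      u2 = b1 • (y3 - y0) + p2 • (y2) + q2 • (y3 + y1) + p4 • (-(-y0 - y1 - y2 - y3)) + q4 • (-(y0 + y3)) + a2 • ((-2 : ℚ) • ((-2 : ℚ) • y2 + (-1 : ℚ) • y0 + (1 : ℚ) • y1)) ∧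
      u3 = b1 • ((-y0 - y1 - y2 - y3) - y0) + p3 • (y3) + q3 • ((-y0 - y1 - y2 - y3) + y2) + p4 • (-(-y0 - y1 - y2 - y3)) + q4 • (-(y0 + y3)) + a1 • ((1 : ℚ) • ((-2 : ℚ) • y1 + (-1 : ℚ) • (-y0 - y1 - y2 - y3) + (1 : ℚ) • y0)) + d1 • ((1 : ℚ) • ((-2 : ℚ) • y1 + (1 : ℚ) • y2 + (-1 : ℚ) • y3)) ∧
      u4 = a0 • ((-2 : ℚ) • y0 + (-1 : ℚ) • y3 + (1 : ℚ) • (-y0 - y1 - y2 - y3)) + d0 • ((-2 : ℚ) • y0 + (1 : ℚ) • y1 + (-1 : ℚ) • y2) + a1 • ((-2 : ℚ) • y1 + (-1 : ℚ) • (-y0 - y1 - y2 - y3) + (1 : ℚ) • y0) + d1 • ((-2 : ℚ) • y1 + (1 : ℚ) • y2 + (-1 : ℚ) • y3) + a2 • ((-2 : ℚ) • y2 + (-1 : ℚ) • y0 + (1 : ℚ) • y1) := by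
  have key : ∀ {φ ψ : V →ₗ[ℚ] ℚ}, ct φ ψ w = 0 →
      (((φ (((-1) : ℚ) • y0 + ((-1) : ℚ) • y2 + ((-1) : ℚ) • y3)) * (ψ ((1 : ℚ) • y0)) - (φ ((1 : ℚ) • y0)) * (ψ (((-1) : ℚ) • y0 + ((-1) : ℚ) • y2 + ((-1) : ℚ) • y3))) • u0 - ((φ (((-1) : ℚ) • y0 + ((-1) : ℚ) • y2 + ((-1) : ℚ) • y3)) * (ψ u0) - (φ u0) * (ψ (((-1) : ℚ) • y0 + ((-1) : ℚ) • y2 + ((-1) : ℚ) • y3))) • ((1 : ℚ) • y0) + ((φ ((1 : ℚ) • y0)) * (ψ u0) - (φ u0) * (ψ ((1 : ℚ) • y0))) • (((-1) : ℚ) • y0 + ((-1) : ℚ) • y2 + ((-1) : ℚ) • y3)) +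
      (((φ ((1 : ℚ) • y0 + (1 : ℚ) • y2)) * (ψ ((1 : ℚ) • y1)) - (φ ((1 : ℚ) • y1)) * (ψ ((1 : ℚ) • y0 + (1 : ℚ) • y2))) • u1 - ((φ ((1 : ℚ) • y0 + (1 : ℚ) • y2)) * (ψ u1) - (φ u1) * (ψ ((1 : ℚ) • y0 + (1 : ℚ) • y2))) • ((1 : ℚ) • y1) + ((φ ((1 : ℚ) • y1)) * (ψ u1) - (φ u1) * (ψ ((1 : ℚ) • y1))) • ((1 : ℚ) • y0 + (1 : ℚ) • y2)) +
      (((φ ((1 : ℚ) • y1 + (1 : ℚ) • y3)) * (ψ ((1 : ℚ) • y2)) - (φ ((1 : ℚ) • y2)) * (ψ ((1 : ℚ) • y1 + (1 : ℚ) • y3))) • u2 - ((φ ((1 : ℚ) • y1 + (1 : ℚ) • y3)) * (ψ u2) - (φ u2) * (ψ ((1 : ℚ) • y1 + (1 : ℚ) • y3))) • ((1 : ℚ) • y2) + ((φ ((1 : ℚ) • y2)) * (ψ u2) - (φ u2) * (ψ ((1 : ℚ) • y2))) • ((1 : ℚ) • y1 + (1 : ℚ) • y3)) +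
      (((φ (((-1) : ℚ) • y0 + ((-1) : ℚ) • y1 + ((-1) : ℚ) • y3)) * (ψ ((1 : ℚ) • y3)) - (φ ((1 : ℚ) • y3)) * (ψ (((-1) : ℚ) • y0 + ((-1) : ℚ) • y1 + ((-1) : ℚ) • y3))) • u3 - ((φ (((-1) : ℚ) • y0 + ((-1) : ℚ) • y1 + ((-1) : ℚ) • y3)) * (ψ u3) - (φ u3) * (ψ (((-1) : ℚ) • y0 + ((-1) : ℚ) • y1 + ((-1) : ℚ) • y3))) • ((1 : ℚ) • y3) + ((φ ((1 : ℚ) • y3)) * (ψ u3) - (φ u3) * (ψ ((1 : ℚ) • y3))) • (((-1) : ℚ) • y0 + ((-1) : ℚ) • y1 + ((-1) : ℚ) • y3)) +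
      (((φ (((-2) : ℚ) • y0 + (1 : ℚ) • y1 + ((-1) : ℚ) • y2)) * (ψ (((-3) : ℚ) • y0 + ((-1) : ℚ) • y1 + ((-1) : ℚ) • y2 + ((-2) : ℚ) • y3)) - (φ (((-3) : ℚ) • y0 + ((-1) : ℚ) • y1 + ((-1) : ℚ) • y2 + ((-2) : ℚ) • y3)) * (ψ (((-2) : ℚ) • y0 + (1 : ℚ) • y1 + ((-1) : ℚ) • y2))) • u4 - ((φ (((-2) : ℚ) • y0 + (1 : ℚ) • y1 + ((-1) : ℚ) • y2)) * (ψ u4) - (φ u4) * (ψ (((-2) : ℚ) • y0 + (1 : ℚ) • y1 + ((-1) : ℚ) • y2))) • (((-3) : ℚ) • y0 + ((-1) : ℚ) • y1 + ((-1) : ℚ) • y2 + ((-2) : ℚ) • y3) + ((φ (((-3) : ℚ) • y0 + ((-1) : ℚ) • y1 + ((-1) : ℚ) • y2 + ((-2) : ℚ) • y3)) * (ψ u4) - (φ u4) * (ψ (((-3) : ℚ) • y0 + ((-1) : ℚ) • y1 + ((-1) : ℚ) • y2 + ((-2) : ℚ) • y3))) • (((-2) : ℚ) • y0 + (1 : ℚ) • y1 + ((-1) : ℚ) • y2)) = 0 := by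
    intro φ ψ hw
    have h1 := congrArg (ct φ ψ) h
    rw [map_add (ct φ ψ), map_add (ct φ ψ), map_add (ct φ ψ), map_add (ct φ ψ), map_add (ct φ ψ), map_zero, hw, add_zero, ct_mul3, ct_mul3, ct_mul3, ct_mul3, ct_mul3, ← map_add (ExteriorAlgebra.ι ℚ), ← map_add (ExteriorAlgebra.ι ℚ), ← map_add (ExteriorAlgebra.ι ℚ), ← map_add (ExteriorAlgebra.ι ℚ)] at h1
    have h2 := (ExteriorAlgebra.ι_eq_zero_iff _).mp h1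
    simp only [map_add, map_smul, map_sub] at h2 ⊢
    linear_combination (norm := module) h2
  have e01 := key w01
  have e02 := key w02
  have e03 := key w03
  have e12 := key w12
  have e13 := key w13
  have e23 := key w23
  simp only [map_add, map_smul, smul_eq_mul, f00, f01, f02, f03, f10, f11, f12, f13, f20, f21, f22, f23, f30, f31, f32, f33] at e01 e02 e03 e12 e13 e23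
  norm_num at e01 e02 e03 e12 e13 e23
  have s0 : (-1) * φ0 u1 + 1 * φ0 u2 + (-2) * φ0 u4 + (-1) * φ1 u0 + 1 * φ1 u4 + 1 * φ2 u1 + 5 * φ2 u4 = 0 := by
    have := congrArg φ2 e01
    simp only [map_add, map_sub, map_neg, map_smul, smul_eq_mul, map_zero, f00, f01, f02, f03, f10, f11, f12, f13, f20, f21, f22, f23, f30, f31, f32, f33] at this
    linear_combination this
  have S0 : ∀ v : V, ((-1) * φ0 u1 + 1 * φ0 u2 + (-2) * φ0 u4 + (-1) * φ1 u0 + 1 * φ1 u4 + 1 * φ2 u1 + 5 * φ2 u4) • v = 0 := fun v => by rw [s0, zero_smul]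
  have s1 : (-1) * φ0 u3 + (-2) * φ0 u4 + (-1) * φ1 u0 + 1 * φ1 u3 + (-4) * φ1 u4 + 1 * φ3 u1 + 5 * φ3 u4 = 0 := by
    have := congrArg φ3 e01
    simp only [map_add, map_sub, map_neg, map_smul, smul_eq_mul, map_zero, f00, f01, f02, f03, f10, f11, f12, f13, f20, f21, f22, f23, f30, f31, f32, f33] at this
    linear_combination this
  have S1 : ∀ v : V, ((-1) * φ0 u3 + (-2) * φ0 u4 + (-1) * φ1 u0 + 1 * φ1 u3 + (-4) * φ1 u4 + 1 * φ3 u1 + 5 * φ3 u4) • v = 0 := fun v => by rw [s1, zero_smul]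
  have s2 : (-1) * φ0 u2 + 2 * φ0 u4 + (-1) * φ2 u0 + 1 * φ2 u3 + (-4) * φ2 u4 + 1 * φ3 u0 + (-1) * φ3 u4 = 0 := by
    have := congrArg φ3 e02
    simp only [map_add, map_sub, map_neg, map_smul, smul_eq_mul, map_zero, f00, f01, f02, f03, f10, f11, f12, f13, f20, f21, f22, f23, f30, f31, f32, f33] at this
    linear_combination this
  have S2 : ∀ v : V, ((-1) * φ0 u2 + 2 * φ0 u4 + (-1) * φ2 u0 + 1 * φ2 u3 + (-4) * φ2 u4 + 1 * φ3 u0 + (-1) * φ3 u4) • v = 0 := fun v => by rw [s2, zero_smul]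
  have s3 : (-1) * φ1 u2 + 2 * φ1 u4 + 1 * φ2 u3 + 2 * φ2 u4 + (-1) * φ3 u1 + 1 * φ3 u2 + (-2) * φ3 u4 = 0 := by
    have := congrArg φ3 e12
    simp only [map_add, map_sub, map_neg, map_smul, smul_eq_mul, map_zero, f00, f01, f02, f03, f10, f11, f12, f13, f20, f21, f22, f23, f30, f31, f32, f33] at this
    linear_combination this
  have S3 : ∀ v : V, ((-1) * φ1 u2 + 2 * φ1 u4 + 1 * φ2 u3 + 2 * φ2 u4 + (-1) * φ3 u1 + 1 * φ3 u2 + (-2) * φ3 u4) • v = 0 := fun v => by rw [s3, zero_smul]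
  have h0 : u0 = ((-4/7) * φ0 u1 + (1/7) * φ0 u2 + (-1/7) * φ0 u3 + (-1/7) * φ1 u0 + (1/7) * φ1 u3 + (-4/7) * φ2 u0 + (4/7) * φ2 u1 + (4/7) * φ3 u0) • (y1 - y0) +
      (1 * φ0 u0 + (-20/7) * φ0 u1 + (-2/7) * φ0 u2 + (-5/7) * φ0 u3 + (-19/7) * φ1 u0 + (5/7) * φ1 u3 + (-27/7) * φ2 u0 + (20/7) * φ2 u1 + 3 * φ2 u3 + (20/7) * φ3 u0) • (y0) +
      (4 * φ0 u1 + 1 * φ0 u2 + 1 * φ0 u3 + 5 * φ1 u0 + (-1) * φ1 u3 + 5 * φ2 u0 + (-4) * φ2 u1 + (-5) * φ2 u3 + (-6) * φ3 u0) • (y1 + (-y0 - y1 - y2 - y3)) +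
      ((-22/7) * φ0 u1 + (2/7) * φ0 u2 + (-9/7) * φ0 u3 + (-23/7) * φ1 u0 + (9/7) * φ1 u3 + (-29/7) * φ2 u0 + (22/7) * φ2 u1 + 4 * φ2 u3 + (29/7) * φ3 u0) • (-(-y0 - y1 - y2 - y3)) +
      ((16/7) * φ0 u1 + (-4/7) * φ0 u2 + (4/7) * φ0 u3 + (18/7) * φ1 u0 + (-4/7) * φ1 u3 + (23/7) * φ2 u0 + (-16/7) * φ2 u1 + (-2) * φ2 u3 + (-23/7) * φ3 u0) • (-(y0 + y3)) +
      ((-24/7) * φ0 u1 + (-1/7) * φ0 u2 + (-6/7) * φ0 u3 + (-27/7) * φ1 u0 + (6/7) * φ1 u3 + (-31/7) * φ2 u0 + (24/7) * φ2 u1 + 4 * φ2 u3 + (31/7) * φ3 u0) • ((-1 : ℚ) • ((-2 : ℚ) • y1 + (-1 : ℚ) • (-y0 - y1 - y2 - y3) + (1 : ℚ) • y0)) +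
      (6 * φ0 u1 + 2 * φ0 u3 + 7 * φ1 u0 + (-2) * φ1 u3 + 8 * φ2 u0 + (-6) * φ2 u1 + (-7) * φ2 u3 + (-8) * φ3 u0) • ((-1 : ℚ) • ((-2 : ℚ) • y1 + (1 : ℚ) • y2 + (-1 : ℚ) • y3)) +
      ((17/7) * φ0 u1 + (1/7) * φ0 u2 + (6/7) * φ0 u3 + (20/7) * φ1 u0 + (-6/7) * φ1 u3 + (24/7) * φ2 u0 + (-17/7) * φ2 u1 + (-3) * φ2 u3 + (-24/7) * φ3 u0) • ((-2 : ℚ) • ((-2 : ℚ) • y2 + (-1 : ℚ) • y0 + (1 : ℚ) • y1)) := by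
    linear_combination (norm := module) ((6/7) : ℚ) • e02 + ((1/7) : ℚ) • e03 + ((-1/7) : ℚ) • e13 + ((1/7) : ℚ) • S1 y0 + ((6/7) : ℚ) • S0 y1 + ((1/7) : ℚ) • S1 y1 + ((1/7) : ℚ) • S2 y2 + ((-1/7) : ℚ) • S3 y2 + ((-6/7) : ℚ) • S2 y3
  have h1 : u1 = ((-4/7) * φ0 u1 + (1/7) * φ0 u2 + (-1/7) * φ0 u3 + (-1/7) * φ1 u0 + (1/7) * φ1 u3 + (-4/7) * φ2 u0 + (4/7) * φ2 u1 + (4/7) * φ3 u0) • (y2 - y0) +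
      ((13/7) * φ0 u1 + (2/7) * φ0 u2 + (5/7) * φ0 u3 + (12/7) * φ1 u0 + 1 * φ1 u1 + (-5/7) * φ1 u3 + (20/7) * φ2 u0 + (-13/7) * φ2 u1 + (-3) * φ2 u3 + (-20/7) * φ3 u0) • (y1) +
      ((-58/7) * φ0 u1 + (-10/7) * φ0 u2 + (-18/7) * φ0 u3 + (-74/7) * φ1 u0 + (18/7) * φ1 u3 + (-86/7) * φ2 u0 + (65/7) * φ2 u1 + 11 * φ2 u3 + (86/7) * φ3 u0) • (y2 + y0) +
      ((-22/7) * φ0 u1 + (2/7) * φ0 u2 + (-9/7) * φ0 u3 + (-23/7) * φ1 u0 + (9/7) * φ1 u3 + (-29/7) * φ2 u0 + (22/7) * φ2 u1 + 4 * φ2 u3 + (29/7) * φ3 u0) • (-(-y0 - y1 - y2 - y3)) +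
      ((16/7) * φ0 u1 + (-4/7) * φ0 u2 + (4/7) * φ0 u3 + (18/7) * φ1 u0 + (-4/7) * φ1 u3 + (23/7) * φ2 u0 + (-16/7) * φ2 u1 + (-2) * φ2 u3 + (-23/7) * φ3 u0) • (-(y0 + y3)) +
      ((-24/7) * φ0 u1 + (-1/7) * φ0 u2 + (-6/7) * φ0 u3 + (-27/7) * φ1 u0 + (6/7) * φ1 u3 + (-31/7) * φ2 u0 + (24/7) * φ2 u1 + 4 * φ2 u3 + (31/7) * φ3 u0) • ((-1 : ℚ) • ((-2 : ℚ) • y1 + (-1 : ℚ) • (-y0 - y1 - y2 - y3) + (1 : ℚ) • y0)) +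
      (6 * φ0 u1 + 2 * φ0 u3 + 7 * φ1 u0 + (-2) * φ1 u3 + 8 * φ2 u0 + (-6) * φ2 u1 + (-7) * φ2 u3 + (-8) * φ3 u0) • ((-1 : ℚ) • ((-2 : ℚ) • y1 + (1 : ℚ) • y2 + (-1 : ℚ) • y3)) +
      ((17/7) * φ0 u1 + (1/7) * φ0 u2 + (6/7) * φ0 u3 + (20/7) * φ1 u0 + (-6/7) * φ1 u3 + (24/7) * φ2 u0 + (-17/7) * φ2 u1 + (-3) * φ2 u3 + (-24/7) * φ3 u0) • ((-3 : ℚ) • ((-2 : ℚ) • y2 + (-1 : ℚ) • y0 + (1 : ℚ) • y1)) := by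
    linear_combination (norm := module) (1 : ℚ) • e01 + ((5/7) : ℚ) • e02 + ((-5/7) : ℚ) • e03 + ((5/7) : ℚ) • e13 + ((-5/7) : ℚ) • S1 y0 + ((5/7) : ℚ) • S0 y1 + ((-5/7) : ℚ) • S1 y1 + ((-1) : ℚ) • S0 y2 + ((-5/7) : ℚ) • S2 y2 + ((5/7) : ℚ) • S3 y2 + (4 : ℚ) • S0 y3 + ((30/7) : ℚ) • S2 y3
  have h2 : u2 = ((-4/7) * φ0 u1 + (1/7) * φ0 u2 + (-1/7) * φ0 u3 + (-1/7) * φ1 u0 + (1/7) * φ1 u3 + (-4/7) * φ2 u0 + (4/7) * φ2 u1 + (4/7) * φ3 u0) • (y3 - y0) +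
      ((-46/7) * φ0 u1 + (-6/7) * φ0 u2 + (-15/7) * φ0 u3 + (-57/7) * φ1 u0 + (15/7) * φ1 u3 + (-67/7) * φ2 u0 + (46/7) * φ2 u1 + 1 * φ2 u2 + 8 * φ2 u3 + (67/7) * φ3 u0) • (y2) +
      (8 * φ0 u1 + 3 * φ0 u3 + 9 * φ1 u0 + 1 * φ1 u2 + (-3) * φ1 u3 + 11 * φ2 u0 + (-8) * φ2 u1 + (-10) * φ2 u3 + (-11) * φ3 u0) • (y3 + y1) +
      ((-22/7) * φ0 u1 + (2/7) * φ0 u2 + (-9/7) * φ0 u3 + (-23/7) * φ1 u0 + (9/7) * φ1 u3 + (-29/7) * φ2 u0 + (22/7) * φ2 u1 + 4 * φ2 u3 + (29/7) * φ3 u0) • (-(-y0 - y1 - y2 - y3)) +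
      ((16/7) * φ0 u1 + (-4/7) * φ0 u2 + (4/7) * φ0 u3 + (18/7) * φ1 u0 + (-4/7) * φ1 u3 + (23/7) * φ2 u0 + (-16/7) * φ2 u1 + (-2) * φ2 u3 + (-23/7) * φ3 u0) • (-(y0 + y3)) +
      ((17/7) * φ0 u1 + (1/7) * φ0 u2 + (6/7) * φ0 u3 + (20/7) * φ1 u0 + (-6/7) * φ1 u3 + (24/7) * φ2 u0 + (-17/7) * φ2 u1 + (-3) * φ2 u3 + (-24/7) * φ3 u0) • ((-2 : ℚ) • ((-2 : ℚ) • y2 + (-1 : ℚ) • y0 + (1 : ℚ) • y1)) := by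
    linear_combination (norm := module) (1 : ℚ) • e01 + ((3/7) : ℚ) • e02 + ((-3/7) : ℚ) • e03 + (1 : ℚ) • e12 + ((3/7) : ℚ) • e13 + ((-1) : ℚ) • S0 y0 + ((-3/7) : ℚ) • S1 y0 + ((3/7) : ℚ) • S0 y1 + ((-3/7) : ℚ) • S1 y1 + ((-1) : ℚ) • S0 y2 + ((-3/7) : ℚ) • S2 y2 + ((3/7) : ℚ) • S3 y2 + (2 : ℚ) • S0 y3 + ((18/7) : ℚ) • S2 y3
  have h3 : u3 = ((-4/7) * φ0 u1 + (1/7) * φ0 u2 + (-1/7) * φ0 u3 + (-1/7) * φ1 u0 + (1/7) * φ1 u3 + (-4/7) * φ2 u0 + (4/7) * φ2 u1 + (4/7) * φ3 u0) • ((-y0 - y1 - y2 - y3) - y0) +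
      ((22/7) * φ0 u1 + (-2/7) * φ0 u2 + (2/7) * φ0 u3 + (23/7) * φ1 u0 + (-9/7) * φ1 u3 + (29/7) * φ2 u0 + (-22/7) * φ2 u1 + (-3) * φ2 u3 + (-29/7) * φ3 u0 + 1 * φ3 u3) • (y3) +
      ((-78/7) * φ0 u1 + (2/7) * φ0 u2 + (-30/7) * φ0 u3 + (-93/7) * φ1 u0 + (23/7) * φ1 u3 + (-106/7) * φ2 u0 + (78/7) * φ2 u1 + 14 * φ2 u3 + (106/7) * φ3 u0) • ((-y0 - y1 - y2 - y3) + y2) +
      ((-22/7) * φ0 u1 + (2/7) * φ0 u2 + (-9/7) * φ0 u3 + (-23/7) * φ1 u0 + (9/7) * φ1 u3 + (-29/7) * φ2 u0 + (22/7) * φ2 u1 + 4 * φ2 u3 + (29/7) * φ3 u0) • (-(-y0 - y1 - y2 - y3)) +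
      ((16/7) * φ0 u1 + (-4/7) * φ0 u2 + (4/7) * φ0 u3 + (18/7) * φ1 u0 + (-4/7) * φ1 u3 + (23/7) * φ2 u0 + (-16/7) * φ2 u1 + (-2) * φ2 u3 + (-23/7) * φ3 u0) • (-(y0 + y3)) +
      ((-24/7) * φ0 u1 + (-1/7) * φ0 u2 + (-6/7) * φ0 u3 + (-27/7) * φ1 u0 + (6/7) * φ1 u3 + (-31/7) * φ2 u0 + (24/7) * φ2 u1 + 4 * φ2 u3 + (31/7) * φ3 u0) • ((1 : ℚ) • ((-2 : ℚ) • y1 + (-1 : ℚ) • (-y0 - y1 - y2 - y3) + (1 : ℚ) • y0)) +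
      (6 * φ0 u1 + 2 * φ0 u3 + 7 * φ1 u0 + (-2) * φ1 u3 + 8 * φ2 u0 + (-6) * φ2 u1 + (-7) * φ2 u3 + (-8) * φ3 u0) • ((1 : ℚ) • ((-2 : ℚ) • y1 + (1 : ℚ) • y2 + (-1 : ℚ) • y3)) := by
    linear_combination (norm := module) ((2/7) : ℚ) • e02 + ((-2/7) : ℚ) • e03 + ((-5/7) : ℚ) • e13 + ((5/7) : ℚ) • S1 y0 + ((2/7) : ℚ) • S0 y1 + ((-2/7) : ℚ) • S1 y1 + ((-2/7) : ℚ) • S2 y2 + ((-5/7) : ℚ) • S3 y2 + ((-2/7) : ℚ) • S2 y3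
  have h4 : u4 = ((-151/35) * φ0 u1 + (1/35) * φ0 u2 + (-10/7) * φ0 u3 + (-1/5) * φ0 u4 + (-176/35) * φ1 u0 + (10/7) * φ1 u3 + (-2/5) * φ1 u4 + (-40/7) * φ2 u0 + (151/35) * φ2 u1 + 5 * φ2 u3 + (40/7) * φ3 u0) • ((-2 : ℚ) • y0 + (-1 : ℚ) • y3 + (1 : ℚ) • (-y0 - y1 - y2 - y3)) +
      ((64/35) * φ0 u1 + (-9/35) * φ0 u2 + (6/7) * φ0 u3 + (-1/5) * φ0 u4 + (79/35) * φ1 u0 + (-6/7) * φ1 u3 + (3/5) * φ1 u4 + (17/7) * φ2 u0 + (-64/35) * φ2 u1 + (-2) * φ2 u3 + (-17/7) * φ3 u0) • ((-2 : ℚ) • y0 + (1 : ℚ) • y1 + (-1 : ℚ) • y2) +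
      ((-24/7) * φ0 u1 + (-1/7) * φ0 u2 + (-6/7) * φ0 u3 + (-27/7) * φ1 u0 + (6/7) * φ1 u3 + (-31/7) * φ2 u0 + (24/7) * φ2 u1 + 4 * φ2 u3 + (31/7) * φ3 u0) • ((-2 : ℚ) • y1 + (-1 : ℚ) • (-y0 - y1 - y2 - y3) + (1 : ℚ) • y0) +
      (6 * φ0 u1 + 2 * φ0 u3 + 7 * φ1 u0 + (-2) * φ1 u3 + 8 * φ2 u0 + (-6) * φ2 u1 + (-7) * φ2 u3 + (-8) * φ3 u0) • ((-2 : ℚ) • y1 + (1 : ℚ) • y2 + (-1 : ℚ) • y3) +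
      ((17/7) * φ0 u1 + (1/7) * φ0 u2 + (6/7) * φ0 u3 + (20/7) * φ1 u0 + (-6/7) * φ1 u3 + (24/7) * φ2 u0 + (-17/7) * φ2 u1 + (-3) * φ2 u3 + (-24/7) * φ3 u0) • ((-2 : ℚ) • y2 + (-1 : ℚ) • y0 + (1 : ℚ) • y1) := by
    linear_combination (norm := module) ((-1/7) : ℚ) • e02 + ((1/7) : ℚ) • e03 + ((-1/7) : ℚ) • e13 + ((1/7) : ℚ) • S1 y0 + ((-1/7) : ℚ) • S0 y1 + ((1/7) : ℚ) • S1 y1 + ((1/5) : ℚ) • S0 y2 + ((1/7) : ℚ) • S2 y2 + ((-1/7) : ℚ) • S3 y2 + ((-4/5) : ℚ) • S0 y3 + ((-6/7) : ℚ) • S2 y3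
  exact ⟨_, _, _, _, _, _, _, _, _, _, _, _, _, _, _, _, h0, h1, h2, h3, h4⟩
end Pool.Agent.TN.N5
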