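import Pool.Agent.Lib_helper24.TN.N5C
import Pool.Agent.Lib_helper24.TN.N5P

/-!
# Pentagons, the additional functions for the parameters `1` and `-1`
-/

set_option autoImplicit false
set_option linter.unusedSectionVars false
set_option linter.unusedVariables false

open scoped TensorProduct

namespace Pool.Agent.TN.N5

open MK4

section Pent

variable {F : Type*} [Field F] {a b c d e : F}

lemma pent_sum (P0 : e * b = 1 - a) (P1 : a * c = 1 - b) (P2 : b * d = 1 - c)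
    (P3 : c * e = 1 - d) (P4 : d * a = 1 - e) : a + b + c + d + e = 3 + a * b * c * d * e := by
  linear_combination (-(b * e * d) + 1) * P1 - (1 - b) * d * P0 + (1 - a) * P2 + P4

/-- at `t = 1` -/
lemma pent_one (ha : a ≠ 0) (hc : c ≠ 0) (hd : d ≠ 0) (P0 : e * b = 1 - a) (P1 : a * c = 1 - b)
    (P2 : b * d = 1 - c) (P3 : c * e = 1 - d) (P4 : d * a = 1 - e) (h : a * b * c * d * e = -1) :
    1 - (a ^ 2 * d)⁻¹ = (a ^ 2 * c)⁻¹ := by
  have hs := pent_sum P0 P1 P2 P3 P4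
  have h2 : a ^ 2 * c * d = c + d := by
    linear_combination (a * d) * P1 + (1 - b) * P4 + P0 - hs + (-1) * h
  field_simp
  linear_combination h2

lemma pent_mone (ha : a ≠ 0) (hc : c ≠ 0) (hd : d ≠ 0) (P0 : e * b = 1 - a) (P1 : a * c = 1 - b)
    (P2 : b * d = 1 - c) (P3 : c * e = 1 - d) (P4 : d * a = 1 - e) (h : a * b * c * d * e = 1) :
    1 - -e / (a ^ 2 * d) = -b / (a ^ 2 * c) := by
  have hs := pent_sum P0 P1 P2 P3 P4
  have h2 : a ^ 2 * c * d = 2 - a - b - e := by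
    linear_combination (a * d) * P1 + (1 - b) * P4 + P0
  rw [sub_eq_iff_eq_add, div_add_div _ _ (mul_ne_zero (pow_ne_zero 2 ha) hc)
    (mul_ne_zero (pow_ne_zero 2 ha) hd), eq_div_iff (mul_ne_zero (mul_ne_zero (pow_ne_zero 2 ha) hc)
    (mul_ne_zero (pow_ne_zero 2 ha) hd))]
  linear_combination (a ^ 2) * (h2 + P2 + P3 - hs - h)

lemma five_term [CharZero F] {x y : F} (hx0 : x ≠ 0) (hx1 : x ≠ 1) (hy0 : y ≠ 0) (hy1 : y ≠ 1)
    (hxy : x ≠ y) : sy x - sy y + sy (y / x) - sy ((1 - x⁻¹) / (1 - y⁻¹)) +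
      sy ((1 - x) / (1 - y)) = 0 := by
  have := Submodule.subset_span (R := ℚ) (s := rel2 F)
    (Or.inr (Or.inr ⟨x, y, hx0, hx1, hy0, hy1, hxy, rfl⟩))
  exact (Submodule.Quotient.mk_eq_zero _).mpr this

/-- the additional relation at `t = 1` -/
lemma five_one [CharZero F] (ha : a ≠ 0) (hb : b ≠ 0) (hc : c ≠ 0) (hd : d ≠ 0) (he : e ≠ 0)
    (P0 : e * b = 1 - a) (P1 : a * c = 1 - b)
    (P2 : b * d = 1 - c) (P3 : c * e = 1 - d) (P4 : d * a = 1 - e) (h : a * b * c * d * e = -1) :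
    sy ((a ^ 2 * d)⁻¹) = sy ((c ^ 2 * a)⁻¹) + sy a - sy b + sy c := by
  have ha1 : a ≠ 1 := by
    rintro rfl
    rw [sub_self] at P0
    exact mul_ne_zero he hb P0
  have hb1 : 1 - b ≠ 0 := by rw [← P1]; exact mul_ne_zero ha hc
  have hc1 : 1 - c ≠ 0 := by rw [← P2]; exact mul_ne_zero hb hd
  have ha1' : 1 - a ≠ 0 := by rw [← P0]; exact mul_ne_zero he hb
  have s0 := pent_one ha hc hd P0 P1 P2 P3 P4 h
  -- `s₂`
  have s2 := pent_one (a := c) (b := d) (c := e) (d := a) (e := b) hc he ha P2 P3 P4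
    (by rw [← P0]) (by rw [← P1]) (by rw [← h]; ring)
  have hs0 : (a ^ 2 * d)⁻¹ ≠ 0 := inv_ne_zero (mul_ne_zero (pow_ne_zero 2 ha) hd)
  have f := five_term (x := a) (y := (1 - b)⁻¹) ha ha1 (inv_ne_zero hb1) (by
    intro h'
    apply hb
    have : (1 - b) = 1 := by rw [← inv_inv (1 - b), h', inv_one]
    linear_combination -this) (by
    intro h'
    apply hs0
    have h2 : a * (1 - b) = 1 := by rw [h']; exact inv_mul_cancel₀ hb1
    rw [← P1] at h2
    have h3 : (a ^ 2 * c)⁻¹ = 1 := by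
      rw [show a ^ 2 * c = a * (a * c) by ring, h2, inv_one]
    rw [h3] at s0
    linear_combination -s0)
  have e1 : (1 - b)⁻¹ / a = 1 - (a ^ 2 * d)⁻¹ := by
    rw [s0, ← P1]; field_simp
  have e2 : (1 - a⁻¹) / (1 - ((1 - b)⁻¹)⁻¹) = 1 - (1 - (c ^ 2 * a)⁻¹)⁻¹ := by
    rw [s2, inv_inv, inv_inv, sub_sub_cancel]
    have h3 : c ^ 2 * e = 1 + e / a := by
      have := s2
      have hc2 : c ^ 2 ≠ 0 := pow_ne_zero 2 hc
      have h4 : c ^ 2 * a * e = a + e := by
        field_simp at this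
        linear_combination this
      field_simp
      linear_combination h4
    rw [h3]
    field_simp
    linear_combination P0
  have e3 : (1 - a) / (1 - (1 - b)⁻¹) = (1 - c)⁻¹ := by
    have h3 : 1 - (1 - b)⁻¹ = -b / (1 - b) := by field_simp; ring
    rw [h3, ← P0, ← P1, ← P2]
    field_simp
    linear_combination -h
  rw [e1, e2, e3, show sy ((1 - b)⁻¹) = sy b by rw [syinv, sycompl, neg_neg],
    sycompl ((a ^ 2 * d)⁻¹), show sy (1 - (1 - (c ^ 2 * a)⁻¹)⁻¹) = - sy ((c ^ 2 * a)⁻¹) by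
      rw [sycompl, syinv (1 - (c ^ 2 * a)⁻¹), sycompl, neg_neg],
    show sy ((1 - c)⁻¹) = sy c by rw [syinv, sycompl, neg_neg]] at f
  linear_combination (norm := module) (-1 : ℚ) • f

/-- the additional relation at `t = -1` -/
lemma five_mone [CharZero F] (ha : a ≠ 0) (hb : b ≠ 0) (hc : c ≠ 0) (hd : d ≠ 0) (he : e ≠ 0)
    (P0 : e * b = 1 - a) (P1 : a * c = 1 - b)
    (P2 : b * d = 1 - c) (P3 : c * e = 1 - d) (P4 : d * a = 1 - e) (h : a * b * c * d * e = 1) :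
    sy (-e / (a ^ 2 * d)) = sy (-a / (b ^ 2 * e)) + sy a + sy b - sy d := by
  have ha1 : a ≠ 1 := by
    rintro rfl
    rw [sub_self] at P0
    exact mul_ne_zero he hb P0
  have hb1 : 1 - b ≠ 0 := by rw [← P1]; exact mul_ne_zero ha hc
  have ha1' : 1 - a ≠ 0 := by rw [← P0]; exact mul_ne_zero he hb
  have s0 := pent_mone ha hc hd P0 P1 P2 P3 P4 h
  have hs0 : -e / (a ^ 2 * d) ≠ 0 :=
    div_ne_zero (neg_ne_zero.mpr he) (mul_ne_zero (pow_ne_zero 2 ha) hd)
  have hs1 : -a / (b ^ 2 * e) ≠ 0 :=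
    div_ne_zero (neg_ne_zero.mpr ha) (mul_ne_zero (pow_ne_zero 2 hb) he)
  have eB : 1 - (1 - b)⁻¹ = -b / (1 - b) := by field_simp; ring
  have f := five_term (x := a) (y := 1 - (1 - b)⁻¹) ha ha1 (by
    rw [eB]; exact div_ne_zero (neg_ne_zero.mpr hb) hb1) (by
    intro h'
    apply inv_ne_zero hb1
    linear_combination -h') (by
    intro h'
    apply hs0
    rw [eB] at h'
    have h2 : -b / (a ^ 2 * c) = 1 := by
      rw [show -b / (a ^ 2 * c) = (-b / (a * c)) / a by field_simp, P1, ← h', div_self ha]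
    rw [h2] at s0
    linear_combination -s0)
  have e1 : (1 - (1 - b)⁻¹) / a = 1 - -e / (a ^ 2 * d) := by
    rw [s0, eB, ← P1]; field_simp
  have e2 : (1 - a⁻¹) / (1 - (1 - (1 - b)⁻¹)⁻¹) = (-a / (b ^ 2 * e))⁻¹ := by
    have h3 : 1 - (1 - (1 - b)⁻¹)⁻¹ = 1 / b := by
      rw [eB]; field_simp; ring
    have h4 : 1 - a⁻¹ = -(1 - a) / a := by field_simp; ring
    rw [h3, h4, ← P0]
    field_simp
  have e3 : (1 - a) / (1 - (1 - (1 - b)⁻¹)) = d⁻¹ := by
    rw [sub_sub_cancel, div_inv_eq_mul, ← P0, ← P1]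
    field_simp
    linear_combination h
  rw [e1, e2, e3, show sy (1 - (1 - b)⁻¹) = - sy b by rw [sycompl, syinv, sycompl, neg_neg],
    sycompl (-e / (a ^ 2 * d)), syinv (-a / (b ^ 2 * e)), syinv d] at f
  linear_combination (norm := module) (-1 : ℚ) • f

end Pent

end Pool.Agent.TN.N5
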