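import Pool.Agent.Lib_helper24.TN.N5D

/-!
# The additional functions for the parameters `1` and `-1`: relations and classes
-/

set_option autoImplicit false
set_option linter.unusedSectionVars false
set_option linter.unusedVariables false

open scoped TensorProduct

namespace Pool.Agent.TN.N5

open MK4

variable {F : Type*} [Field F]

/-- the additional functions at `t = 1` -/
def sP (v : Fin 5 → F) (j : Fin 5) : F := (v j ^ 2 * v (j + 3))⁻¹

section P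

variable {v : Fin 5 → F} (n : ∀ j, v j ≠ 0) (p : ∀ j, v (j - 1) * v (j + 1) = 1 - v j)
  (pr : v 0 * v 1 * v 2 * v 3 * v 4 = -1)

include n p pr

lemma relP [CharZero F] (j : Fin 5) :
    sy (sP v j) = sy (sP v (j + 2)) + sy (v j) - sy (v (j + 1)) + sy (v (j + 2)) := by
  have p0 : v 4 * v 1 = 1 - v 0 := p 0
  have p1 : v 0 * v 2 = 1 - v 1 := p 1
  have p2 : v 1 * v 3 = 1 - v 2 := p 2
  have p3 : v 2 * v 4 = 1 - v 3 := p 3
  have p4 : v 3 * v 0 = 1 - v 4 := p 4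
  have q0 : v 0 * v 1 * v 2 * v 3 * v 4 = -1 := by linear_combination pr
  have q1 : v 1 * v 2 * v 3 * v 4 * v 0 = -1 := by linear_combination pr
  have q2 : v 2 * v 3 * v 4 * v 0 * v 1 = -1 := by linear_combination pr
  have q3 : v 3 * v 4 * v 0 * v 1 * v 2 = -1 := by linear_combination pr
  have q4 : v 4 * v 0 * v 1 * v 2 * v 3 = -1 := by linear_combination pr
  fin_cases j
  · exact five_one (n 0) (n 1) (n 2) (n 3) (n 4) p0 p1 p2 p3 p4 q0
  · exact five_one (n 1) (n 2) (n 3) (n 4) (n 0) p1 p2 p3 p4 p0 q1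
  · exact five_one (n 2) (n 3) (n 4) (n 0) (n 1) p2 p3 p4 p0 p1 q2
  · exact five_one (n 3) (n 4) (n 0) (n 1) (n 2) p3 p4 p0 p1 p2 q3
  · exact five_one (n 4) (n 0) (n 1) (n 2) (n 3) p4 p0 p1 p2 p3 q4

lemma complP (j : Fin 5) : 1 - sP v j = (v j ^ 2 * v (j + 2))⁻¹ := by
  have p0 : v 4 * v 1 = 1 - v 0 := p 0
  have p1 : v 0 * v 2 = 1 - v 1 := p 1
  have p2 : v 1 * v 3 = 1 - v 2 := p 2
  have p3 : v 2 * v 4 = 1 - v 3 := p 3
  have p4 : v 3 * v 0 = 1 - v 4 := p 4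
  have q0 : v 0 * v 1 * v 2 * v 3 * v 4 = -1 := by linear_combination pr
  have q1 : v 1 * v 2 * v 3 * v 4 * v 0 = -1 := by linear_combination pr
  have q2 : v 2 * v 3 * v 4 * v 0 * v 1 = -1 := by linear_combination pr
  have q3 : v 3 * v 4 * v 0 * v 1 * v 2 = -1 := by linear_combination pr
  have q4 : v 4 * v 0 * v 1 * v 2 * v 3 = -1 := by linear_combination pr
  fin_cases j
  · exact pent_one (n 0) (n 2) (n 3) p0 p1 p2 p3 p4 q0
  · exact pent_one (n 1) (n 3) (n 4) p1 p2 p3 p4 p0 q1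
  · exact pent_one (n 2) (n 4) (n 0) p2 p3 p4 p0 p1 q2
  · exact pent_one (n 3) (n 0) (n 1) p3 p4 p0 p1 p2 q3
  · exact pent_one (n 4) (n 1) (n 2) p4 p0 p1 p2 p3 q4

lemma neP (j : Fin 5) : sP v j ≠ 0 ∧ sP v j ≠ 1 := by
  refine ⟨inv_ne_zero (mul_ne_zero (pow_ne_zero 2 (n _)) (n _)), fun h => ?_⟩
  have h1 := complP n p pr j
  rw [h, sub_self] at h1
  exact inv_ne_zero (mul_ne_zero (pow_ne_zero 2 (n _)) (n _)) h1.symm

lemma lgP (j : Fin 5) : lg (sP v j) = (-2 : ℚ) • lg (v j) + (-1 : ℚ) • lg (v (j + 3)) := by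
  unfold sP
  rw [lginv, lgmul (pow_ne_zero 2 (n _)) (n _), lgpow (n _)]
  push_cast
  module

lemma lgcP (j : Fin 5) : lg (1 - sP v j) = (-2 : ℚ) • lg (v j) + (-1 : ℚ) • lg (v (j + 2)) := by
  rw [complP n p pr, lginv, lgmul (pow_ne_zero 2 (n _)) (n _), lgpow (n _)]
  push_cast
  module

end P

/-- the additional functions at `t = -1` -/
def sM (v : Fin 5 → F) (j : Fin 5) : F := -v (j + 4) / (v j ^ 2 * v (j + 3))

section M

variable {v : Fin 5 → F} (n : ∀ j, v j ≠ 0) (p : ∀ j, v (j - 1) * v (j + 1) = 1 - v j)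
  (pr : v 0 * v 1 * v 2 * v 3 * v 4 = 1)

include n p pr

lemma relM [CharZero F] (j : Fin 5) :
    sy (sM v j) = sy (sM v (j + 1)) + sy (v j) + sy (v (j + 1)) - sy (v (j + 3)) := by
  have p0 : v 4 * v 1 = 1 - v 0 := p 0
  have p1 : v 0 * v 2 = 1 - v 1 := p 1
  have p2 : v 1 * v 3 = 1 - v 2 := p 2
  have p3 : v 2 * v 4 = 1 - v 3 := p 3
  have p4 : v 3 * v 0 = 1 - v 4 := p 4
  have q0 : v 0 * v 1 * v 2 * v 3 * v 4 = 1 := by linear_combination pr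
  have q1 : v 1 * v 2 * v 3 * v 4 * v 0 = 1 := by linear_combination pr
  have q2 : v 2 * v 3 * v 4 * v 0 * v 1 = 1 := by linear_combination pr
  have q3 : v 3 * v 4 * v 0 * v 1 * v 2 = 1 := by linear_combination pr
  have q4 : v 4 * v 0 * v 1 * v 2 * v 3 = 1 := by linear_combination pr
  fin_cases j
  · exact five_mone (n 0) (n 1) (n 2) (n 3) (n 4) p0 p1 p2 p3 p4 q0
  · exact five_mone (n 1) (n 2) (n 3) (n 4) (n 0) p1 p2 p3 p4 p0 q1
  · exact five_mone (n 2) (n 3) (n 4) (n 0) (n 1) p2 p3 p4 p0 p1 q2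
  · exact five_mone (n 3) (n 4) (n 0) (n 1) (n 2) p3 p4 p0 p1 p2 q3
  · exact five_mone (n 4) (n 0) (n 1) (n 2) (n 3) p4 p0 p1 p2 p3 q4

lemma complM (j : Fin 5) : 1 - sM v j = -v (j + 1) / (v j ^ 2 * v (j + 2)) := by
  have p0 : v 4 * v 1 = 1 - v 0 := p 0
  have p1 : v 0 * v 2 = 1 - v 1 := p 1
  have p2 : v 1 * v 3 = 1 - v 2 := p 2
  have p3 : v 2 * v 4 = 1 - v 3 := p 3
  have p4 : v 3 * v 0 = 1 - v 4 := p 4
  have q0 : v 0 * v 1 * v 2 * v 3 * v 4 = 1 := by linear_combination pr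
  have q1 : v 1 * v 2 * v 3 * v 4 * v 0 = 1 := by linear_combination pr
  have q2 : v 2 * v 3 * v 4 * v 0 * v 1 = 1 := by linear_combination pr
  have q3 : v 3 * v 4 * v 0 * v 1 * v 2 = 1 := by linear_combination pr
  have q4 : v 4 * v 0 * v 1 * v 2 * v 3 = 1 := by linear_combination pr
  fin_cases j
  · exact pent_mone (n 0) (n 2) (n 3) p0 p1 p2 p3 p4 q0
  · exact pent_mone (n 1) (n 3) (n 4) p1 p2 p3 p4 p0 q1
  · exact pent_mone (n 2) (n 4) (n 0) p2 p3 p4 p0 p1 q2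
  · exact pent_mone (n 3) (n 0) (n 1) p3 p4 p0 p1 p2 q3
  · exact pent_mone (n 4) (n 1) (n 2) p4 p0 p1 p2 p3 q4

lemma neM (j : Fin 5) : sM v j ≠ 0 ∧ sM v j ≠ 1 := by
  refine ⟨div_ne_zero (neg_ne_zero.mpr (n _)) (mul_ne_zero (pow_ne_zero 2 (n _)) (n _)), fun h => ?_⟩
  have h1 := complM n p pr j
  rw [h, sub_self] at h1
  exact div_ne_zero (neg_ne_zero.mpr (n _)) (mul_ne_zero (pow_ne_zero 2 (n _)) (n _)) h1.symm

lemma lgM (j : Fin 5) : lg (sM v j) =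
    (-2 : ℚ) • lg (v j) + (-1 : ℚ) • lg (v (j + 3)) + (1 : ℚ) • lg (v (j + 4)) := by
  unfold sM
  rw [lgdiv (neg_ne_zero.mpr (n _)) (mul_ne_zero (pow_ne_zero 2 (n _)) (n _)), lgneg,
    lgmul (pow_ne_zero 2 (n _)) (n _), lgpow (n _)]
  push_cast
  module

lemma lgcM (j : Fin 5) : lg (1 - sM v j) =
    (-2 : ℚ) • lg (v j) + (1 : ℚ) • lg (v (j + 1)) + (-1 : ℚ) • lg (v (j + 2)) := by
  rw [complM n p pr, lgdiv (neg_ne_zero.mpr (n _)) (mul_ne_zero (pow_ne_zero 2 (n _)) (n _)), lgneg,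
    lgmul (pow_ne_zero 2 (n _)) (n _), lgpow (n _)]
  push_cast
  module

end M

end Pool.Agent.TN.N5
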