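import Pool.Agent.Lib_helper24.TN.N5F

/-!
# Point of order five: from the unit equation to the closed elements
-/

set_option autoImplicit false
set_option linter.unusedSectionVars false
set_option linter.unusedVariables false

open scoped TensorProduct

namespace Pool.Agent.TN.N5

open MK4

variable {k : Type*} [Field k] {F : Type*} [Field F] [Algebra k F] {t : k} {x y : F}

/-- functions supported on the multiples of `P` -/
def U (t : k) (x y f : F) : Prop :=
  ∃ (d : k) (a b c e : ℤ), d ≠ 0 ∧ f = algebraMap k F d * M t x y a b c e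

/-- the span of the `{f} ⊗ u`, `f` and `1 - f` supported on the multiples of `P` -/
noncomputable def Cu (t : k) (x y : F) : Submodule ℚ (HK F) :=
  Submodule.span ℚ {z | ∃ (f : F) (u : FT F), U t x y f ∧ U t x y (1 - f) ∧ z = hk (sy f) u}

/-- the solutions of the unit equation -/
def Sol (t : k) (x y f : F) : Prop :=
  (∃ c : k, f = algebraMap k F c) ∨ (∃ j, Orb (v t x y j) f) ∨
    (t = 1 ∧ ∃ j, Orb (sP (v t x y) j) f) ∨ (t = -1 ∧ ∃ j, Orb (sM (v t x y) j) f)

lemma single_sum (T : Fin 5 → B2 F) (i : Fin 5) (u : FT F) :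
    ∑ j, hk (T j) (if j = i then u else 0) = hk (T i) u := by
  rw [Finset.sum_eq_single i]
  · rw [if_pos rfl]
  · intro j _ hj
    rw [if_neg hj, hk_zero_right]
  · intro h; exact absurd (Finset.mem_univ i) h

lemma decomp_gen [CharZero k] (ht : t ≠ 0) (h : Gen t t x y) (s : Fin 5 → F) (hs : ∀ j, s j ≠ 1)
    (hU : ∀ f, U t x y f → U t x y (1 - f) → (∃ c : k, f = algebraMap k F c) ∨
      (∃ j, Orb (v t x y j) f) ∨ ∃ j, Orb (s j) f) {z : HK F} (hz : z ∈ Cu t x y) :
    ∃ (u w : Fin 5 → FT F) (κ : HK F), κ ∈ KC k F ∧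
      z = ∑ j, hk (sy (v t x y j)) (u j) + ∑ j, hk (sy (s j)) (w j) + κ := by
  have : CharZero F := charZero_of_injective_algebraMap (algebraMap k F).injective
  have zz : ∀ T : Fin 5 → B2 F, ∑ j, hk (T j) ((0 : Fin 5 → FT F) j) = 0 := by
    intro T
    apply Finset.sum_eq_zero
    intro j _
    rw [Pi.zero_apply, hk_zero_right]
  unfold Cu at hz
  induction hz using Submodule.span_induction with
  | mem z hz =>
    obtain ⟨f, u, h1, h2, rfl⟩ := hz
    rcases hU f h1 h2 with ⟨c, rfl⟩ | ⟨i, h3⟩ | ⟨i, h3⟩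
    · exact ⟨0, 0, _, Submodule.subset_span ⟨c, u, rfl⟩, by rw [zz, zz, zero_add, zero_add]⟩
    · rcases sy_orb (v_ne1 ht h i) h3 with h4 | h4
      · exact ⟨fun j => if j = i then u else 0, 0, 0, Submodule.zero_mem _, by
          rw [h4, zz, single_sum (fun j => sy (v t x y j)), add_zero, add_zero]⟩
      · exact ⟨fun j => if j = i then -u else 0, 0, 0, Submodule.zero_mem _, by
          rw [h4, zz, single_sum (fun j => sy (v t x y j)), add_zero, add_zero, hk_neg_left,
            hk_neg_right]⟩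
    · rcases sy_orb (hs i) h3 with h4 | h4
      · exact ⟨0, fun j => if j = i then u else 0, 0, Submodule.zero_mem _, by
          rw [h4, zz, single_sum (fun j => sy (s j)), add_zero, zero_add]⟩
      · exact ⟨0, fun j => if j = i then -u else 0, 0, Submodule.zero_mem _, by
          rw [h4, zz, single_sum (fun j => sy (s j)), add_zero, zero_add, hk_neg_left,
            hk_neg_right]⟩
  | zero => exact ⟨0, 0, 0, Submodule.zero_mem _, by rw [zz, zz, zero_add, zero_add]⟩
  | add a b _ _ ha hb =>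
    obtain ⟨u, w, κ, hκ, rfl⟩ := ha
    obtain ⟨u', w', κ', hκ', rfl⟩ := hb
    refine ⟨u + u', w + w', κ + κ', Submodule.add_mem _ hκ hκ', ?_⟩
    simp only [Pi.add_apply, hk_add_right, Finset.sum_add_distrib]
    abel
  | smul q a _ ha =>
    obtain ⟨u, w, κ, hκ, rfl⟩ := ha
    refine ⟨q • u, q • w, q • κ, Submodule.smul_mem _ _ hκ, ?_⟩
    simp only [Pi.smul_apply, hk_smul_right, ← Finset.smul_sum, smul_add]

/-- **closed elements for a point of order five** -/
theorem closed [CharZero k] (ht : t ≠ 0) (h : Gen t t x y)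
    (hU : ∀ f, U t x y f → U t x y (1 - f) → Sol t x y f) {z : HK F} (hz : z ∈ Cu t x y)
    (hc : Closed z) : ∃ b1 b2 : ℚ, z - (b1 • Z1 t x y + b2 • Z2 t x y) ∈ KC k F ∧
      ((b1 = 0 ∧ b2 = 0) ∨ ∃ n : ℕ, 0 < n ∧ t ^ n = 1) ∧ ((t = 1 ∨ t = -1) → b2 = 0) := by
  by_cases h1 : t = 1
  · have pr : v t x y 0 * v t x y 1 * v t x y 2 * v t x y 3 * v t x y 4 = -1 := by
      rw [prod_v ht h, h1]; simp
    obtain ⟨u, w, κ, hκ, rfl⟩ := decomp_gen ht h (sP (v t x y))
      (fun j => (neP (v_ne ht h) (v_penta ht h) pr j).2) (by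
        intro f hf hf1
        rcases hU f hf hf1 with h2 | h2 | h2 | h2
        · exact Or.inl h2
        · exact Or.inr (Or.inl h2)
        · exact Or.inr (Or.inr h2.2)
        · exfalso
          have := h2.1
          rw [h1] at this
          norm_num at this) hz
    obtain ⟨b1, hb⟩ := closedP h1 h u w hκ hc
    refine ⟨b1, 0, ?_, Or.inr ⟨1, one_pos, by rw [pow_one, h1]⟩, fun _ => rfl⟩
    rw [hb, zero_smul, add_zero, add_sub_cancel_left]
    exact hκ
  by_cases h2 : t = -1
  · have pr : v t x y 0 * v t x y 1 * v t x y 2 * v t x y 3 * v t x y 4 = 1 := by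
      rw [prod_v ht h, h2]; simp
    obtain ⟨u, w, κ, hκ, rfl⟩ := decomp_gen ht h (sM (v t x y))
      (fun j => (neM (v_ne ht h) (v_penta ht h) pr j).2) (by
        intro f hf hf1
        rcases hU f hf hf1 with h2 | h2 | h2 | h2
        · exact Or.inl h2
        · exact Or.inr (Or.inl h2)
        · exact absurd h2.1 h1
        · exact Or.inr (Or.inr h2.2)) hz
    obtain ⟨b1, hb⟩ := closedM h2 h u w hκ hc
    refine ⟨b1, 0, ?_, Or.inr ⟨2, two_pos, by rw [h2]; norm_num⟩, fun _ => rfl⟩
    rw [hb, zero_smul, add_zero, add_sub_cancel_left]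
    exact hκ
  · obtain ⟨u, w, κ, hκ, rfl⟩ := decomp_gen ht h (fun _ => (0 : F))
      (fun j => zero_ne_one) (by
        intro f hf hf1
        rcases hU f hf hf1 with h3 | h3 | h3 | h3
        · exact Or.inl h3
        · exact Or.inr (Or.inl h3)
        · exact absurd h3.1 h1
        · exact absurd h3.1 h2) hz
    have e : ∑ j, hk (sy ((fun _ => (0 : F)) j)) (w j) = 0 := by
      apply Finset.sum_eq_zero
      intro j _
      rw [sy0, hk_zero_left]
    rw [e, add_zero] at hc ⊢
    obtain ⟨b1, b2, hb, hr⟩ := closed0 ht h u hκ hc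
    refine ⟨b1, b2, ?_, hr, ?_⟩
    · rw [hb, add_sub_cancel_left]
      exact hκ
    · rintro (h3 | h3)
      · exact absurd h3 h1
      · exact absurd h3 h2

end Pool.Agent.TN.N5
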