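import Pool.Agent.Lib_helper24.TN.N5G
import Pool.Agent.Lib_helper76.UE5.H

/-!
# Point of order five: the unit equation plugged in
-/

set_option autoImplicit false
set_option linter.unusedSectionVars false
set_option linter.unusedVariables false

open scoped TensorProduct

namespace Pool.Agent.TN.N5

open MK4

variable {k : Type*} [Field k] {F : Type*} [Field F] [Algebra k F] {t : k} {x y : F}

lemma X_eq (ht : t ≠ 0) (h : Gen t t x y) (j : Fin 5) :
    UE5.X t x y j = algebraMap k F t / v t x y (3 * j) := by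
  have hT : algebraMap k F t ≠ 0 := (_root_.map_ne_zero _).mpr ht
  have hx := h.x_ne
  have hx1 := h.xc_ne t
  have hy := h.y_ne
  have hw := Gen.w_ne h
  fin_cases j
  · show x = algebraMap k F t / (algebraMap k F t / x)
    field_simp
  · show algebraMap k F t * y / x ^ 2 = algebraMap k F t / (x ^ 2 / y)
    field_simp
  · show algebraMap k F t * x * (y - algebraMap k F t * x) / (y * (x - algebraMap k F t)) =
      algebraMap k F t / (y * (x - algebraMap k F t) / (x * (y - algebraMap k F t * x)))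
    field_simp
  · show algebraMap k F t * y / (y - algebraMap k F t * x) =
      algebraMap k F t / ((y - algebraMap k F t * x) / y)
    field_simp
  · show -(algebraMap k F t * (x - algebraMap k F t)) / y =
      algebraMap k F t / (-y / (x - algebraMap k F t))
    field_simp

lemma yy_eq (h1 : t = 1) (h : Gen t t x y) (j : Fin 5) :
    UE5.yy t x y j = sP (v t x y) (3 * j) := by
  have ht : t ≠ 0 := by rw [h1]; exact one_ne_zero
  have n := v_ne ht h
  unfold UE5.yy sP
  rw [X_eq ht h, X_eq ht h, h1, map_one]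
  have e : 3 * (j + 1) = 3 * j + 3 := (by decide : ∀ j : Fin 5, 3 * (j + 1) = 3 * j + 3) j
  rw [e]
  have a := n (3 * j)
  have b := n (3 * j + 3)
  rw [h1] at a b
  field_simp

lemma ww_eq (h1 : t = -1) (h : Gen t t x y) (j : Fin 5) :
    UE5.ww t x y j = sM (v t x y) (3 * j) := by
  have ht : t ≠ 0 := by rw [h1]; exact neg_ne_zero.mpr one_ne_zero
  have n := v_ne ht h
  unfold UE5.ww sM
  rw [X_eq ht h, X_eq ht h, X_eq ht h, h1, map_neg, map_one]
  have e : 3 * (j + 1) = 3 * j + 3 := (by decide : ∀ j : Fin 5, 3 * (j + 1) = 3 * j + 3) j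
  have e' : 3 * (j + 3) = 3 * j + 4 := (by decide : ∀ j : Fin 5, 3 * (j + 3) = 3 * j + 4) j
  rw [e, e']
  have a := n (3 * j)
  have b := n (3 * j + 3)
  have c := n (3 * j + 4)
  rw [h1] at a b c
  field_simp

/-- **the unit equation for a point of order five** -/
theorem unit_eq [CharZero k] (ht : t ≠ 0) (h : Gen t t x y) (f : F) (hf : U t x y f)
    (hf1 : U t x y (1 - f)) : Sol t x y f := by
  obtain ⟨d, a, b, c, e, hd, rfl⟩ := hf
  obtain ⟨d', a', b', c', e', hd', hf1⟩ := hf1
  have hu : algebraMap k F d * UE5.M4 t x y a b c e +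
      algebraMap k F d' * UE5.M4 t x y a' b' c' e' = 1 := by
    have : algebraMap k F d' * UE5.M4 t x y a' b' c' e' =
        1 - algebraMap k F d * UE5.M4 t x y a b c e := hf1.symm
    rw [this]; ring
  rcases UE5.unit_eq4 ht (UE5.of_TN h) hd hd' hu with h2 | ⟨j, h2⟩ | ⟨h1, j, h2⟩ | ⟨h1, j, h2⟩
  · exact Or.inl h2
  · exact Or.inr (Or.inl ⟨j, h2⟩)
  · refine Or.inr (Or.inr (Or.inl ⟨h1, 3 * j, ?_⟩))
    rw [← yy_eq h1 h]
    exact h2
  · refine Or.inr (Or.inr (Or.inr ⟨h1, 3 * j, ?_⟩))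
    rw [← ww_eq h1 h]
    exact h2

/-- **closed elements for a point of order five** -/
theorem closed' [CharZero k] (ht : t ≠ 0) (h : Gen t t x y) {z : HK F} (hz : z ∈ Cu t x y)
    (hc : Closed z) : ∃ b1 b2 : ℚ, z - (b1 • Z1 t x y + b2 • Z2 t x y) ∈ KC k F ∧
      ((b1 = 0 ∧ b2 = 0) ∨ ∃ n : ℕ, 0 < n ∧ t ^ n = 1) ∧ ((t = 1 ∨ t = -1) → b2 = 0) :=
  closed ht h (fun f h1 h2 => unit_eq ht h f h1 h2) hz hc

end Pool.Agent.TN.N5
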